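import Pool.Agent.H50.GN.Defs

/-!
# [GN15] Torsion-free CSA groups in the class

`CSA`: the centralisers of the nontrivial elements are commutative and malnormal. (Torsion-free hyperbolic groups, limit groups, ..)

Proof. `root`: if `x ≠ 1`, `y` commutes with `x ^ k ≠ 1` then `x`, `y` are in the centraliser of `x ^ k`, which is commutative.
`inj`: centralisers in subgroups. `quot`: if `A = ⊥` then `Pw A c` iff `c` has finite order iff `c = 1`, so `f` is an isomorphism. If
`1 ≠ a ∈ A` then for every `g` a power of `g * a * g⁻¹` is in `A`, it is not `1` and commutes with `a`, so `g * a * g⁻¹` commutes with `a`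
(`root`), so `g` is in the centraliser `Z` of `a` (malnormal: `g * a * g⁻¹ ∈ Z`, `≠ 1`, `a ∈ Z`). So `G = Z` is commutative, `Q` is
commutative and torsion-free (`f c ^ k = 1` gives `Pw A (c ^ k)`), so it is CSA, and in `C` (`hS`).
-/

set_option autoImplicit false

namespace Pool.Agent.H50.GN

open Pool.Agent.H98.FJ Pool.Agent.H93.TR

/-- the centralisers of the elements different from `1` are commutative and malnormal -/
def CSA (G : Type) [Group G] : Prop :=
  ∀ a : G, a ≠ 1 → (∀ x y : G, a * x = x * a → a * y = y * a → x * y = y * x) ∧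
    ∀ g x : G, x ≠ 1 → a * x = x * a → a * (g * x * g⁻¹) = (g * x * g⁻¹) * a → a * g = g * a

/-- torsion-free CSA groups in the class -/
def WC (C : (G : Type) → [Group G] → Prop) (G : Type) [Group G] : Prop := Pool.Agent.H63.RK.TF G ∧ CSA G ∧ C G

private theorem CSA_root {G : Type} [Group G] (h0 : Pool.Agent.H63.RK.TF G) (h : CSA G) (x y : G) (k : ℕ) (hk : k ≠ 0)
    (hc : Commute (x ^ k) y) : Commute x y := by
  by_cases hx : x = 1
  · rw [hx]
    exact Commute.one_left y
  · have h1 : x ^ k ≠ 1 := fun h2 => hx (h0 x k hk h2)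
    exact (h (x ^ k) h1).1 x y ((Commute.refl x).pow_left k) hc

private theorem WC_inj {C : (G : Type) → [Group G] → Prop} (hC : Inherits C) (G H : Type) [Group G] [Group H] (f : G →* H)
    (hf : Function.Injective f) (h : WC C H) : WC C G := by
  have hm : ∀ x y : G, f x * f y = f y * f x → x * y = y * x := by
    intro x y h1
    apply hf
    rw [map_mul, map_mul, h1]
  have hm' : ∀ x y : G, x * y = y * x → f x * f y = f y * f x := by
    intro x y h1
    rw [← map_mul, h1, map_mul]
  have hn : ∀ x : G, x ≠ 1 → f x ≠ 1 := fun x hx h1 => hx (hf (by rw [h1, map_one]))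
  refine ⟨fun x k hk hx => ?_, fun a ha => ⟨fun x y hx hy => ?_, fun g x hx hax hg => ?_⟩, hC.of_injective f hf h.2.2⟩
  · apply hf
    rw [map_one]
    refine h.1 (f x) k hk ?_
    rw [← map_pow, hx, map_one]
  · exact hm _ _ ((h.2.1 (f a) (hn a ha)).1 (f x) (f y) (hm' _ _ hx) (hm' _ _ hy))
  · refine hm _ _ ((h.2.1 (f a) (hn a ha)).2 (f g) (f x) (hn x hx) (hm' _ _ hax) ?_)
    have h1 := hm' _ _ hg
    rw [map_mul, map_mul, map_inv] at h1
    exact h1

theorem cls_WC {C : (G : Type) → [Group G] → Prop} (hC : Inherits C)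
    (hS : ∀ (G : Type) [Group G], Group.IsSolvable G → C G) : Cls C (WC C) := by
  refine ⟨fun G _ h => h.2.2, fun G H _ _ f hf h => WC_inj hC G H f hf h, fun G _ h => h.1,
    fun G _ h => CSA_root h.1 h.2.1, ?_⟩
  intro G Q _ _ f h hf hA
  obtain ⟨A, hab, hinv, hker⟩ := hA
  by_cases hA1 : ∀ a ∈ A, a = 1
  · have hinj : Function.Injective f := by
      refine (injective_iff_map_eq_one f).2 fun c hc => ?_
      obtain ⟨k, hk, hk1⟩ := (hker c).1 hc
      exact h.1 c k hk (hA1 _ hk1)
    let e : G ≃* Q := MulEquiv.ofBijective f ⟨hinj, hf⟩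
    exact WC_inj hC Q G e.symm.toMonoidHom e.symm.injective h
  · push Not at hA1
    obtain ⟨a, ha, ha1⟩ := hA1
    have hz : ∀ g : G, a * g = g * a := by
      intro g
      obtain ⟨k, hk, hk1⟩ := hinv g a ha
      have h1 : Commute (g * a * g⁻¹) a := CSA_root h.1 h.2.1 _ _ k hk (hab _ hk1 _ ha)
      exact (h.2.1 a ha1).2 g a ha1 rfl h1.symm
    have hcm : ∀ x y : G, x * y = y * x := fun x y => (h.2.1 a ha1).1 x y (hz x) (hz y)
    have hcq : ∀ x y : Q, x * y = y * x := by
      intro x y
      obtain ⟨x, rfl⟩ := hf x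
      obtain ⟨y, rfl⟩ := hf y
      rw [← map_mul, hcm, map_mul]
    refine ⟨?_, fun b _ => ⟨fun x y _ _ => hcq x y, fun g x _ _ _ => hcq b g⟩, hS Q ?_⟩
    · intro x k hk hx
      obtain ⟨c, rfl⟩ := hf x
      rw [← map_pow] at hx
      obtain ⟨m, hm, hm1⟩ := (hker _).1 hx
      refine (hker c).2 ⟨k * m, Nat.mul_ne_zero hk hm, ?_⟩
      rw [pow_mul]
      exact hm1
    · exact Group.isSolvable_of_comm hcq

end Pool.Agent.H50.GN
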