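import Pool.Agent.H50.GN.Cen
import Pool.Agent.H63.RK.Exc
import Pool.Agent.H63.RK.Quo

/-!
# [GN14] Torsion-free locally nilpotent groups

Proof. `mem`: `Pool.Agent.H63.RK.locNil_mem`, or directed unions of nilpotent (solvable) groups. `root`: `nil_root` in the subgroup
generated by two elements. `quot`: `Q` is locally nilpotent (images of finitely generated subgroups); torsion-free: `f c ^ k = 1` gives
`Pw A (c ^ k)`, so `Pw A c`.
-/

set_option autoImplicit false

namespace Pool.Agent.H50.GN

open Pool.Agent.H98.FJ Pool.Agent.H93.TR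

/-- torsion-free locally nilpotent groups -/
def WN (G : Type) [Group G] : Prop := Pool.Agent.H63.RK.TF G ∧ Pool.Agent.H63.RK.LocNil G

private theorem ln_inj {N N' : Type} [Group N] [Group N'] (f : N →* N')
    (hf : Function.Injective f) (h : Pool.Agent.H63.RK.LocNil N') : Pool.Agent.H63.RK.LocNil N := by
  intro L hL
  have e : L ≃* L.map f := L.equivMapOfInjective f hf
  have h1 : Group.FG L := (Group.fg_iff_subgroup_fg L).2 hL
  have h2 : Group.FG (L.map f) := Group.fg_of_surjective (f := e.toMonoidHom) e.surjective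
  have h3 := h _ ((Group.fg_iff_subgroup_fg _).1 h2)
  exact Group.nilpotent_of_mulEquiv e.symm

theorem cls_WN {C : (G : Type) → [Group G] → Prop} (hC : Inherits C)
    (hS : ∀ (G : Type) [Group G], Group.IsSolvable G → C G) : Cls C WN := by
  refine ⟨?_, ?_, ?_, ?_, ?_⟩
  · intro G _ h
    exact Pool.Agent.H63.RK.locNil_mem hC hS h.2
  · intro G H _ _ f hf h
    refine ⟨fun x k hk hx => ?_, ln_inj f hf h.2⟩
    apply hf
    rw [map_one]
    refine h.1 (f x) k hk ?_
    rw [← map_pow, hx, map_one]
  · intro G _ h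
    exact h.1
  · intro G _ h x y k hk hc
    classical
    have hf : (Subgroup.closure (({x, y} : Finset G) : Set G)).FG := ⟨_, rfl⟩
    have hn := h.2 _ hf
    have hx : x ∈ Subgroup.closure (({x, y} : Finset G) : Set G) := Subgroup.subset_closure (by simp)
    have hy : y ∈ Subgroup.closure (({x, y} : Finset G) : Set G) := Subgroup.subset_closure (by simp)
    have h1 := nil_root hn (fun z j hj hz => Subtype.ext (h.1 z.1 j hj (congrArg Subtype.val hz)))
      ⟨x, hx⟩ ⟨y, hy⟩ k hk (Subtype.ext hc.eq)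
    exact congrArg Subtype.val h1.eq
  · intro G Q _ _ f h hf hA
    obtain ⟨A, _, _, hker⟩ := hA
    refine ⟨fun x k hk hx => ?_, Pool.Agent.H63.RK.LocNil.of_surj f h.2 hf⟩
    obtain ⟨c, rfl⟩ := hf x
    rw [← map_pow] at hx
    obtain ⟨m, hm, hm1⟩ := (hker _).1 hx
    refine (hker c).2 ⟨k * m, Nat.mul_ne_zero hk hm, ?_⟩
    rw [pow_mul]
    exact hm1

end Pool.Agent.H50.GN
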