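import Pool.Agent.H50.GN.Defs

/-!
# [GN1] Lifts

Proof. Fix a root `v₀`. In a tree every `y ≠ v₀` has a unique neighbour `par y` nearer to `v₀`; every edge is `{par y, y}` for one of its
ends. For `u` and a neighbour `w` of `u` let `σ u w` be a representative of the `I u`-orbit of `w` among the neighbours of `u` (the
elements of `I u` permute the neighbours of `u`): `par u` if `par u` (`u ≠ v₀`) is in the orbit, otherwise a chosen element (depending on
the orbit only). `σ u w = c • w` with `c ∈ I u`, `σ u (σ u w) = σ u w`, `σ u (c • w) = σ u w` for `c ∈ I u`. The set `S` of the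
representatives: `v₀ ∈ S`; `w ≠ v₀` is in `S` iff `par w ∈ S` and `σ (par w) w = w`. So if `u ∈ S`, `w` is a neighbour of `u` then
`σ u w ∈ S` (it is `par u` or a child). Two neighbours in `S` of `u ∈ S` in the same `I u`-orbit are equal: both are fixed by `σ u`.
Define `n` by recursion over the distance from `v₀`: `n v₀ = 1`; if `p = par y`, `u = n p • p ∈ S` then `n y = c * n p` with `c ∈ I u`,
`c • (n p • y) = σ u (n p • y)`, and `c = 1` if `σ u (n p • y) = n p • y`. By induction `n y • y ∈ S`, and `n s = 1` for `s ∈ S`.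
(`adj`: for `x = par y` the element `n y * (n x)⁻¹` is in `I (n x • x)`; if `y = par x` its inverse is in `I (n y • y)`.)
-/

set_option autoImplicit false

namespace Pool.Agent.H50.GN

open Pool.Agent.H98.FJ Pool.Agent.H93.TR

private theorem exists_par {V : Type} {X : SimpleGraph V} (hX : X.IsTree) (v₀ : V) :
    ∃ (par : V → V) (d : V → ℕ), (∀ y, y ≠ v₀ → X.Adj (par y) y ∧ d y = d (par y) + 1) ∧
      (∀ x y, X.Adj x y → (y ≠ v₀ ∧ x = par y) ∨ (x ≠ v₀ ∧ y = par x)) := by
  classical
  have hex : ∀ u v, ∃! p : X.Walk u v, p.IsPath := hX.existsUnique_path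
  choose P hP hPu using fun v => hex v₀ v
  have F1 : ∀ x y, X.Adj x y → y ∉ (P x).support →
      (y ≠ v₀ ∧ x = (P y).penultimate) ∧ (P y).length = (P x).length + 1 := by
    intro x y hxy hy
    have h1 : (P x).concat hxy = P y := hPu y _ ((hP x).concat hy hxy)
    rw [← h1]
    refine ⟨⟨?_, ?_⟩, ?_⟩
    · rintro rfl
      exact hy (P x).start_mem_support
    · rw [SimpleGraph.Walk.penultimate_concat]
    · rw [SimpleGraph.Walk.length_concat]
  have F2 : ∀ x y, X.Adj x y → y ∈ (P x).support → x ∉ (P y).support := by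
    intro x y hxy hy
    exact hX.isAcyclic.ne_mem_support_of_support_of_adj_of_isPath (hP x) (hP y) hxy hy
  refine ⟨fun y => (P y).penultimate, fun y => (P y).length, ?_, ?_⟩
  · intro y hy
    have hnil : ¬ (P y).Nil := by
      intro h
      exact hy h.eq.symm
    have h1 : X.Adj (P y).penultimate y := SimpleGraph.Walk.adj_penultimate hnil
    have h2 : (P y).penultimate ∈ (P y).support := (P y).getVert_mem_support _
    exact ⟨h1, (F1 _ _ h1 (F2 _ _ h1.symm h2)).2⟩
  · intro x y hxy
    by_cases hy : y ∈ (P x).support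
    · exact Or.inr (F1 _ _ hxy.symm (F2 _ _ hxy hy)).1
    · exact Or.inl (F1 _ _ hxy hy).1

private theorem exists_rec {V G : Type} (v₀ : V) (par : V → V) (d : V → ℕ)
    (hd : ∀ y, y ≠ v₀ → d y = d (par y) + 1) (F : V → V → G → G) (b : G) :
    ∃ n : V → G, n v₀ = b ∧ ∀ y, y ≠ v₀ → n y = F (par y) y (n (par y)) := by
  classical
  let m : ℕ → V → G := fun j => Nat.rec (fun _ => b)
    (fun _ f y => if y = v₀ then b else F (par y) y (f (par y))) j
  have m0 : ∀ j, m j v₀ = b := by
    intro j
    cases j with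
    | zero => rfl
    | succ j =>
      show (if v₀ = v₀ then b else _) = b
      rw [if_pos rfl]
  refine ⟨fun y => m (d y) y, m0 _, ?_⟩
  intro y hy
  show m (d y) y = F (par y) y (m (d (par y)) (par y))
  rw [hd y hy]
  show (if y = v₀ then b else F (par y) y (m (d (par y)) (par y))) = _
  rw [if_neg hy]

/-- the vertices which are representatives -/
private inductive SS {V : Type} (v₀ : V) (par : V → V) (σ : V → V → V) : V → Prop
  | root : SS v₀ par σ v₀
  | step (w : V) : w ≠ v₀ → SS v₀ par σ (par w) → σ (par w) w = w → SS v₀ par σ w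

private theorem SS_inv {V : Type} {v₀ : V} {par : V → V} {σ : V → V → V} {w : V} (h : SS v₀ par σ w)
    (hw : w ≠ v₀) : SS v₀ par σ (par w) ∧ σ (par w) w = w := by
  cases h with
  | root => exact absurd rfl hw
  | step _ _ h1 h2 => exact ⟨h1, h2⟩

theorem exists_lift {G V : Type} [Group G] [MulAction G V] {X : SimpleGraph V} (hX : OnTree G X)
    {I : V → Subgroup G} (hI : Sat X I) : ∃ n : V → G, Lft X I n := by
  classical
  obtain ⟨v₀⟩ := hX.tree.connected.nonempty
  obtain ⟨par, d, hpar, hedge⟩ := exists_par hX.tree v₀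
  -- the representatives of the orbits
  let s : (u : V) → Orb (I u) V → V := fun u o => if o = orb (I u) (par u) then par u else Quotient.out o
  have hs : ∀ u o, orb (I u) (s u o) = o := by
    intro u o
    by_cases h : o = orb (I u) (par u)
    · simp only [s, if_pos h]
      exact h.symm
    · simp only [s, if_neg h]
      exact Quotient.out_eq o
  let σ : V → V → V := fun u w => s u (orb (I u) w)
  have hσ : ∀ u w, ∃ c ∈ I u, c • w = σ u w := by
    intro u w
    exact (orb_eq_iff (I u) _ _).1 (hs u (orb (I u) w))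
  have hσc : ∀ u w c, c ∈ I u → σ u (c • w) = σ u w := by
    intro u w c hc
    have h : orb (I u) (c • w) = orb (I u) w := (orb_eq_iff (I u) _ _).2 ⟨c, hc, rfl⟩
    simp only [σ, h]
  have hσσ : ∀ u w, σ u (σ u w) = σ u w := by
    intro u w
    obtain ⟨c, hc, h⟩ := hσ u w
    conv_lhs => rw [← h]
    exact hσc u w c hc
  have hσp : ∀ u, σ u (par u) = par u := by
    intro u
    simp only [σ, s, if_true]
  -- the elements which map to the representatives
  have hk : ∀ u w, ∃ c ∈ I u, c • w = σ u w ∧ (σ u w = w → c = 1) := by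
    intro u w
    by_cases h : σ u w = w
    · exact ⟨1, (I u).one_mem, by rw [one_smul, h], fun _ => rfl⟩
    · obtain ⟨c, hc, h1⟩ := hσ u w
      exact ⟨c, hc, h1, fun h2 => absurd h2 h⟩
  choose k hkI hks hk1 using hk
  obtain ⟨n, hn0, hnr⟩ := exists_rec v₀ par d (fun y hy => (hpar y hy).2)
    (fun p y g => k (g • p) (g • y) * g) (1 : G)
  -- the representatives
  have L1 : ∀ w, SS v₀ par σ w → n w = 1 := by
    intro w hw
    induction hw with
    | root => exact hn0
    | step w hw _ h2 ih =>
      rw [hnr w hw, ih, one_smul, one_smul, mul_one]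
      exact hk1 _ _ h2
  have L2 : ∀ u w, SS v₀ par σ u → X.Adj u w → SS v₀ par σ (σ u w) := by
    intro u w hu huw
    obtain ⟨c, hc, h⟩ := hσ u w
    have h1 : X.Adj u (σ u w) := by
      have h2 := hX.adj c u w huw
      rwa [hI.fix u c hc, h] at h2
    rcases hedge _ _ h1 with ⟨h2, h3⟩ | ⟨h2, h3⟩
    · refine SS.step _ h2 ?_ ?_
      · rw [← h3]
        exact hu
      · rw [← h3]
        exact hσσ u w
    · rw [h3]
      exact (SS_inv hu h2).1
  have L3 : ∀ j y, d y ≤ j → SS v₀ par σ (n y • y) := by
    intro j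
    induction j with
    | zero =>
      intro y hy
      by_cases h : y = v₀
      · rw [h, hn0, one_smul]
        exact SS.root
      · have h1 := (hpar y h).2
        omega
    | succ j ih =>
      intro y hy
      by_cases h : y = v₀
      · rw [h, hn0, one_smul]
        exact SS.root
      · obtain ⟨h1, h2⟩ := hpar y h
        have h3 := ih (par y) (by omega)
        have h4 := L2 _ _ h3 (hX.adj (n (par y)) _ _ h1)
        rw [hnr y h, mul_smul, hks]
        exact h4
  have L3' : ∀ y, SS v₀ par σ (n y • y) := fun y => L3 _ y le_rfl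
  have L4 : ∀ u w, SS v₀ par σ u → SS v₀ par σ w → X.Adj u w → σ u w = w := by
    intro u w hu hw huw
    rcases hedge _ _ huw with ⟨h2, h3⟩ | ⟨h2, h3⟩
    · rw [h3]
      exact (SS_inv hw h2).2
    · rw [h3]
      exact hσp u
  refine ⟨n, ⟨fun y => L1 _ (L3' y), ?_, ?_⟩⟩
  · intro x y z hxy hxz c hc h
    have h1 := L4 _ _ (L3' x) (L3' y) hxy
    have h2 := L4 _ _ (L3' x) (L3' z) hxz
    rw [← h1, ← h2, ← h, hσc _ _ c hc]
  · intro x y hxy
    rcases hedge _ _ hxy with ⟨h2, h3⟩ | ⟨h2, h3⟩
    · left
      rw [hnr y h2, ← h3, mul_inv_cancel_right]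
      exact hkI _ _
    · right
      have h4 : n y * (n x)⁻¹ = (n x * (n y)⁻¹)⁻¹ := by group
      rw [h4]
      refine (I _).inv_mem ?_
      rw [hnr x h2, ← h3, mul_inv_cancel_right]
      exact hkI _ _

end Pool.Agent.H50.GN
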