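import Pool.Agent.H50.GN.Quo

/-!
# [GN5] Stabilisers in the quotient

Proof. `vert`: the map `c ↦ mk c`; if `mk g` fixes `orb x` then `g • x = n' • x` for some `n' ∈ NN I`, so `n'⁻¹ * g` fixes `x` and has the same
image. The kernel is `NN I ∩ stabilizer x`, which is `I x` by `inter`. `edge`: let `a, b` be adjacent orbits. There are adjacent `x, y` with
`orb x = a`, `orb y = b`; replace them by `n x • x`, `n y • y` (adjacent by `rho_adj`), so we may assume `n x = n y = 1` (`one`). Let `mk g` fix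
`a` and `b`; we may assume `g • x = x` (multiply by an element of `NN I`). Then `g • y` is a neighbour of `x` in the orbit of `y`, so
`n (g • y) • (g • y) = y` (`inv`), and by `adj` `n (g • y) = n (g • y) * (n x)⁻¹` is in `I x`, or in `I y` and then fixes `y`, so
`g • y = y`. In the first case `n (g • y) * g` fixes `x` and `y` and has the same image as `g`.
-/

set_option autoImplicit false

namespace Pool.Agent.H50.GN

open Pool.Agent.H98.FJ Pool.Agent.H93.TR

/-- an element whose image fixes the orbit of `x` can be changed to an element which fixes `x` -/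
private theorem lift_stab {G V : Type} [Group G] [MulAction G V] (N : Subgroup G) [N.Normal] (x : V) (q : G ⧸ N)
    (hq : q • orb N x = orb N x) : ∃ g : G, (QuotientGroup.mk g : G ⧸ N) = q ∧ g • x = x := by
  obtain ⟨g, rfl⟩ := QuotientGroup.mk_surjective q
  rw [mk_smul_orb, orb_eq_iff] at hq
  obtain ⟨m, hm, h⟩ := hq
  refine ⟨m⁻¹ * g, ?_, ?_⟩
  · rw [QuotientGroup.mk_mul, QuotientGroup.mk_inv, (QuotientGroup.eq_one_iff m).2 hm, inv_one, one_mul]
  · rw [mul_smul, ← h, inv_smul_smul]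

theorem vert {G V : Type} [Group G] [MulAction G V] {X : SimpleGraph V} (hX : OnTree G X)
    {I : V → Subgroup G} (hI : Sat X I) {n : V → G} (hn : Lft X I n) [(NN I).Normal] (x : V) :
    ∃ f : MulAction.stabilizer G x →* MulAction.stabilizer (G ⧸ NN I) (orb (NN I) x), Function.Surjective f ∧
      ∀ c, f c = 1 ↔ (c : G) ∈ I x := by
  refine ⟨{ toFun := fun c => ⟨QuotientGroup.mk (c : G), ?_⟩, map_one' := rfl, map_mul' := fun _ _ => rfl }, ?_, ?_⟩
  · rw [MulAction.mem_stabilizer_iff, mk_smul_orb, show (c : G) • x = x from c.2]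
  · rintro ⟨q, hq⟩
    obtain ⟨g, h1, h2⟩ := lift_stab (NN I) x q hq
    exact ⟨⟨g, h2⟩, Subtype.ext h1⟩
  · intro c
    constructor
    · intro h
      have h1 : (QuotientGroup.mk (c : G) : G ⧸ NN I) = 1 := congrArg Subtype.val h
      exact inter hX hI hn c ((QuotientGroup.eq_one_iff _).1 h1) x c.2
    · intro h
      exact Subtype.ext ((QuotientGroup.eq_one_iff _).2 (mem_NN h))

theorem edge {G V : Type} [Group G] [MulAction G V] {X : SimpleGraph V} (hX : OnTree G X)
    {I : V → Subgroup G} (hI : Sat X I) {n : V → G} (hn : Lft X I n) [(NN I).Normal] (a b : Orb (NN I) V)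
    (hab : (qg X (NN I)).Adj a b) : ∃ x y : V, X.Adj x y ∧
      ∃ f : (MulAction.stabilizer G x ⊓ MulAction.stabilizer G y : Subgroup G) →*
        (MulAction.stabilizer (G ⧸ NN I) a ⊓ MulAction.stabilizer (G ⧸ NN I) b : Subgroup (G ⧸ NN I)),
        Function.Surjective f ∧ ∀ c, f c = 1 ↔ (c : G) ∈ I x := by
  obtain ⟨-, x₀, y₀, rfl, rfl, hxy₀⟩ := hab
  have horb : ∀ z : V, orb (NN I) (n z • z) = orb (NN I) z := by
    intro z
    have h1 : (QuotientGroup.mk (n z) : G ⧸ NN I) = 1 := (QuotientGroup.eq_one_iff _).2 (n_mem hX hI hn z)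
    rw [← mk_smul_orb, h1, one_smul]
  obtain ⟨x, hx⟩ : ∃ x, x = n x₀ • x₀ := ⟨_, rfl⟩
  obtain ⟨y, hy⟩ : ∃ y, y = n y₀ • y₀ := ⟨_, rfl⟩
  have hnx : n x = 1 := by rw [hx]; exact hn.one x₀
  have hny : n y = 1 := by rw [hy]; exact hn.one y₀
  have hadj : X.Adj x y := by
    rw [hx, hy]
    exact rho_adj hX hI hn x₀ y₀ hxy₀
  rw [← horb x₀, ← horb y₀, ← hx, ← hy]
  refine ⟨x, y, hadj, { toFun := fun c => ⟨QuotientGroup.mk (c : G), ?_, ?_⟩, map_one' := rfl, map_mul' := fun _ _ => rfl }, ?_, ?_⟩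
  · show (QuotientGroup.mk (c : G) : G ⧸ NN I) • orb (NN I) x = _
    rw [mk_smul_orb, show (c : G) • x = x from c.2.1]
  · show (QuotientGroup.mk (c : G) : G ⧸ NN I) • orb (NN I) y = _
    rw [mk_smul_orb, show (c : G) • y = y from c.2.2]
  · rintro ⟨q, hqx, hqy⟩
    obtain ⟨g, rfl, hgx⟩ := lift_stab (NN I) x q hqx
    obtain ⟨g', hg', hgy'⟩ := lift_stab (NN I) y _ hqy
    -- `g' = m' * g` with `m'` in `NN I`
    obtain ⟨m, hm, hgm⟩ : ∃ m ∈ NN I, g • y = m • y := by
      refine ⟨g * g'⁻¹, ?_, ?_⟩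
      · rw [← QuotientGroup.eq_one_iff, QuotientGroup.mk_mul, QuotientGroup.mk_inv, hg', mul_inv_cancel]
      · rw [mul_smul, inv_smul_eq_iff.2 hgy'.symm]
    have h1 := (inv hX hI hn m hm y).1
    rw [hny, one_smul, ← hgm] at h1
    have h2 : X.Adj x (g • y) := by
      have h3 := hX.adj g x y hadj
      rwa [hgx] at h3
    have h3 := hn.adj x (g • y) h2
    rw [hnx, inv_one, mul_one, one_smul, h1] at h3
    rcases h3 with h3 | h3
    · refine ⟨⟨n (g • y) * g, ?_, ?_⟩, ?_⟩
      · show (n (g • y) * g) • x = x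
        rw [mul_smul, hgx, hI.fix _ _ h3]
      · show (n (g • y) * g) • y = y
        rw [mul_smul, h1]
      · apply Subtype.ext
        show (QuotientGroup.mk (n (g • y) * g) : G ⧸ NN I) = QuotientGroup.mk g
        rw [QuotientGroup.mk_mul, (QuotientGroup.eq_one_iff _).2 (mem_NN h3), one_mul]
    · have h4 : g • y = y := by
        have h5 : (n (g • y))⁻¹ • y = y := by
          rw [inv_smul_eq_iff, hI.fix _ _ h3]
        calc g • y = (n (g • y))⁻¹ • (n (g • y) • (g • y)) := by rw [inv_smul_smul]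
          _ = y := by rw [h1, h5]
      exact ⟨⟨g, hgx, h4⟩, rfl⟩
  · intro c
    constructor
    · intro h
      have h1 : (QuotientGroup.mk (c : G) : G ⧸ NN I) = 1 := congrArg Subtype.val h
      exact inter hX hI hn c ((QuotientGroup.eq_one_iff _).1 h1) x c.2.1
    · intro h
      exact Subtype.ext ((QuotientGroup.eq_one_iff _).2 (mem_NN h))

end Pool.Agent.H50.GN
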