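import Pool.Agent.H50.GN.Defs
import Mathlib.GroupTheory.Commensurable

/-!
# [GN11] The center of a torsion-free nilpotent group

Proof. Let `B` be torsion-free and nilpotent. (1) `Commute (x ^ k) y` implies `Commute x y` (`k ≠ 0`, `x, y ∈ B`): induction over `i` for `y` in
the `i`-th term of the upper central series: `z = ⁅x, y⁆` is in the term before; `x ^ k` commutes with `z` (with `x` and `y`), so `x` commutes
with `z` by induction, so `⁅x ^ k, y⁆ = z ^ k = 1`, so `z = 1`. (2) So for `B'` of finite index in `B` the center of `B'` is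
`center B ∩ B'`. (3) If `g` commensurates `B` then with `B' = B ∩ g B g⁻¹` (finite index in both) `center B' = center B ∩ B' = g (center B) g⁻¹ ∩ B'`
has finite index in `center B` and in `g (center B) g⁻¹`. (4) The center of a nontrivial nilpotent group is nontrivial, so infinite
if it is torsion-free.
-/

set_option autoImplicit false

namespace Pool.Agent.H50.GN

open Pool.Agent.H98.FJ Pool.Agent.H93.TR
open Subgroup.Commensurable (commensurator)
open scoped Pointwise

theorem nil_root {G : Type} [Group G] (hn : Group.IsNilpotent G) (htf : ∀ (x : G) (k : ℕ), k ≠ 0 → x ^ k = 1 → x = 1)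
    (x y : G) (k : ℕ) (hk : k ≠ 0) (h : Commute (x ^ k) y) : Commute x y := by
  obtain ⟨n, hn'⟩ := hn.nilpotent'
  have key : ∀ i : ℕ, ∀ z ∈ Subgroup.upperCentralSeries G i, Commute (x ^ k) z → Commute x z := by
    intro i
    induction i with
    | zero =>
      intro z hz _
      rw [Subgroup.upperCentralSeries_zero, Subgroup.mem_bot] at hz
      rw [hz]
      exact Commute.one_right x
    | succ i ih =>
      intro z hz hxz
      rw [Subgroup.mem_upperCentralSeries_succ_iff] at hz
      have h1 := hz x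
      have h2 : Commute (x ^ k) (z * x * z⁻¹ * x⁻¹) := by
        have h3 : Commute (x ^ k) x := Commute.pow_self x k
        exact ((hxz.mul_right h3).mul_right hxz.inv_right).mul_right h3.inv_right
      have h3 := ih _ h1 h2
      have h4 : (z * x * z⁻¹) ^ k = z * x ^ k * z⁻¹ := conj_pow
      have h5 : z * x ^ k * z⁻¹ = x ^ k := by
        rw [← hxz.eq, mul_assoc, mul_inv_cancel, mul_one]
      have h6 : z * x * z⁻¹ = (z * x * z⁻¹ * x⁻¹) * x := by group
      have h7 : ((z * x * z⁻¹ * x⁻¹) * x) ^ k = (z * x * z⁻¹ * x⁻¹) ^ k * x ^ k :=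
        h3.symm.mul_pow k
      rw [h5, h6, h7] at h4
      have h8 : (z * x * z⁻¹ * x⁻¹) ^ k = 1 := by
        have := mul_right_cancel (b := x ^ k) (a := (z * x * z⁻¹ * x⁻¹) ^ k) (c := 1)
          (by rw [one_mul]; exact h4)
        exact this
      have h9 := htf _ k hk h8
      show x * z = z * x
      rw [mul_inv_eq_one, mul_inv_eq_iff_eq_mul] at h9
      exact h9.symm
  exact key n y (by rw [hn']; exact Subgroup.mem_top y) h

/-- the center of `B` as a subgroup of `G` -/
private def ZZ {G : Type} [Group G] (B : Subgroup G) : Subgroup G := (Subgroup.center B).map B.subtype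

private theorem mem_ZZ {G : Type} [Group G] (B : Subgroup G) (z : G) :
    z ∈ ZZ B ↔ z ∈ B ∧ ∀ c ∈ B, Commute c z := by
  unfold ZZ
  rw [Subgroup.mem_map]
  constructor
  · rintro ⟨⟨w, hw⟩, hc, rfl⟩
    refine ⟨hw, fun c hcB => ?_⟩
    rw [Subgroup.mem_center_iff] at hc
    have := hc ⟨c, hcB⟩
    exact congrArg Subtype.val this
  · rintro ⟨hz, h⟩
    refine ⟨⟨z, hz⟩, ?_, rfl⟩
    rw [Subgroup.mem_center_iff]
    rintro ⟨c, hc⟩
    exact Subtype.ext (h c hc)

private theorem rel_ZZ {G : Type} [Group G] (A B : Subgroup G)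
    (hroot : ∀ x ∈ B, ∀ y ∈ B, ∀ k : ℕ, k ≠ 0 → Commute (x ^ k) y → Commute x y)
    (hAB : A.relIndex B ≠ 0) (hBA : B.relIndex A ≠ 0) : (ZZ B).relIndex (ZZ A) ≠ 0 := by
  have hle : ZZ A ≤ A := fun z hz => ((mem_ZZ A z).1 hz).1
  have h1 : B.relIndex (ZZ A) ≠ 0 := fun h =>
    hBA (Subgroup.relIndex_eq_zero_of_le_right hle h)
  have h2 : B ⊓ ZZ A ≤ ZZ B := by
    rintro z ⟨hzB, hzA⟩
    rw [mem_ZZ]
    refine ⟨hzB, fun c hc => ?_⟩
    obtain ⟨k, hk, -, hck⟩ := Subgroup.exists_pow_mem_of_relIndex_ne_zero hAB hc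
    have h3 : Commute (c ^ k) z := ((mem_ZZ A z).1 hzA).2 _ hck.1
    exact hroot c hc z hzB k (Nat.pos_iff_ne_zero.1 hk) h3
  rw [← Subgroup.inf_relIndex_right] at h1
  exact fun h => h1 (Subgroup.relIndex_eq_zero_of_le_left h2 h)

private theorem ZZ_conj {G : Type} [Group G] (B : Subgroup G) (g : G) :
    ZZ (ConjAct.toConjAct g • B) = ConjAct.toConjAct g • ZZ B := by
  ext z
  rw [mem_ZZ, Subgroup.mem_pointwise_smul_iff_inv_smul_mem,
    Subgroup.mem_pointwise_smul_iff_inv_smul_mem, mem_ZZ]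
  refine and_congr Iff.rfl ⟨fun h c hc => ?_, fun h c hc => ?_⟩
  · have h1 := h (ConjAct.toConjAct g • c) (by
      rw [Subgroup.mem_pointwise_smul_iff_inv_smul_mem, inv_smul_smul]
      exact hc)
    have h2 : (ConjAct.toConjAct g)⁻¹ • ((ConjAct.toConjAct g • c) * z) =
        (ConjAct.toConjAct g)⁻¹ • (z * (ConjAct.toConjAct g • c)) := congrArg _ h1.eq
    rw [smul_mul', smul_mul', inv_smul_smul] at h2
    exact h2
  · rw [Subgroup.mem_pointwise_smul_iff_inv_smul_mem] at hc
    have h1 := h _ hc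
    have h2 : (ConjAct.toConjAct g) • (((ConjAct.toConjAct g)⁻¹ • c) *
        ((ConjAct.toConjAct g)⁻¹ • z)) = (ConjAct.toConjAct g) •
        (((ConjAct.toConjAct g)⁻¹ • z) * ((ConjAct.toConjAct g)⁻¹ • c)) := congrArg _ h1.eq
    rw [smul_mul', smul_mul', smul_inv_smul, smul_inv_smul] at h2
    exact h2

theorem comm_center {G : Type} [Group G] (B : Subgroup G) (hn : Group.IsNilpotent B)
    (htf : ∀ (x : B) (k : ℕ), k ≠ 0 → x ^ k = 1 → x = 1) :
    commensurator B ≤ commensurator ((Subgroup.center B).map B.subtype) := by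
  intro g hg
  rw [Subgroup.Commensurable.commensurator_mem_iff] at hg ⊢
  have hroot : ∀ x ∈ B, ∀ y ∈ B, ∀ k : ℕ, k ≠ 0 → Commute (x ^ k) y → Commute x y := by
    intro x hx y hy k hk h
    have h1 := nil_root hn htf ⟨x, hx⟩ ⟨y, hy⟩ k hk (Subtype.ext h)
    exact congrArg Subtype.val h1
  have hroot' : ∀ x ∈ ConjAct.toConjAct g • B, ∀ y ∈ ConjAct.toConjAct g • B, ∀ k : ℕ,
      k ≠ 0 → Commute (x ^ k) y → Commute x y := by
    intro x hx y hy k hk h
    rw [Subgroup.mem_pointwise_smul_iff_inv_smul_mem] at hx hy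
    have h1 := hroot _ hx _ hy k hk (by
      show ((ConjAct.toConjAct g)⁻¹ • x) ^ k * ((ConjAct.toConjAct g)⁻¹ • y) =
        ((ConjAct.toConjAct g)⁻¹ • y) * ((ConjAct.toConjAct g)⁻¹ • x) ^ k
      rw [← smul_pow', ← smul_mul', ← smul_mul', h.eq])
    have h2 : (ConjAct.toConjAct g) • (((ConjAct.toConjAct g)⁻¹ • x) *
        ((ConjAct.toConjAct g)⁻¹ • y)) = (ConjAct.toConjAct g) •
        (((ConjAct.toConjAct g)⁻¹ • y) * ((ConjAct.toConjAct g)⁻¹ • x)) := congrArg _ h1.eq
    rw [smul_mul', smul_mul', smul_inv_smul, smul_inv_smul] at h2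
    exact h2
  have e : ((Subgroup.center B).map B.subtype) = ZZ B := rfl
  rw [e, ← ZZ_conj]
  exact ⟨rel_ZZ B (ConjAct.toConjAct g • B) hroot' hg.2 hg.1,
    rel_ZZ (ConjAct.toConjAct g • B) B hroot hg.1 hg.2⟩

private theorem center_ne_bot {G : Type} [Group G] (hn : Group.IsNilpotent G) {x : G} (hx : x ≠ 1) :
    ∃ z ∈ Subgroup.center G, z ≠ 1 := by
  by_contra hcon
  push Not at hcon
  obtain ⟨n, hn'⟩ := hn.nilpotent'
  have key : ∀ i : ℕ, ∀ z ∈ Subgroup.upperCentralSeries G i, z = 1 := by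
    intro i
    induction i with
    | zero =>
      intro z hz
      rw [Subgroup.upperCentralSeries_zero, Subgroup.mem_bot] at hz
      exact hz
    | succ i ih =>
      intro z hz
      rw [Subgroup.mem_upperCentralSeries_succ_iff] at hz
      refine hcon z ?_
      rw [Subgroup.mem_center_iff]
      intro c
      have h1 := ih _ (hz c)
      rw [commutatorElement_eq_one_iff_commute] at h1
      exact h1.eq.symm
  exact hx (key n x (by rw [hn']; exact Subgroup.mem_top x))

theorem center_inf {G : Type} [Group G] (B : Subgroup G) (hn : Group.IsNilpotent B)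
    (htf : ∀ (x : B) (k : ℕ), k ≠ 0 → x ^ k = 1 → x = 1) (hB : (B : Set G).Infinite) :
    (((Subgroup.center B).map B.subtype : Subgroup G) : Set G).Infinite := by
  obtain ⟨x, hx, hx1⟩ := (hB.sdiff (Set.finite_singleton (1 : G))).nonempty
  have hx2 : (⟨x, hx⟩ : B) ≠ 1 := fun h => hx1 (congrArg Subtype.val h)
  obtain ⟨z, hz, hz1⟩ := center_ne_bot hn hx2
  have hinj : Function.Injective fun n : ℕ => ((z : G)) ^ n := by
    have h0 : ∀ m d : ℕ, (z : G) ^ m = (z : G) ^ (m + d) → d = 0 := by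
      intro m d h
      by_contra hd
      rw [pow_add] at h
      have h1 : (z : G) ^ d = 1 := by
        have := mul_left_cancel (a := (z : G) ^ m) (b := 1) (c := (z : G) ^ d)
          (by rw [mul_one]; exact h)
        exact this.symm
      exact hz1 (htf z d hd (Subtype.ext h1))
    intro m n h
    rcases le_total m n with hmn | hmn
    · obtain ⟨d, rfl⟩ := Nat.exists_eq_add_of_le hmn
      rw [h0 m d h, add_zero]
    · obtain ⟨d, rfl⟩ := Nat.exists_eq_add_of_le hmn
      rw [h0 n d h.symm, add_zero]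
  refine Set.infinite_of_injective_forall_mem hinj fun n => ?_
  exact Subgroup.pow_mem _ (Subgroup.mem_map_of_mem B.subtype hz) n

end Pool.Agent.H50.GN
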