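import Pool.Agent.H50.GN.Defs

/-!
# [GN7] Chains of subgroups of infinite index

`inj`: images of subgroups, `Subgroup.relIndex_map_map_of_injective` or similar. `quot`: if `B i` is an increasing sequence in `Q`
take `⊥, f⁻¹ (B 0), f⁻¹ (B 1), ..` in `G`; the first step has infinite index since `f⁻¹ (B 0)` contains the infinite kernel; the other
relative indices are the same (`f` is surjective). `fg`: induction over the length of a central series with cyclic factors: if `N` is
normal in `G`, `IC a N`, `IC b (G ⧸ N)` then `IC (a + b) G`, since `(B i).relIndex (B (i + 1)) ≠ 0` if the relative indices of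
`B i ∩ N` in `B (i + 1) ∩ N` and of the images are not `0`; the number of steps in which one of them is `0` is at most `a + b` (count: if
`a + b + 1` steps are infinite then `a + 1` of them are infinite in `N` or `b + 1` in the quotient; omit the other steps from the
sequence). Cyclic groups: `IC 1`; finite groups: `IC 0`. A finitely generated nilpotent group has such a series (for instance
induction over the nilpotency class: the center of a finitely generated nilpotent group is finitely generated; or the lower
central factors; or `H63/RK`: `RF`, `Nil`).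
-/

set_option autoImplicit false

namespace Pool.Agent.H50.GN

open Pool.Agent.H98.FJ Pool.Agent.H93.TR

theorem IC.inj {n : ℕ} {G H : Type} [Group G] [Group H] (f : G →* H) (hf : Function.Injective f) (h : IC n H) : IC n G := by
  intro B hB
  obtain ⟨i, hi, h1⟩ := h (fun i => (B i).map f) (fun i => Subgroup.map_mono (hB i))
  refine ⟨i, hi, ?_⟩
  rwa [Subgroup.relIndex_map_map_of_injective _ _ hf] at h1

theorem IC.quot {n : ℕ} {G Q : Type} [Group G] [Group Q] (f : G →* Q) (hf : Function.Surjective f)
    (hk : (f.ker : Set G).Infinite) (h : IC (n + 1) G) : IC n Q := by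
  intro B hB
  obtain ⟨i, hi, h1⟩ := h (fun i => Nat.casesOn i (⊥ : Subgroup G) (fun j => (B j).comap f)) (by
    intro i
    cases i with
    | zero => exact bot_le
    | succ j => exact Subgroup.comap_mono (hB j))
  cases i with
  | zero =>
    exfalso
    have h2 : (⊥ : Subgroup G).relIndex ((B 0).comap f) ≠ 0 := h1
    rw [Subgroup.relIndex_bot_left] at h2
    have h3 : Finite ((B 0).comap f) := Nat.finite_of_card_ne_zero h2
    have h4 : ((B 0).comap f : Set G).Finite := Set.toFinite _
    refine hk (h4.subset ?_)
    intro x hx
    have hx1 : f x = 1 := hx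
    show f x ∈ B 0
    rw [hx1]
    exact one_mem _
  | succ j =>
    refine ⟨j, by omega, ?_⟩
    have h2 : ((B j).comap f).relIndex ((B (j + 1)).comap f) ≠ 0 := h1
    rw [Subgroup.relIndex_comap, Subgroup.map_comap_eq_self_of_surjective hf] at h2
    exact h2

theorem IC.mono {m n : ℕ} (hmn : m ≤ n) {G : Type} [Group G] (h : IC m G) : IC n G := by
  intro B hB
  obtain ⟨i, hi, h1⟩ := h B hB
  exact ⟨i, hi.trans hmn, h1⟩

/-- a group with the property `IC 0` is finite -/
theorem IC.fin {G : Type} [Group G] (h : IC 0 G) : Finite G := by
  obtain ⟨i, hi, h1⟩ := h (fun i => Nat.casesOn i (⊥ : Subgroup G) (fun _ => ⊤)) (by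
    intro i
    cases i with
    | zero => exact bot_le
    | succ j => exact le_refl _)
  obtain rfl : i = 0 := by omega
  have h2 : (⊥ : Subgroup G).relIndex ⊤ ≠ 0 := h1
  rw [Subgroup.relIndex_top_right, Subgroup.index_bot] at h2
  exact Nat.finite_of_card_ne_zero h2

end Pool.Agent.H50.GN
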