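import Pool.Agent.H50.GN.Chain
import Pool.Agent.H63.RK.RFA
import Pool.Agent.H63.RK.FGZ

/-!
# [GN8] Finitely generated nilpotent groups

See `Chain.lean`. (helper73)
-/

set_option autoImplicit false

namespace Pool.Agent.H50.GN

open Pool.Agent.H98.FJ Pool.Agent.H93.TR

private theorem ri_iff {G : Type} [Group G] (H K : Subgroup G) :
    H.relIndex K ≠ 0 ↔ ∃ T : Set G, T.Finite ∧ ∀ x ∈ K, ∃ t ∈ T, t⁻¹ * x ∈ H := by
  constructor
  · intro h
    have hf : Finite (K ⧸ H.subgroupOf K) := Nat.finite_of_card_ne_zero h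
    refine ⟨Set.range (fun q : K ⧸ H.subgroupOf K => ((q.out : K) : G)), Set.finite_range _, ?_⟩
    intro x hx
    refine ⟨_, ⟨((⟨x, hx⟩ : K) : K ⧸ H.subgroupOf K), rfl⟩, ?_⟩
    have h1 : (((⟨x, hx⟩ : K) : K ⧸ H.subgroupOf K).out : K ⧸ H.subgroupOf K) =
        ((⟨x, hx⟩ : K) : K ⧸ H.subgroupOf K) := QuotientGroup.out_eq' _
    have h2 := QuotientGroup.eq.mp h1
    exact h2
  · rintro ⟨T, hT, hT1⟩
    have hfin : Finite T := hT
    choose! f hf1 hf2 using hT1
    have h1 : Finite (K ⧸ H.subgroupOf K) := by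
      refine Finite.of_injective (β := T) (fun q => ⟨f ((q.out : K) : G), hf1 _ (q.out : K).2⟩) ?_
      intro q q' hq
      have h2 : f ((q.out : K) : G) = f ((q'.out : K) : G) := congrArg Subtype.val hq
      have h3 := hf2 _ (q.out : K).2
      have h4 := hf2 _ (q'.out : K).2
      rw [h2] at h3
      have h5 := H.mul_mem (H.inv_mem h3) h4
      rw [mul_inv_rev, inv_inv, mul_assoc, mul_inv_cancel_left] at h5
      have h6 : ((q.out : K) : K ⧸ H.subgroupOf K) = ((q'.out : K) : K ⧸ H.subgroupOf K) :=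
        QuotientGroup.eq.mpr h5
      rwa [QuotientGroup.out_eq', QuotientGroup.out_eq'] at h6
    show Nat.card (K ⧸ H.subgroupOf K) ≠ 0
    exact Nat.card_pos.ne'

private theorem ri_ext {G : Type} [Group G] (N : Subgroup G) [N.Normal] (H K : Subgroup G)
    (hHK : H ≤ K)
    (h1 : (H.subgroupOf N).relIndex (K.subgroupOf N) ≠ 0)
    (h2 : (H.map (QuotientGroup.mk' N)).relIndex (K.map (QuotientGroup.mk' N)) ≠ 0) :
    H.relIndex K ≠ 0 := by
  obtain ⟨T1, hT1, h1'⟩ := (ri_iff _ _).1 h1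
  obtain ⟨T2, hT2, h2'⟩ := (ri_iff _ _).1 h2
  classical
  -- representatives in `K`
  have hex : ∀ t : G ⧸ N, ∃ y : G, (∃ x ∈ K, t⁻¹ * QuotientGroup.mk' N x ∈ H.map (QuotientGroup.mk' N)) →
      y ∈ K ∧ t⁻¹ * QuotientGroup.mk' N y ∈ H.map (QuotientGroup.mk' N) := by
    intro t
    by_cases h : ∃ x ∈ K, t⁻¹ * QuotientGroup.mk' N x ∈ H.map (QuotientGroup.mk' N)
    · obtain ⟨x, hx, hx2⟩ := h
      exact ⟨x, fun _ => ⟨hx, hx2⟩⟩
    · exact ⟨1, fun h' => absurd h' h⟩
  choose y hy using hex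
  refine (ri_iff _ _).2 ⟨Set.image2 (fun (t : G ⧸ N) (s : N) => y t * (s : G)) T2 T1, hT2.image2 _ hT1, ?_⟩
  intro x hx
  obtain ⟨t, ht, ht1⟩ := h2' _ ⟨x, hx, rfl⟩
  obtain ⟨hyK, hy2⟩ := hy t ⟨x, hx, ht1⟩
  -- y⁻¹ x ∈ H N
  have h3 : (QuotientGroup.mk' N ((y t)⁻¹ * x)) ∈ H.map (QuotientGroup.mk' N) := by
    have h4 := Subgroup.mul_mem _ (Subgroup.inv_mem _ hy2) ht1
    rw [mul_inv_rev, inv_inv, mul_assoc, mul_inv_cancel_left] at h4
    rwa [map_mul, map_inv]
  obtain ⟨h, hh, hh2⟩ := h3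
  have h5 : (y t)⁻¹ * x * h⁻¹ ∈ N := by
    have h6 : QuotientGroup.mk' N ((y t)⁻¹ * x * h⁻¹) = 1 := by
      rw [map_mul, map_inv, ← hh2, mul_inv_cancel]
    exact (QuotientGroup.eq_one_iff _).1 h6
  have h6 : (y t)⁻¹ * x * h⁻¹ ∈ K :=
    K.mul_mem (K.mul_mem (K.inv_mem hyK) hx) (K.inv_mem (hHK hh))
  obtain ⟨s, hs, hs2⟩ := h1' ⟨(y t)⁻¹ * x * h⁻¹, h5⟩ h6
  refine ⟨_, ⟨t, ht, s, hs, rfl⟩, ?_⟩
  have h7 : (s : G)⁻¹ * ((y t)⁻¹ * x * h⁻¹) ∈ H := hs2
  have h8 := H.mul_mem h7 hh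
  have h9 : (s : G)⁻¹ * ((y t)⁻¹ * x * h⁻¹) * h = (y t * (s : G))⁻¹ * x := by group
  rwa [h9] at h8

/-- the number of infinite steps is at most `n` -/
private theorem ic_card {n : ℕ} {G : Type} [Group G] (h : IC n G) (B : ℕ → Subgroup G)
    (hB : ∀ i, B i ≤ B (i + 1)) (s : Finset ℕ) (hs : ∀ i ∈ s, (B i).relIndex (B (i + 1)) = 0) :
    s.card ≤ n := by
  by_contra hc
  have hmono : Monotone B := monotone_nat_of_le_succ hB
  obtain ⟨s', hs', hcard⟩ := Finset.exists_subset_card_eq (show n + 1 ≤ s.card by omega)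
  let e := s'.orderEmbOfFin hcard
  let C : ℕ → Subgroup G := fun j => if hj : j < n + 1 then B (e ⟨j, hj⟩) else B (e ⟨n, by omega⟩ + 1)
  have hC : ∀ j, C j ≤ C (j + 1) := by
    intro j
    by_cases h1 : j + 1 < n + 1
    · have h2 : j < n + 1 := by omega
      simp only [C, dif_pos h1, dif_pos h2]
      apply hmono
      apply e.monotone
      exact Fin.mk_le_mk.2 (by omega)
    · by_cases h2 : j < n + 1
      · simp only [C, dif_neg h1, dif_pos h2]
        apply hmono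
        have h3 : (e ⟨j, h2⟩ : ℕ) ≤ e ⟨n, by omega⟩ := e.monotone (Fin.mk_le_mk.2 (by omega))
        omega
      · simp only [C, dif_neg h1, dif_neg h2]
        exact le_rfl
  obtain ⟨i, hi, hi2⟩ := h C hC
  have h2 : i < n + 1 := by omega
  have hmem : e ⟨i, h2⟩ ∈ s' := Finset.orderEmbOfFin_mem s' hcard _
  have h0 := hs _ (hs' hmem)
  apply hi2
  have h3 : B (e ⟨i, h2⟩ + 1) ≤ C (i + 1) := by
    by_cases h1 : i + 1 < n + 1
    · simp only [C, dif_pos h1]
      apply hmono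
      have h4 : (e ⟨i, h2⟩ : ℕ) < e ⟨i + 1, h1⟩ := e.strictMono (Fin.mk_lt_mk.2 (by omega))
      omega
    · simp only [C, dif_neg h1]
      apply hmono
      have h4 : (⟨i, h2⟩ : Fin (n + 1)) = ⟨n, by omega⟩ := Fin.ext (by show i = n; omega)
      rw [h4]
  have h4 : C i = B (e ⟨i, h2⟩) := by simp only [C, dif_pos h2]
  rw [h4]
  exact Subgroup.relIndex_eq_zero_of_le_right h3 h0

private theorem ic_ext {a b : ℕ} {G : Type} [Group G] (N : Subgroup G) [N.Normal] (ha : IC a N)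
    (hb : IC b (G ⧸ N)) : IC (a + b) G := by
  classical
  intro B hB
  by_contra hc
  push Not at hc
  let s := Finset.range (a + b + 1)
  let s1 := s.filter (fun i => ((B i).subgroupOf N).relIndex ((B (i + 1)).subgroupOf N) = 0)
  let s2 := s.filter (fun i => ((B i).map (QuotientGroup.mk' N)).relIndex
    ((B (i + 1)).map (QuotientGroup.mk' N)) = 0)
  have h1 : s1.card ≤ a := ic_card ha (fun i => (B i).subgroupOf N)
    (fun i => Subgroup.comap_mono (hB i)) s1 (fun i hi => (Finset.mem_filter.1 hi).2)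
  have h2 : s2.card ≤ b := ic_card hb (fun i => (B i).map (QuotientGroup.mk' N))
    (fun i => Subgroup.map_mono (hB i)) s2 (fun i hi => (Finset.mem_filter.1 hi).2)
  have h3 : s ⊆ s1 ∪ s2 := by
    intro i hi
    rw [Finset.mem_union, Finset.mem_filter, Finset.mem_filter]
    by_contra h4
    push Not at h4
    have hi' : i ≤ a + b := by
      have := Finset.mem_range.1 hi
      omega
    exact ri_ext N (B i) (B (i + 1)) (hB i) (h4.1 hi) (h4.2 hi) (hc i hi')
  have h4 := Finset.card_le_card h3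
  have h5 := Finset.card_union_le s1 s2
  have h6 : s.card = a + b + 1 := Finset.card_range _
  omega

private theorem ic_comm (A : Type) [CommGroup A] (hA : Group.FG A) : ∃ n, IC n A := by
  obtain ⟨k, r, hr1, hr2, hr3⟩ := Pool.Agent.H63.RK.rf_comm A hA
  refine ⟨k, ?_⟩
  intro B hB
  have hmono : Monotone B := monotone_nat_of_le_succ hB
  obtain ⟨i, hi, hi2⟩ : ∃ i, i ≤ k ∧ r (B i) = r (B (i + 1)) := by
    by_contra hc
    push Not at hc
    have h1 : ∀ j, j ≤ k + 1 → j ≤ r (B j) := by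
      intro j
      induction j with
      | zero => intro _; omega
      | succ j ih =>
        intro hj
        have h2 := ih (by omega)
        have h3 := hr1 _ _ (hB j)
        have h4 := hc j (by omega)
        omega
    have h2 := h1 (k + 1) le_rfl
    have h3 := hr1 (B (k + 1)) ⊤ le_top
    omega
  refine ⟨i, hi, ?_⟩
  have h3 := hr2 _ _ (hB i) hi2
  -- the quotient is a finitely generated torsion group
  have h0 : Module.Finite ℤ (Additive A) := Module.Finite.iff_addGroup_fg.2 (GroupFG.iff_add_fg.1 hA)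
  have h1 : IsNoetherian ℤ (Additive A) := isNoetherian_of_isNoetherianRing_of_finite ℤ (Additive A)
  have hfgs : Group.FG (B (i + 1)) := by
    rw [Group.fg_iff_subgroup_fg, Subgroup.fg_iff_add_fg]
    have h4 := h1.noetherian (AddSubgroup.toIntSubmodule (Subgroup.toAddSubgroup (B (i + 1))))
    rw [Submodule.fg_iff_addSubgroup_fg] at h4
    exact h4
  have hfgq : Group.FG (B (i + 1) ⧸ (B i).subgroupOf (B (i + 1))) := inferInstance
  have htor : IsMulTorsion (B (i + 1) ⧸ (B i).subgroupOf (B (i + 1))) := by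
    intro q
    obtain ⟨x, rfl⟩ := QuotientGroup.mk_surjective q
    obtain ⟨m, hm, hm2⟩ := h3 x.1 x.2
    rw [isOfFinOrder_iff_pow_eq_one]
    refine ⟨m, Nat.pos_of_ne_zero hm, ?_⟩
    rw [← QuotientGroup.mk_pow]
    exact (QuotientGroup.eq_one_iff _).2 hm2
  have hfin : Finite (B (i + 1) ⧸ (B i).subgroupOf (B (i + 1))) := by
    exact CommGroup.finite_of_fg_isMulTorsion _ htor
  show Nat.card (B (i + 1) ⧸ (B i).subgroupOf (B (i + 1))) ≠ 0
  exact Nat.card_pos.ne'

private theorem ic_aux (n : ℕ) : ∀ (H : Type) [Group H], Group.FG H →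
    (⊤ : Subgroup H).lowerCentralSeries n = ⊥ → ∃ k : ℕ, IC k H := by
  induction n with
  | zero =>
    intro H _ _ hn
    have htop : (⊤ : Subgroup H) = ⊥ := hn
    refine ⟨0, fun B hB => ⟨0, le_rfl, ?_⟩⟩
    have h1 : B 1 ≤ B 0 := by
      intro x _
      have : x ∈ (⊤ : Subgroup H) := trivial
      rw [htop, Subgroup.mem_bot] at this
      rw [this]
      exact one_mem _
    rw [Subgroup.relIndex_eq_one.2 h1]
    exact one_ne_zero
  | succ n ih =>
    intro H _ hfg hn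
    let Z : Subgroup H := (⊤ : Subgroup H).lowerCentralSeries n
    have hZn : Z.Normal := Subgroup.lowerCentralSeries_normal _ _
    have hZfg : Z.FG := Pool.Agent.H63.RK.fg_lcs hfg n hn
    have hcomm : ∀ z ∈ Z, ∀ g : H, z * g = g * z := by
      intro z hz g
      have h1 := Subgroup.commutator_mem_commutator hz (Subgroup.mem_top g)
      rw [← Subgroup.lowerCentralSeries_succ, hn, Subgroup.mem_bot] at h1
      exact commutatorElement_eq_one_iff_mul_comm.1 h1
    let _ : CommGroup Z := { (inferInstance : Group Z) with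
      mul_comm := fun a b => Subtype.ext (hcomm a.1 a.2 b.1) }
    obtain ⟨a, ha⟩ := ic_comm Z ((Group.fg_iff_subgroup_fg Z).2 hZfg)
    have hq : Group.FG (H ⧸ Z) := inferInstance
    obtain ⟨b, hb⟩ := ih (H ⧸ Z) hq (by
      have h1 := Subgroup.map_lowerCentralSeries (⊤ : Subgroup H) (QuotientGroup.mk' Z) n
      rw [Subgroup.map_top_of_surjective _ (QuotientGroup.mk'_surjective Z)] at h1
      rw [← h1]
      rw [Subgroup.map_eq_bot_iff, QuotientGroup.ker_mk'])
    exact ⟨a + b, ic_ext Z ha hb⟩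

theorem IC.fg {G : Type} [Group G] (hG : Group.FG G) (hn : Group.IsNilpotent G) : ∃ n, IC n G := by
  obtain ⟨n, hn⟩ := Subgroup.nilpotent_iff_lowerCentralSeries.1 hn
  exact ic_aux n G hG hn

end Pool.Agent.H50.GN
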