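import Pool.Agent.H50.GN.Defs

/-!
# [GN24] Groups whose subgroups commensurating a commutative subgroup are in a given class

`WM C W H`: `W H`, or `H` is torsion-free, in `C`, roots commute, and every subgroup `K` of `H` which contains a commutative subgroup
`A ≠ 1` such that the conjugates of the elements of `A` by elements of `K` have powers in `A` is in `W`. For instance torsion-free
hyperbolic groups, or torsion-free groups hyperbolic relative to groups in `W`.
-/

set_option autoImplicit false

namespace Pool.Agent.H50.GN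

open Pool.Agent.H98.FJ Pool.Agent.H93.TR

/-- the groups in `W`, and the torsion-free groups in `C` with commuting roots such that the subgroups which commensurate a commutative
subgroup `A ≠ 1` are in `W` -/
def WM (C W : (G : Type) → [Group G] → Prop) (H : Type) [Group H] : Prop :=
  W H ∨ (Pool.Agent.H63.RK.TF H ∧ C H ∧ (∀ (x y : H) (k : ℕ), k ≠ 0 → Commute (x ^ k) y → Commute x y) ∧
    ∀ K A : Subgroup H, A ≤ K → A ≠ ⊥ → Ab A → (∀ g ∈ K, ∀ a ∈ A, Pw A (g * a * g⁻¹)) → W K)

theorem cls_WM {C W : (G : Type) → [Group G] → Prop} (hC : Inherits C) (hW : Cls C W) : Cls C (WM C W) := by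
  have hinj : ∀ (G H : Type) [Group G] [Group H] (f : G →* H), Function.Injective f → WM C W H → WM C W G := by
    intro G H _ _ f hf h
    rcases h with h | ⟨h1, h2, h3, h4⟩
    · exact Or.inl (hW.inj G H f hf h)
    · refine Or.inr ⟨?_, hC.of_injective f hf h2, ?_, ?_⟩
      · intro x k hk hx
        exact hf (by rw [h1 (f x) k hk (by rw [← map_pow, hx, map_one]), map_one])
      · intro x y k hk hxy
        have h5 : Commute (f x ^ k) (f y) := by
          rw [← map_pow]
          exact hxy.map f
        have h6 : f x * f y = f y * f x := h3 _ _ k hk h5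
        exact hf (by rw [map_mul, map_mul, h6])
      · intro K A hAK hA1 hA hn
        have h5 : W (K.map f) := by
          refine h4 (K.map f) (A.map f) (Subgroup.map_mono hAK) ?_ ?_ ?_
          · intro h6
            exact hA1 ((Subgroup.map_eq_bot_iff_of_injective A hf).1 h6)
          · rintro _ ⟨a, ha, rfl⟩ _ ⟨b, hb, rfl⟩
            rw [← map_mul, ← map_mul, hA a ha b hb]
          · rintro _ ⟨g, hg, rfl⟩ _ ⟨a, ha, rfl⟩
            obtain ⟨k, hk, h6⟩ := hn g hg a ha
            refine ⟨k, hk, (g * a * g⁻¹) ^ k, h6, ?_⟩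
            rw [map_pow, map_mul, map_mul, map_inv]
        let e : K →* K.map f :=
          { toFun := fun x => ⟨f x.1, x.1, x.2, rfl⟩
            map_one' := Subtype.ext (map_one f)
            map_mul' := fun x y => Subtype.ext (map_mul f x.1 y.1) }
        refine hW.inj _ _ e ?_ h5
        intro x y hxy
        exact Subtype.ext (hf (congrArg (fun z : K.map f => (z : H)) hxy))
  refine ⟨?_, hinj, ?_, ?_, ?_⟩
  · rintro G _ (h | ⟨-, h, -⟩)
    · exact hW.mem G h
    · exact h
  · rintro G _ (h | ⟨h, -⟩)
    · exact hW.tf G h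
    · exact h
  · rintro G _ (h | ⟨-, -, h, -⟩)
    · exact hW.root G h
    · exact h
  · rintro G Q _ _ f h hf ⟨A, hA, hn, hA1⟩
    rcases h with h | h
    · exact Or.inl (hW.quot G Q f h hf ⟨A, hA, hn, hA1⟩)
    · obtain ⟨h1, h2, h3, h4⟩ := h
      by_cases hbot : A = ⊥
      · have hfi : Function.Injective f := by
          rw [injective_iff_map_eq_one]
          intro c hc
          obtain ⟨k, hk, h5⟩ := (hA1 c).1 hc
          rw [hbot, Subgroup.mem_bot] at h5
          exact h1 c k hk h5
        let e : G ≃* Q := MulEquiv.ofBijective f ⟨hfi, hf⟩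
        exact hinj Q G e.symm.toMonoidHom e.symm.injective (Or.inr ⟨h1, h2, h3, h4⟩)
      · have h5 : W (⊤ : Subgroup G) := h4 ⊤ A le_top hbot hA (fun g _ a ha => hn g a ha)
        have h6 : W G := hW.inj _ _ (Subgroup.topEquiv (G := G)).symm.toMonoidHom
          (Subgroup.topEquiv (G := G)).symm.injective h5
        exact Or.inl (hW.quot G Q f h6 hf ⟨A, hA, hn, hA1⟩)

end Pool.Agent.H50.GN
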