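import Pool.Agent.H50.GN.ClsQ
import Pool.Agent.H18.RG.Cls
import Pool.Agent.H63.RK.CasA

/-!
# [GN19] Subgroups of direct products of a group with the property `WQ` and a group with the property `RR` in the class

Proof. `mem`: `Inherits.pi` (index `Bool`) and `of_injective`. `inj`: composition. `tf`, `root`: in the coordinates (`(cls_WR hC).tf`, `.root`,
`(cls_WQ hC hS).tf`, `.root`). `quot`: let `φ : G →* R × N` be injective, `f : G →* Q`, `A` as in `Cls.quot`. Let `R' = φ₁.range` (`RR_inj`, in `C`),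
`A₁ = φ₁ A`. By `RR.cen` (`K = φ₁.range`) `A₁` is central in `R'`. For `1 ≠ x ∈ A₁` there is a homomorphism `b x : R' → ℚ` with `b x x ≠ 0` (`RR.hom`, the
centraliser of `x` is `R'`). Let `ev : R' →* Multiplicative (Λ → ℚ)` be the product of the `b x` (`Λ = {x ∈ A₁, x ≠ 1}`), `N' = Multiplicative (Λ → ℚ) × N`
(`WQ_prod`), `ψ = (ev ∘ φ₁, φ₂) : G →* N'`, `A₂ = ψ A ≤ ψ.range`. `I₁ = {c ∈ R' : Pw A₁ c}`, `I₂ = {c ∈ ψ.range : Pw A₂ c}` are
normal subgroups (commuting roots as in `exists_I` of `Env.lean`; conjugation by the hypothesis on `A`). `R'' = R' / I₁` has the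
property `WR C` and `N'' = ψ.range / I₂` the property `WQ` (`quot` of the two classes). The kernel of `G →* R'' × N''` is `{c : Pw A c}`: if `φ₁ c ∈ I₁` and
`ψ c ^ k = ψ a` with `a ∈ A`, `k ≠ 0`, then `y = φ₁ (c ^ k * a⁻¹) ∈ I₁`, `ev y = 1`; `y ^ m ∈ A₁` with `m ≠ 0`, `ev (y ^ m) = 1`, so `y ^ m = 1` (otherwise
`b (y ^ m) (y ^ m) ≠ 0`), so `y = 1`, `c ^ k = a`. So `Q` embeds in `R'' × N''` (the kernel of `f` is the same; `f` is onto).
-/

set_option autoImplicit false

namespace Pool.Agent.H50.GN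

open Pool.Agent.H98.FJ Pool.Agent.H93.TR Pool.Agent.H18.RG

/-- the subgroups of the products `R × N`, where `R` has the property `RR` and is in `C`, and `N` has the property `WQ` -/
def WP (C : (G : Type) → [Group G] → Prop) (G : Type) [Group G] : Prop :=
  ∃ (R N : Type) (_ : Group R) (_ : Group N) (φ : G →* R × N), Function.Injective φ ∧ WR C R ∧ WQ N

/-- the isolator of a commutative subgroup which is invariant up to powers -/
private theorem exists_isol {C W : (G : Type) → [Group G] → Prop} (hW : Cls C W) {G : Type} [Group G] (hG : W G)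
    {A : Subgroup G} (hA : Ab A) (hconj : ∀ (g : G), ∀ a ∈ A, Pw A (g * a * g⁻¹)) :
    ∃ I : Subgroup G, I.Normal ∧ ∀ c, c ∈ I ↔ Pw A c := by
  have root2 : ∀ {c d : G} {k m : ℕ}, k ≠ 0 → m ≠ 0 → c ^ k * d ^ m = d ^ m * c ^ k → c * d = d * c := by
    intro c d k m hk hm h
    have h2 : Commute c (d ^ m) := hW.root _ hG _ _ k hk h
    exact (hW.root _ hG _ _ m hm h2.symm).symm.eq
  let I : Subgroup G :=
    { carrier := {c | Pw A c}
      one_mem' := ⟨1, one_ne_zero, by rw [one_pow]; exact A.one_mem⟩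
      mul_mem' := by
        rintro c d ⟨k, hk, hck⟩ ⟨m, hm, hdm⟩
        have h := root2 hk hm (hA _ hck _ hdm)
        refine ⟨k * m, mul_ne_zero hk hm, ?_⟩
        rw [(show Commute c d from h).mul_pow, pow_mul c, mul_comm k m, pow_mul d]
        exact A.mul_mem (A.pow_mem hck m) (A.pow_mem hdm k)
      inv_mem' := by
        rintro c ⟨k, hk, hck⟩
        refine ⟨k, hk, ?_⟩
        rw [inv_pow]
        exact A.inv_mem hck }
  refine ⟨I, ⟨?_⟩, fun c => Iff.rfl⟩
  rintro c ⟨k, hk, hck⟩ g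
  obtain ⟨m, hm, h⟩ := hconj g _ hck
  refine ⟨k * m, mul_ne_zero hk hm, ?_⟩
  rw [pow_mul, conj_pow]
  exact h

/-- quotients by isolators -/
private theorem quot_isol {C W : (G : Type) → [Group G] → Prop} (hW : Cls C W) {G : Type} [Group G] (hG : W G)
    {A : Subgroup G} (hA : Ab A) (hconj : ∀ (g : G), ∀ a ∈ A, Pw A (g * a * g⁻¹)) :
    ∃ (Q : Type) (_ : Group Q) (f : G →* Q), W Q ∧ ∀ c, f c = 1 ↔ Pw A c := by
  obtain ⟨I, hn, hI⟩ := exists_isol hW hG hA hconj
  have hk : ∀ c, (QuotientGroup.mk' I) c = 1 ↔ Pw A c := by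
    intro c
    rw [QuotientGroup.mk'_apply, QuotientGroup.eq_one_iff]
    exact hI c
  exact ⟨G ⧸ I, inferInstance, QuotientGroup.mk' I,
    hW.quot _ _ _ hG (QuotientGroup.mk'_surjective I) ⟨A, hA, hconj, hk⟩, hk⟩

private theorem wq_prod {E N : Type} (hN0 : Group N) (hN : WQ N) : WQ (Multiplicative (E → ℚ) × N) := by
  refine WQ_prod (fun a b => mul_comm a b) ?_ hN
  intro x k hk hx
  have h4 : k • Multiplicative.toAdd x = 0 := hx
  have hk' : (k : ℚ) ≠ 0 := by exact_mod_cast hk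
  have h5 : Multiplicative.toAdd x = 0 := by
    funext e
    have h6 := congrFun h4 e
    rw [Pi.smul_apply, nsmul_eq_mul, Pi.zero_apply] at h6
    exact (mul_eq_zero.1 h6).resolve_left hk'
  exact h5

theorem cls_WP {C : (G : Type) → [Group G] → Prop} (hC : Inherits C)
    (hS : ∀ (G : Type) [Group G], Group.IsSolvable G → C G) : Cls C (WP C) := by
  have hR := cls_WR hC
  have hN := cls_WQ hC hS
  refine ⟨?_, ?_, ?_, ?_, ?_⟩
  · rintro G _ ⟨R, N, _, _, φ, hφ, h1, h2⟩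
    exact hC.of_injective φ hφ (Pool.Agent.H63.RK.prod_mem hC (hR.mem _ h1) (hN.mem _ h2))
  · rintro G H _ _ f hf ⟨R, N, _, _, φ, hφ, h1, h2⟩
    exact ⟨R, N, _, _, φ.comp f, hφ.comp hf, h1, h2⟩
  · rintro G _ ⟨R, N, _, _, φ, hφ, h1, h2⟩ x k hk hx
    apply hφ
    rw [map_one]
    have h3 : φ x ^ k = 1 := by rw [← map_pow, hx, map_one]
    exact Prod.ext (hR.tf _ h1 _ k hk (congrArg Prod.fst h3)) (hN.tf _ h2 _ k hk (congrArg Prod.snd h3))
  · rintro G _ ⟨R, N, _, _, φ, hφ, h1, h2⟩ x y k hk hc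
    have h3 : φ x ^ k * φ y = φ y * φ x ^ k := by rw [← map_pow, ← map_mul, hc.eq, map_mul]
    apply hφ
    rw [map_mul, map_mul]
    exact Prod.ext (hR.root _ h1 _ _ k hk (congrArg Prod.fst h3)).eq (hN.root _ h2 _ _ k hk (congrArg Prod.snd h3)).eq
  · rintro G Q _ _ f ⟨R, N, _, _, φ, hφ, h1, h2⟩ hf ⟨A, hA, hconj, hker⟩
    -- the first coordinate
    let φ₁ : G →* R := (MonoidHom.fst R N).comp φ
    let φ₂ : G →* N := (MonoidHom.snd R N).comp φ
    let p : G →* φ₁.range := φ₁.rangeRestrict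
    have hp : Function.Surjective p := φ₁.rangeRestrict_surjective
    have hWR : WR C φ₁.range := hR.inj _ _ φ₁.range.subtype φ₁.range.subtype_injective h1
    have hmap : ∀ {K : Type} [Group K] (q : G →* K), Function.Surjective q → Ab (A.map q) ∧
        ∀ (g : K), ∀ a ∈ A.map q, Pw (A.map q) (g * a * g⁻¹) := by
      intro K _ q hq
      refine ⟨?_, ?_⟩
      · rintro _ ⟨a, ha, rfl⟩ _ ⟨b, hb, rfl⟩
        rw [← map_mul, hA a ha b hb, map_mul]
      · rintro g _ ⟨a, ha, rfl⟩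
        obtain ⟨g, rfl⟩ := hq g
        obtain ⟨k, hk, h⟩ := hconj g a ha
        refine ⟨k, hk, (g * a * g⁻¹) ^ k, h, ?_⟩
        rw [map_pow, map_mul, map_mul, map_inv]
    obtain ⟨hA₁, hconj₁⟩ := hmap p hp
    have hcen : ∀ a ∈ A.map p, ∀ g, a * g = g * a := fun a ha g =>
      hWR.1.cen ⊤ (A.map p) le_top hA₁ (fun g _ => hconj₁ g) a ha g (Subgroup.mem_top g)
    have hb : ∀ x : {x : φ₁.range // x ∈ A.map p ∧ x ≠ 1}, ∃ b : φ₁.range → ℚ,
        (∀ g h, b (g * h) = b g + b h) ∧ b x.1 ≠ 0 := by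
      rintro ⟨x, hx, hx1⟩
      obtain ⟨b, hb, hbx⟩ := hWR.1.hom x hx1
      exact ⟨b, fun g h => hb g h (hcen x hx g) (hcen x hx h), hbx⟩
    choose b hb1 hb2 using hb
    have hb0 : ∀ x, b x 1 = 0 := by
      intro x
      have h := hb1 x 1 1
      rw [one_mul] at h
      linarith
    let ev : φ₁.range →* Multiplicative ({x : φ₁.range // x ∈ A.map p ∧ x ≠ 1} → ℚ) :=
      { toFun := fun g => Multiplicative.ofAdd fun x => b x g
        map_one' := congrArg Multiplicative.ofAdd (funext fun x => hb0 x)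
        map_mul' := fun g h => congrArg Multiplicative.ofAdd (funext fun x => hb1 x g h) }
    have hev : ∀ g, ev g = 1 → ∀ x, b x g = 0 := fun g h x => congrFun (congrArg Multiplicative.toAdd h) x
    let ψ : G →* Multiplicative ({x : φ₁.range // x ∈ A.map p ∧ x ≠ 1} → ℚ) × N := (ev.comp p).prod φ₂
    have hWN : WQ ψ.range := hN.inj _ _ ψ.range.subtype ψ.range.subtype_injective (wq_prod _ h2)
    let r : G →* ψ.range := ψ.rangeRestrict
    have hr : Function.Surjective r := ψ.rangeRestrict_surjective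
    obtain ⟨hA₂, hconj₂⟩ := hmap r hr
    obtain ⟨R'', _, f₁, hf₁, hk₁⟩ := quot_isol hR hWR hA₁ hconj₁
    obtain ⟨N'', _, f₂, hf₂, hk₂⟩ := quot_isol hN hWN hA₂ hconj₂
    obtain ⟨Θ, hΘ⟩ : ∃ Θ : G →* R'' × N'', Θ = (f₁.comp p).prod (f₂.comp r) := ⟨_, rfl⟩
    have hΘk : ∀ c, Θ c = 1 ↔ Pw A c := by
      intro c
      have e1 : Θ c = 1 ↔ f₁ (p c) = 1 ∧ f₂ (r c) = 1 := by
        rw [hΘ]
        exact Prod.ext_iff
      rw [e1, hk₁, hk₂]
      constructor
      · rintro ⟨⟨k₁, hk₁0, h3⟩, k, hk0, a, ha, h4⟩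
        refine ⟨k, hk0, ?_⟩
        -- the equation in the product
        have h5 : ψ a = ψ (c ^ k) := by
          have h6 := congrArg Subtype.val h4
          rw [map_pow]
          exact h6
        have h6 : ev (p a) = ev (p (c ^ k)) := congrArg Prod.fst h5
        have h7 : φ₂ a = φ₂ (c ^ k) := (Prod.ext_iff.1 h5).2
        -- `y` is in the isolator
        obtain ⟨I, -, hI⟩ := exists_isol hR hWR hA₁ hconj₁
        have h8 : p c ∈ I := (hI _).2 ⟨k₁, hk₁0, h3⟩
        have h9 : p a ∈ I := (hI _).2 ⟨1, one_ne_zero, by rw [pow_one]; exact ⟨a, ha, rfl⟩⟩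
        have h10 : p (c ^ k) * (p a)⁻¹ ∈ I := by
          rw [map_pow]
          exact I.mul_mem (I.pow_mem h8 k) (I.inv_mem h9)
        obtain ⟨m, hm, h11⟩ := (hI _).1 h10
        have h12 : ev ((p (c ^ k) * (p a)⁻¹) ^ m) = 1 := by
          rw [map_pow, map_mul, map_inv, h6, mul_inv_cancel, one_pow]
        have h13 : (p (c ^ k) * (p a)⁻¹) ^ m = 1 := by
          by_contra hne
          exact hb2 ⟨_, h11, hne⟩ (hev _ h12 _)
        have h14 : p (c ^ k) * (p a)⁻¹ = 1 := hR.tf _ hWR _ m hm h13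
        have h15 : p (c ^ k) = p a := mul_inv_eq_one.1 h14
        have h16 : φ₁ (c ^ k) = φ₁ a := congrArg Subtype.val h15
        have h17 : c ^ k = a := hφ (Prod.ext h16 h7.symm)
        rw [h17]
        exact ha
      · rintro ⟨k, hk0, h3⟩
        refine ⟨⟨k, hk0, c ^ k, h3, ?_⟩, ⟨k, hk0, c ^ k, h3, ?_⟩⟩
        · rw [map_pow]
        · rw [map_pow]
    -- the embedding of the quotient
    have hle : f.ker ≤ Θ.ker := fun c hc => (hΘk c).2 ((hker c).1 hc)
    let e := QuotientGroup.quotientKerEquivOfSurjective f hf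
    refine ⟨R'', N'', _, _, (QuotientGroup.lift f.ker Θ hle).comp e.symm.toMonoidHom, ?_, hf₁, hf₂⟩
    rw [injective_iff_map_eq_one]
    intro q hq
    obtain ⟨c, rfl⟩ := hf q
    have h3 : e.symm (f c) = (QuotientGroup.mk c : G ⧸ f.ker) := e.symm_apply_eq.2 rfl
    have h4 : Θ c = 1 := by
      have h5 : (QuotientGroup.lift f.ker Θ hle) (e.symm (f c)) = 1 := hq
      rw [h3] at h5
      exact h5
    exact (hker c).2 ((hΘk c).1 h4)

end Pool.Agent.H50.GN
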