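import Pool.Agent.H50.GN.DefsQ
import Pool.Agent.H50.GN.ClsLN
import Pool.Agent.H63.RK.Iso

/-!
# [GN22] Torsion-free locally solvable groups with commuting roots in all sections

Proof. `cls_WQ`: `mem`: directed union of the subgroups `closure s` (`Inherits.union`). `inj`: images of the subgroups `N`. `root`: `N = ⊥` and
torsion-free. `quot`: `Q` is torsion-free: `f c ^ k = 1` gives `Pw A (c ^ k)`, so `Pw A c`; locally solvable: images; `SecRoot`: preimages of the subgroups
`N`. `WQ_prod`: for `N ≤ A × S` let `N₀ = {s : (1, s) ∈ N}`; if `x`, `y` normalise `N` then `x.2`, `y.2` normalise `N₀`, and `x ^ k * y * (x ^ k)⁻¹ * y⁻¹ = (1, ..)`.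
`WN_WQ`: for a section `H / N` of a locally nilpotent group: let `P = closure {x, y}`
(nilpotent), `M = N ∩ P` (normal in `P`), in the nilpotent group `P / M` the torsion elements form a subgroup and roots commute modulo it (`nil_root` for the
quotient by the torsion subgroup).
-/

set_option autoImplicit false

namespace Pool.Agent.H50.GN

open Pool.Agent.H98.FJ Pool.Agent.H93.TR

/-- every finite subset generates a solvable group -/
private def LSol (G : Type) [Group G] : Prop := ∀ s : Finset G, Group.IsSolvable (Subgroup.closure (s : Set G))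

private theorem lsol_of {G H : Type} [Group G] [Group H] (f : G →* H) (s : Finset G) (t : Finset H)
    (hst : ∀ x ∈ s, f x ∈ Subgroup.closure (t : Set H)) :
    ∀ x ∈ Subgroup.closure (s : Set G), f x ∈ Subgroup.closure (t : Set H) := by
  have h : Subgroup.closure (s : Set G) ≤ (Subgroup.closure (t : Set H)).comap f := by
    rw [Subgroup.closure_le]
    intro x hx
    exact hst x hx
  exact fun x hx => h hx

private theorem LSol.inj {G H : Type} [Group G] [Group H] (f : G →* H) (hf : Function.Injective f) (h : LSol H) : LSol G := by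
  intro s
  classical
  have h1 := lsol_of f s (s.image f) (fun x hx => Subgroup.subset_closure (by
    rw [Finset.coe_image]
    exact ⟨x, hx, rfl⟩))
  have h2 := h (s.image f)
  let g : Subgroup.closure (s : Set G) →* Subgroup.closure ((s.image f : Finset H) : Set H) :=
    { toFun := fun x => ⟨f x.1, h1 x.1 x.2⟩
      map_one' := Subtype.ext (map_one f)
      map_mul' := fun x y => Subtype.ext (map_mul f x.1 y.1) }
  have hg : Function.Injective g := by
    intro x y hxy
    exact Subtype.ext (hf (congrArg Subtype.val hxy))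
  exact Group.isSolvable_of_isSolvable_injective hg

private theorem LSol.surj {G H : Type} [Group G] [Group H] (f : G →* H) (hf : Function.Surjective f) (h : LSol G) : LSol H := by
  intro s
  classical
  choose g hg using hf
  have h1 := lsol_of f (s.image g) s (fun x hx => by
    rw [Finset.mem_image] at hx
    obtain ⟨y, hy, rfl⟩ := hx
    rw [hg]
    exact Subgroup.subset_closure hy)
  have h2 := h (s.image g)
  let p : Subgroup.closure ((s.image g : Finset G) : Set G) →* Subgroup.closure (s : Set H) :=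
    { toFun := fun x => ⟨f x.1, h1 x.1 x.2⟩
      map_one' := Subtype.ext (map_one f)
      map_mul' := fun x y => Subtype.ext (map_mul f x.1 y.1) }
  have h3 : Subgroup.closure (s : Set H) ≤ (Subgroup.closure ((s.image g : Finset G) : Set G)).map f := by
    rw [Subgroup.closure_le]
    intro y hy
    refine ⟨g y, Subgroup.subset_closure ?_, hg y⟩
    rw [Finset.coe_image]
    exact ⟨y, hy, rfl⟩
  have hp : Function.Surjective p := by
    rintro ⟨y, hy⟩
    obtain ⟨x, hx, hxy⟩ := h3 hy
    exact ⟨⟨x, hx⟩, Subtype.ext hxy⟩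
  exact Group.isSolvable_of_surjective hp

private theorem pw_tf {G Q : Type} [Group G] [Group Q] (f : G →* Q) (hf : Function.Surjective f) (A : Subgroup G)
    (hker : ∀ c, f c = 1 ↔ Pw A c) : Pool.Agent.H63.RK.TF Q := by
  intro x k hk hx
  obtain ⟨c, rfl⟩ := hf x
  rw [← map_pow] at hx
  obtain ⟨m, hm, hm1⟩ := (hker _).1 hx
  refine (hker c).2 ⟨k * m, Nat.mul_ne_zero hk hm, ?_⟩
  rw [pow_mul]
  exact hm1

private theorem TF.inj {G H : Type} [Group G] [Group H] (f : G →* H) (hf : Function.Injective f)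
    (h : Pool.Agent.H63.RK.TF H) : Pool.Agent.H63.RK.TF G := by
  intro x k hk hx
  apply hf
  rw [map_one]
  refine h (f x) k hk ?_
  rw [← map_pow, hx, map_one]

private theorem SecRoot.inj {G H : Type} [Group G] [Group H] (f : G →* H) (hf : Function.Injective f) (h : SecRoot H) :
    SecRoot G := by
  intro N x y hx hy k hk hxy
  have hn : ∀ z : G, (∀ n : G, n ∈ N ↔ z * n * z⁻¹ ∈ N) →
      ∀ n : H, n ∈ N.map f ↔ f z * n * (f z)⁻¹ ∈ N.map f := by
    intro z hz n
    constructor
    · rintro ⟨m, hm, rfl⟩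
      refine ⟨z * m * z⁻¹, (hz m).1 hm, ?_⟩
      rw [map_mul, map_mul, map_inv]
    · rintro ⟨m, hm, hm1⟩
      refine ⟨z⁻¹ * m * z, (hz _).2 ?_, ?_⟩
      · have h1 : z * (z⁻¹ * m * z) * z⁻¹ = m := by group
        rw [h1]
        exact hm
      · rw [map_mul, map_mul, map_inv, hm1]
        group
  obtain ⟨m, hm, h1⟩ := h (N.map f) (f x) (f y) (hn x hx) (hn y hy) k hk (by
    refine ⟨_, hxy, ?_⟩
    rw [map_mul, map_mul, map_mul, map_inv, map_inv, map_pow])
  refine ⟨m, hm, ?_⟩
  obtain ⟨u, hu, hu1⟩ := h1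
  have h2 : u = (x * y * x⁻¹ * y⁻¹) ^ m := by
    apply hf
    rw [hu1, map_pow, map_mul, map_mul, map_mul, map_inv, map_inv]
  rw [← h2]
  exact hu

private theorem SecRoot.surj {G H : Type} [Group G] [Group H] (f : G →* H) (hf : Function.Surjective f) (h : SecRoot G) :
    SecRoot H := by
  intro N x y hx hy k hk hxy
  obtain ⟨x, rfl⟩ := hf x
  obtain ⟨y, rfl⟩ := hf y
  have hn : ∀ z : G, (∀ n : H, n ∈ N ↔ f z * n * (f z)⁻¹ ∈ N) → ∀ n : G, n ∈ N.comap f ↔ z * n * z⁻¹ ∈ N.comap f := by
    intro z hz n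
    rw [Subgroup.mem_comap, Subgroup.mem_comap, map_mul, map_mul, map_inv]
    exact hz (f n)
  obtain ⟨m, hm, h1⟩ := h (N.comap f) x y (hn x hx) (hn y hy) k hk (by
    rw [Subgroup.mem_comap, map_mul, map_mul, map_mul, map_inv, map_inv, map_pow]
    exact hxy)
  refine ⟨m, hm, ?_⟩
  rw [Subgroup.mem_comap, map_pow, map_mul, map_mul, map_mul, map_inv, map_inv] at h1
  exact h1

theorem cls_WQ {C : (G : Type) → [Group G] → Prop} (hC : Inherits C)
    (hS : ∀ (G : Type) [Group G], Group.IsSolvable G → C G) : Cls C WQ := by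
  refine ⟨?_, ?_, ?_, ?_, ?_⟩
  · intro G _ h
    refine hC.union (ι := Finset G) (fun s => Subgroup.closure (s : Set G)) ?_ ?_ ?_
    · intro s t hst
      exact Subgroup.closure_mono (by exact_mod_cast hst)
    · intro g
      exact ⟨{g}, Subgroup.subset_closure (by simp)⟩
    · intro s
      exact hS _ (h.2.1 s)
  · intro G H _ _ f hf h
    exact ⟨TF.inj f hf h.1, LSol.inj f hf h.2.1, SecRoot.inj f hf h.2.2⟩
  · intro G _ h
    exact h.1
  · intro G _ h x y k hk hc
    have hb : ∀ z : G, ∀ n : G, n ∈ (⊥ : Subgroup G) ↔ z * n * z⁻¹ ∈ (⊥ : Subgroup G) := by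
      intro z n
      rw [Subgroup.mem_bot, Subgroup.mem_bot]
      constructor
      · intro hn
        rw [hn, mul_one, mul_inv_cancel]
      · intro hn
        have h1 : n = z⁻¹ * (z * n * z⁻¹) * z := by group
        rw [h1, hn, mul_one, inv_mul_cancel]
    obtain ⟨m, hm, h1⟩ := h.2.2 ⊥ x y (hb x) (hb y) k hk (by
      rw [Subgroup.mem_bot, hc.eq, mul_assoc y, mul_inv_cancel, mul_one, mul_inv_cancel])
    rw [Subgroup.mem_bot] at h1
    have h2 := h.1 _ m hm h1
    rw [mul_inv_eq_one, mul_inv_eq_iff_eq_mul] at h2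
    exact h2
  · intro G Q _ _ f h hf hA
    obtain ⟨A, _, _, hker⟩ := hA
    exact ⟨pw_tf f hf A hker, LSol.surj f hf h.2.1, SecRoot.surj f hf h.2.2⟩

theorem WQ_prod {A S : Type} [Group A] [Group S] (hA : ∀ a b : A, a * b = b * a) (hA1 : Pool.Agent.H63.RK.TF A)
    (hS : WQ S) : WQ (A × S) := by
  refine ⟨?_, ?_, ?_⟩
  · rintro ⟨a, s⟩ k hk h
    have h1 : a ^ k = 1 := congrArg Prod.fst h
    have h2 : s ^ k = 1 := congrArg Prod.snd h
    rw [hA1 a k hk h1, hS.1 s k hk h2]
    rfl
  · intro s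
    classical
    have hsolA : Group.IsSolvable A := Group.isSolvable_of_comm hA
    have h1 := lsol_of (MonoidHom.snd A S) s (s.image Prod.snd) (fun x hx => Subgroup.subset_closure (by
      rw [Finset.coe_image]
      exact ⟨x, hx, rfl⟩))
    have h2 := hS.2.1 (s.image Prod.snd)
    let g : Subgroup.closure (s : Set (A × S)) →* A × Subgroup.closure ((s.image Prod.snd : Finset S) : Set S) :=
      { toFun := fun x => (x.1.1, ⟨x.1.2, h1 x.1 x.2⟩)
        map_one' := rfl
        map_mul' := fun x y => rfl }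
    have hg : Function.Injective g := by
      intro x y hxy
      have h3 : x.1.1 = y.1.1 :=
        congrArg (fun z : A × Subgroup.closure ((s.image Prod.snd : Finset S) : Set S) => z.1) hxy
      have h4 : x.1.2 = y.1.2 :=
        congrArg (fun z : A × Subgroup.closure ((s.image Prod.snd : Finset S) : Set S) => (z.2 : S)) hxy
      exact Subtype.ext (Prod.ext h3 h4)
    exact Group.isSolvable_of_isSolvable_injective hg
  · rintro N ⟨a, s⟩ ⟨b, t⟩ hx hy k hk hxy
    have hn : ∀ (c : A) (u : S), (∀ n : A × S, n ∈ N ↔ (c, u) * n * (c, u)⁻¹ ∈ N) →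
        ∀ n : S, n ∈ N.comap (MonoidHom.inr A S) ↔ u * n * u⁻¹ ∈ N.comap (MonoidHom.inr A S) := by
      intro c u h n
      rw [Subgroup.mem_comap, Subgroup.mem_comap, h]
      have h1 : (c, u) * (MonoidHom.inr A S) n * (c, u)⁻¹ = (MonoidHom.inr A S) (u * n * u⁻¹) := by
        refine Prod.ext ?_ rfl
        show c * 1 * c⁻¹ = 1
        rw [mul_one, mul_inv_cancel]
      rw [h1]
    have hc : ∀ c d : A, c * d * c⁻¹ * d⁻¹ = 1 := by
      intro c d
      rw [hA c d, mul_inv_cancel_right, mul_inv_cancel]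
    obtain ⟨m, hm, h1⟩ := hS.2.2 (N.comap (MonoidHom.inr A S)) s t (hn a s hx) (hn b t hy) k hk (by
      rw [Subgroup.mem_comap]
      have h1 : (MonoidHom.inr A S) (s ^ k * t * (s ^ k)⁻¹ * t⁻¹) =
          (a, s) ^ k * (b, t) * ((a, s) ^ k)⁻¹ * (b, t)⁻¹ := by
        refine Prod.ext ?_ rfl
        show 1 = a ^ k * b * (a ^ k)⁻¹ * b⁻¹
        rw [hc]
      rw [h1]
      exact hxy)
    refine ⟨m, hm, ?_⟩
    rw [Subgroup.mem_comap] at h1
    have h2 : (MonoidHom.inr A S) ((s * t * s⁻¹ * t⁻¹) ^ m) = ((a, s) * (b, t) * (a, s)⁻¹ * (b, t)⁻¹) ^ m := by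
      refine Prod.ext ?_ rfl
      show 1 = (a * b * a⁻¹ * b⁻¹) ^ m
      rw [hc, one_pow]
    rw [← h2]
    exact h1

theorem WN_WQ {G : Type} [Group G] (h : WN G) : WQ G := by
  refine ⟨h.1, ?_, ?_⟩
  · intro s
    have h1 : Group.IsNilpotent (Subgroup.closure (s : Set G)) := h.2 _ ⟨s, rfl⟩
    exact inferInstance
  · intro N x y hx hy k hk hxy
    classical
    set P : Subgroup G := Subgroup.closure (({x, y} : Finset G) : Set G) with hP
    have hxP : x ∈ P := Subgroup.subset_closure (by simp)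
    have hyP : y ∈ P := Subgroup.subset_closure (by simp)
    have hnil : Group.IsNilpotent P := h.2 P ⟨_, rfl⟩
    have hle : P ≤ Subgroup.normalizer (N : Set G) := by
      rw [hP, Subgroup.closure_le]
      intro z hz
      rw [Finset.coe_insert, Finset.coe_singleton] at hz
      rcases hz with rfl | rfl
      · exact Subgroup.mem_normalizer_iff.2 hx
      · exact Subgroup.mem_normalizer_iff.2 hy
    have hMn : (N.subgroupOf P).Normal := by
      refine ⟨fun n hn g => ?_⟩
      have h1 := (Subgroup.mem_normalizer_iff.1 (hle g.2) n.1).1 hn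
      exact h1
    have hLN : Pool.Agent.H63.RK.LocNil P := by
      intro K _
      exact inferInstance
    set R : Subgroup P := Pool.Agent.H63.RK.rt hLN (N.subgroupOf P) hMn with hR
    have hRn : R.Normal := Pool.Agent.H63.RK.rt_normal hLN _ hMn
    have hnq : Group.IsNilpotent (P ⧸ R) := Group.nilpotent_of_surjective (QuotientGroup.mk' R) (QuotientGroup.mk'_surjective R)
    have htf : ∀ (z : P ⧸ R) (j : ℕ), j ≠ 0 → z ^ j = 1 → z = 1 := by
      intro z j hj hz
      obtain ⟨z, rfl⟩ := QuotientGroup.mk_surjective z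
      rw [← QuotientGroup.mk_pow, QuotientGroup.eq_one_iff] at hz
      rw [QuotientGroup.eq_one_iff]
      exact Pool.Agent.H63.RK.rt_isol hLN _ hMn z j hj hz
    have h3 : (⟨x, hxP⟩ : P) ^ k * ⟨y, hyP⟩ * (⟨x, hxP⟩ ^ k)⁻¹ * (⟨y, hyP⟩ : P)⁻¹ ∈ R := by
      refine Pool.Agent.H63.RK.le_rt hLN _ hMn ?_
      exact hxy
    have h4 : Commute ((QuotientGroup.mk (⟨x, hxP⟩ : P) : P ⧸ R) ^ k) (QuotientGroup.mk (⟨y, hyP⟩ : P) : P ⧸ R) := by
      have h5 := (QuotientGroup.eq_one_iff _).2 h3
      rw [QuotientGroup.mk_mul, QuotientGroup.mk_mul, QuotientGroup.mk_mul, QuotientGroup.mk_inv, QuotientGroup.mk_inv,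
        QuotientGroup.mk_pow, mul_inv_eq_one, mul_inv_eq_iff_eq_mul] at h5
      exact h5
    have h6 := nil_root hnq htf _ _ k hk h4
    have h7 : (⟨x, hxP⟩ : P) * ⟨y, hyP⟩ * (⟨x, hxP⟩ : P)⁻¹ * (⟨y, hyP⟩ : P)⁻¹ ∈ R := by
      rw [← QuotientGroup.eq_one_iff, QuotientGroup.mk_mul, QuotientGroup.mk_mul, QuotientGroup.mk_mul, QuotientGroup.mk_inv,
        QuotientGroup.mk_inv, mul_inv_eq_one, mul_inv_eq_iff_eq_mul]
      exact h6.eq
    obtain ⟨m, hm, h8⟩ := h7
    exact ⟨m, hm, h8⟩

end Pool.Agent.H50.GN
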