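import Pool.Agent.H50.GN.WQnil
import Pool.Agent.H50.GN.ClsProd

/-!
# [GN29] Products with groups in which the subgroups commensurating a commutative subgroup are locally nilpotent

`NM C R`: `R` is torsion-free, in `C`, roots commute, and the subgroups `K` of `R` which contain a commutative subgroup `A ≠ 1` such that the
conjugates of the elements of `A` by elements of `K` have powers in `A` are locally nilpotent. `WX C W`: the subgroups of the groups
`R × P`, `NM C R`, `W P`.
-/

set_option autoImplicit false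

namespace Pool.Agent.H50.GN

open Pool.Agent.H98.FJ Pool.Agent.H93.TR Pool.Agent.H18.RG

/-- torsion-free groups in `C` with commuting roots, in which the subgroups commensurating a commutative subgroup `A ≠ 1` are locally
nilpotent -/
def NM (C : (G : Type) → [Group G] → Prop) (R : Type) [Group R] : Prop :=
  Pool.Agent.H63.RK.TF R ∧ C R ∧ (∀ (x y : R) (k : ℕ), k ≠ 0 → Commute (x ^ k) y → Commute x y) ∧
    ∀ K A : Subgroup R, A ≤ K → A ≠ ⊥ → Ab A → (∀ g ∈ K, ∀ a ∈ A, Pw A (g * a * g⁻¹)) → Pool.Agent.H63.RK.LocNil K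

/-- the subgroups of the products `R × P` with `NM C R`, `W P` -/
def WX (C W : (G : Type) → [Group G] → Prop) (G : Type) [Group G] : Prop :=
  ∃ (R P : Type) (_ : Group R) (_ : Group P) (φ : G →* R × P), Function.Injective φ ∧ NM C R ∧ W P

/-- `W` is closed under products with torsion-free locally nilpotent groups -/
def NP (W : (G : Type) → [Group G] → Prop) : Prop :=
  ∀ (N P : Type) [Group N] [Group P], WN N → W P → W (N × P)

private theorem NM_one {C : (G : Type) → [Group G] → Prop} (hC : Inherits C) : NM C Unit :=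
  ⟨fun _ _ _ _ => rfl, hC.fin Unit inferInstance, fun _ _ _ _ _ => rfl, fun K A _ h1 => by
    exfalso
    apply h1
    rw [eq_bot_iff]
    intro x _
    exact Subgroup.mem_bot.2 rfl⟩

/-- the isolator of a commutative subgroup which is invariant up to powers -/
private theorem exists_isol {C W : (G : Type) → [Group G] → Prop} (hW : Cls C W) {G : Type} [Group G] (hG : W G)
    {A : Subgroup G} (hA : Ab A) (hconj : ∀ (g : G), ∀ a ∈ A, Pw A (g * a * g⁻¹)) :
    ∃ I : Subgroup G, I.Normal ∧ ∀ c, c ∈ I ↔ Pw A c := by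
  have root2 : ∀ {c d : G} {k m : ℕ}, k ≠ 0 → m ≠ 0 → c ^ k * d ^ m = d ^ m * c ^ k → c * d = d * c := by
    intro c d k m hk hm h
    have h2 : Commute c (d ^ m) := hW.root _ hG _ _ k hk h
    exact (hW.root _ hG _ _ m hm h2.symm).symm.eq
  let I : Subgroup G :=
    { carrier := {c | Pw A c}
      one_mem' := ⟨1, one_ne_zero, by rw [one_pow]; exact A.one_mem⟩
      mul_mem' := by
        rintro c d ⟨k, hk, hck⟩ ⟨m, hm, hdm⟩
        have h := root2 hk hm (hA _ hck _ hdm)
        refine ⟨k * m, mul_ne_zero hk hm, ?_⟩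
        rw [(show Commute c d from h).mul_pow, pow_mul c, mul_comm k m, pow_mul d]
        exact A.mul_mem (A.pow_mem hck m) (A.pow_mem hdm k)
      inv_mem' := by
        rintro c ⟨k, hk, hck⟩
        refine ⟨k, hk, ?_⟩
        rw [inv_pow]
        exact A.inv_mem hck }
  refine ⟨I, ⟨?_⟩, fun c => Iff.rfl⟩
  rintro c ⟨k, hk, hck⟩ g
  obtain ⟨m, hm, h⟩ := hconj g _ hck
  refine ⟨k * m, mul_ne_zero hk hm, ?_⟩
  rw [pow_mul, conj_pow]
  exact h

/-- quotients by isolators -/
private theorem quot_isol {C W : (G : Type) → [Group G] → Prop} (hW : Cls C W) {G : Type} [Group G] (hG : W G)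
    {A : Subgroup G} (hA : Ab A) (hconj : ∀ (g : G), ∀ a ∈ A, Pw A (g * a * g⁻¹)) :
    ∃ (Q : Type) (_ : Group Q) (f : G →* Q), W Q ∧ ∀ c, f c = 1 ↔ Pw A c := by
  obtain ⟨I, hn, hI⟩ := exists_isol hW hG hA hconj
  have hk : ∀ c, (QuotientGroup.mk' I) c = 1 ↔ Pw A c := by
    intro c
    rw [QuotientGroup.mk'_apply, QuotientGroup.eq_one_iff]
    exact hI c
  exact ⟨G ⧸ I, inferInstance, QuotientGroup.mk' I,
    hW.quot _ _ _ hG (QuotientGroup.mk'_surjective I) ⟨A, hA, hconj, hk⟩, hk⟩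

theorem cls_WX {C W : (G : Type) → [Group G] → Prop} (hC : Inherits C) (hW : Cls C W) (hN : NP W) : Cls C (WX C W) := by
  refine ⟨?_, ?_, ?_, ?_, ?_⟩
  · rintro G _ ⟨R, P, _, _, φ, hφ, h1, h2⟩
    exact hC.of_injective φ hφ (Pool.Agent.H63.RK.prod_mem hC h1.2.1 (hW.mem _ h2))
  · rintro G H _ _ f hf ⟨R, P, _, _, φ, hφ, h1, h2⟩
    exact ⟨R, P, _, _, φ.comp f, hφ.comp hf, h1, h2⟩
  · rintro G _ ⟨R, P, _, _, φ, hφ, h1, h2⟩ x k hk hx
    apply hφ
    rw [map_one]
    have h3 : φ x ^ k = 1 := by rw [← map_pow, hx, map_one]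
    exact Prod.ext (h1.1 _ k hk (congrArg Prod.fst h3)) (hW.tf _ h2 _ k hk (congrArg Prod.snd h3))
  · rintro G _ ⟨R, P, _, _, φ, hφ, h1, h2⟩ x y k hk hc
    have h3 : φ x ^ k * φ y = φ y * φ x ^ k := by rw [← map_pow, ← map_mul, hc.eq, map_mul]
    apply hφ
    rw [map_mul, map_mul]
    exact Prod.ext (h1.2.2.1 _ _ k hk (congrArg Prod.fst h3)).eq (hW.root _ h2 _ _ k hk (congrArg Prod.snd h3)).eq
  · rintro G Q _ _ f ⟨R, P, _, _, φ, hφ, h1, h2⟩ hf ⟨A, hA, hconj, hker⟩
    let φ₁ : G →* R := (MonoidHom.fst R P).comp φ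
    let φ₂ : G →* P := (MonoidHom.snd R P).comp φ
    by_cases hA1 : A.map φ₁ = ⊥
    · -- `A` is in the second factor
      let q : G →* φ₂.range := φ₂.rangeRestrict
      have hq : Function.Surjective q := φ₂.rangeRestrict_surjective
      have hWP : W φ₂.range := hW.inj _ _ φ₂.range.subtype φ₂.range.subtype_injective h2
      have hA₂ : Ab (A.map q) := by
        rintro _ ⟨a, ha, rfl⟩ _ ⟨b, hb, rfl⟩
        rw [← map_mul, hA a ha b hb, map_mul]
      have hconj₂ : ∀ (g : φ₂.range), ∀ a ∈ A.map q, Pw (A.map q) (g * a * g⁻¹) := by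
        rintro g _ ⟨a, ha, rfl⟩
        obtain ⟨g, rfl⟩ := hq g
        obtain ⟨k, hk, h⟩ := hconj g a ha
        refine ⟨k, hk, (g * a * g⁻¹) ^ k, h, ?_⟩
        rw [map_pow, map_mul, map_mul, map_inv]
      obtain ⟨P', _, f₂, hf₂, hk₂⟩ := quot_isol hW hWP hA₂ hconj₂
      obtain ⟨Θ, hΘ⟩ : ∃ Θ : G →* R × P', Θ = φ₁.prod (f₂.comp q) := ⟨_, rfl⟩
      have h0 : ∀ a ∈ A, φ₁ a = 1 := by
        intro a ha
        have h3 : φ₁ a ∈ A.map φ₁ := ⟨a, ha, rfl⟩
        rw [hA1] at h3
        exact Subgroup.mem_bot.1 h3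
      have hΘk : ∀ c, Θ c = 1 ↔ Pw A c := by
        intro c
        have e1 : Θ c = 1 ↔ φ₁ c = 1 ∧ f₂ (q c) = 1 := by
          rw [hΘ]
          exact Prod.ext_iff
        rw [e1, hk₂]
        constructor
        · rintro ⟨h3, k, hk0, a, ha, h4⟩
          refine ⟨k, hk0, ?_⟩
          have h5 : φ₂ a = φ₂ (c ^ k) := by
            have h6 := congrArg Subtype.val h4
            rw [map_pow]
            exact h6
          have h6 : φ₁ a = φ₁ (c ^ k) := by rw [h0 a ha, map_pow, h3, one_pow]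
          have h7 : c ^ k = a := hφ (Prod.ext h6.symm h5.symm)
          rw [h7]
          exact ha
        · rintro ⟨k, hk0, h3⟩
          refine ⟨?_, k, hk0, c ^ k, h3, by rw [map_pow]⟩
          have h4 := h0 _ h3
          rw [map_pow] at h4
          exact h1.1 _ k hk0 h4
      have hle : f.ker ≤ Θ.ker := fun c hc => (hΘk c).2 ((hker c).1 hc)
      let e := QuotientGroup.quotientKerEquivOfSurjective f hf
      refine ⟨R, P', _, _, (QuotientGroup.lift f.ker Θ hle).comp e.symm.toMonoidHom, ?_, h1, hf₂⟩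
      rw [injective_iff_map_eq_one]
      intro x hx
      obtain ⟨c, rfl⟩ := hf x
      have h3 : e.symm (f c) = (QuotientGroup.mk c : G ⧸ f.ker) := e.symm_apply_eq.2 rfl
      have h4 : Θ c = 1 := by
        have h5 : (QuotientGroup.lift f.ker Θ hle) (e.symm (f c)) = 1 := hx
        rw [h3] at h5
        exact h5
      exact (hker c).2 ((hΘk c).1 h4)
    · -- the first coordinate is locally nilpotent
      have h3 : Pool.Agent.H63.RK.LocNil φ₁.range := by
        refine h1.2.2.2 φ₁.range (A.map φ₁) (Subgroup.map_le_range φ₁ A) hA1 ?_ ?_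
        · rintro _ ⟨a, ha, rfl⟩ _ ⟨b, hb, rfl⟩
          rw [← map_mul, hA a ha b hb, map_mul]
        · rintro _ ⟨g, rfl⟩ _ ⟨a, ha, rfl⟩
          obtain ⟨k, hk, h⟩ := hconj g a ha
          refine ⟨k, hk, (g * a * g⁻¹) ^ k, h, ?_⟩
          rw [map_pow, map_mul, map_mul, map_inv]
      have h4 : WN φ₁.range := by
        refine ⟨fun x k hk hx => ?_, h3⟩
        exact Subtype.ext (h1.1 _ k hk (congrArg Subtype.val hx))
      have h5 : W (φ₁.range × P) := hN _ _ h4 h2
      have h6 : W G := by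
        refine hW.inj _ _ (φ₁.rangeRestrict.prod φ₂) ?_ h5
        intro x y hxy
        have h7 := Prod.ext_iff.1 hxy
        exact hφ (Prod.ext (congrArg Subtype.val h7.1) h7.2)
      have h7 : W Q := hW.quot G Q f h6 hf ⟨A, hA, hconj, hker⟩
      refine ⟨Unit, Q, inferInstance, inferInstance, MonoidHom.inr Unit Q, ?_, NM_one hC, h7⟩
      intro x y hxy
      exact congrArg Prod.snd hxy

theorem np_WX {C W : (G : Type) → [Group G] → Prop} (hN : NP W) : NP (WX C W) := by
  rintro N G _ _ h ⟨R, P, _, _, φ, hφ, h1, h2⟩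
  let ψ : N × G →* R × (N × P) :=
    { toFun := fun x => ((φ x.2).1, (x.1, (φ x.2).2))
      map_one' := by
        show ((φ 1).1, ((1 : N), (φ 1).2)) = 1
        rw [map_one]
        rfl
      map_mul' := fun x y => by
        show ((φ (x.2 * y.2)).1, (x.1 * y.1, (φ (x.2 * y.2)).2)) = _
        rw [map_mul]
        rfl }
  refine ⟨R, N × P, inferInstance, inferInstance, ψ, ?_, h1, hN _ _ h h2⟩
  intro x y hxy
  have h3 := Prod.ext_iff.1 hxy
  have h4 := Prod.ext_iff.1 h3.2
  exact Prod.ext h4.1 (hφ (Prod.ext h3.1 h4.2))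

theorem np_WP {C : (G : Type) → [Group G] → Prop} : NP (WP C) := by
  rintro N G _ _ h ⟨R, S, _, _, φ, hφ, h1, h2⟩
  let ψ : N × G →* R × (N × S) :=
    { toFun := fun x => ((φ x.2).1, (x.1, (φ x.2).2))
      map_one' := by
        show ((φ 1).1, ((1 : N), (φ 1).2)) = 1
        rw [map_one]
        rfl
      map_mul' := fun x y => by
        show ((φ (x.2 * y.2)).1, (x.1 * y.1, (φ (x.2 * y.2)).2)) = _
        rw [map_mul]
        rfl }
  refine ⟨R, N × S, inferInstance, inferInstance, ψ, ?_, h1, WQ_nil h h2⟩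
  intro x y hxy
  have h3 := Prod.ext_iff.1 hxy
  have h4 := Prod.ext_iff.1 h3.2
  exact Prod.ext h4.1 (hφ (Prod.ext h3.1 h4.2))

/-- finite products -/
theorem exists_cls {C : (G : Type) → [Group G] → Prop} (hC : Inherits C) (hS : ∀ (G : Type) [Group G], Group.IsSolvable G → C G)
    (n : ℕ) : ∃ W : (G : Type) → [Group G] → Prop, Cls C W ∧ NP W ∧
      ∀ (R : Fin n → Type) [∀ i, Group (R i)] (P : Type) [Group P], (∀ i, NM C (R i)) → WP C P → W ((∀ i, R i) × P) := by
  induction n with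
  | zero =>
    refine ⟨WP C, cls_WP hC hS, np_WP, ?_⟩
    intro R _ P _ _ h
    refine (cls_WP hC hS).inj _ _ (MonoidHom.snd (∀ i, R i) P) ?_ h
    intro x y hxy
    exact Prod.ext (funext fun i => i.elim0) hxy
  | succ n ih =>
    obtain ⟨W, hW, hN, hR⟩ := ih
    refine ⟨WX C W, cls_WX hC hW hN, np_WX hN, ?_⟩
    intro R _ P _ h1 h2
    let ψ : (∀ i, R i) × P →* R 0 × ((∀ i : Fin n, R i.succ) × P) :=
      { toFun := fun x => (x.1 0, (fun i => x.1 i.succ, x.2))
        map_one' := rfl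
        map_mul' := fun _ _ => rfl }
    refine ⟨R 0, (∀ i : Fin n, R i.succ) × P, inferInstance, inferInstance, ψ, ?_, h1 0, hR (fun i => R i.succ) P
      (fun i => h1 i.succ) h2⟩
    intro x y hxy
    have h3 := Prod.ext_iff.1 hxy
    have h4 := Prod.ext_iff.1 h3.2
    refine Prod.ext (funext fun i => ?_) h4.2
    refine Fin.cases ?_ (fun j => ?_) i
    · exact h3.1
    · exact congrFun h4.1 j

end Pool.Agent.H50.GN
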