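import Pool.Agent.H50.GN.Defs
import Pool.Agent.H92.CZ.Com
import Pool.Agent.H71.GC.Med

/-!
# [GN9] Actions on trees and commensurators

Proof. `Pool.Agent.H92.CZ.comm_main` for every finitely generated `K ≤ G` with the same tree, `n = 1`, `k = 1`, `N = 1`, `m = h + 1`: trees are
median graphs without squares; a subgroup which fixes two different vertices fixes an edge (the first edge of the path); the
chain condition is `IC h` for the stabiliser of an edge fixed by `B (h + 1)`; finite subgroups which fix an edge are trivial. The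
commensurator in `K` of `B ≤ K` is mapped injectively to the commensurator in `G` of the image of `B`.
-/

set_option autoImplicit false

namespace Pool.Agent.H50.GN

open Pool.Agent.H98.FJ Pool.Agent.H93.TR Pool.Agent.H76.GT

open Subgroup.Commensurable (commensurator)
open scoped Pointwise
open Pool.Agent.H37.MG (FM Median IsCube)
open Pool.Agent.H92.CZ (comm_main)
open Pool.Agent.H71.GC (closer_unique exists_closer tree_no_cube)

theorem tree_median {V : Type} {X : SimpleGraph V} (hX : X.IsTree) : Pool.Agent.H37.MG.Median X :=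
  Pool.Agent.H71.GC.tree_median hX

theorem tree_cube {V : Type} {X : SimpleGraph V} (hX : X.IsTree) (f : (Fin 2 → Bool) → V) :
    ¬ Pool.Agent.H37.MG.IsCube X 2 f :=
  Pool.Agent.H71.GC.tree_no_cube hX f

/-- a group which fixes two different vertices of a tree fixes an edge -/
theorem fm_edge {G V : Type} [Group G] [MulAction G V] {X : SimpleGraph V} (hX : X.IsTree)
    (hadj : ∀ (g : G) (a b : V), X.Adj a b → X.Adj (g • a) (g • b)) {B : Subgroup G} (h : FM X 1 B) : FixE X B := by
  obtain ⟨v, w, hvw, hB⟩ := h
  have hne : w ≠ v := by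
    rintro rfl
    rw [SimpleGraph.dist_self] at hvw
    omega
  obtain ⟨u, hu, hu1⟩ := exists_closer hX.connected hne
  have hle : ∀ (g : G) (a b : V), X.dist (g • a) (g • b) ≤ X.dist a b := by
    intro g a b
    obtain ⟨p, hp⟩ := hX.connected.exists_walk_length_eq_dist a b
    rw [← hp]
    clear hp
    induction p with
    | nil => rw [SimpleGraph.dist_self]; exact Nat.zero_le _
    | cons e p ih =>
      rename_i a' b' c'
      rw [SimpleGraph.Walk.length_cons]
      have h1 := SimpleGraph.dist_eq_one_iff_adj.2 (hadj g _ _ e)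
      have h2 : X.dist (g • a') (g • c') ≤ X.dist (g • a') (g • b') + X.dist (g • b') (g • c') := hX.connected.dist_triangle
      omega
  have hd : ∀ (g : G) (a b : V), X.dist (g • a) (g • b) = X.dist a b := by
    intro g a b
    refine le_antisymm (hle g a b) ?_
    have := hle g⁻¹ (g • a) (g • b)
    rwa [inv_smul_smul, inv_smul_smul] at this
  refine ⟨v, u, hu, fun b hb => ⟨(hB b hb).1, ?_⟩⟩
  have h1 := hadj b _ _ hu
  rw [(hB b hb).1] at h1
  have h2 := hd b w u
  rw [(hB b hb).2] at h2
  exact closer_unique hX h1 hu (by omega) hu1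

/-- the commensurator of the image -/
theorem comm_map {G : Type} [Group G] {K : Subgroup G} (B : Subgroup K) {g : K} (hg : g ∈ commensurator B) :
    (g : G) ∈ commensurator (B.map K.subtype) := by
  rw [Subgroup.Commensurable.commensurator_mem_iff] at hg ⊢
  have hi : Function.Injective K.subtype := Subtype.coe_injective
  have e : (ConjAct.toConjAct (g : G)) • (B.map K.subtype) = ((ConjAct.toConjAct g) • B).map K.subtype := by
    ext x
    constructor
    · intro hx
      obtain ⟨y, hy, rfl⟩ := (Subgroup.mem_smul_pointwise_iff_exists _ _ _).1 hx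
      obtain ⟨z, hz, rfl⟩ := hy
      exact ⟨ConjAct.toConjAct g • z, (Subgroup.mem_smul_pointwise_iff_exists _ _ _).2 ⟨z, hz, rfl⟩, rfl⟩
    · rintro ⟨y, hy, rfl⟩
      obtain ⟨z, hz, rfl⟩ := (Subgroup.mem_smul_pointwise_iff_exists _ _ _).1 hy
      exact (Subgroup.mem_smul_pointwise_iff_exists _ _ _).2 ⟨K.subtype z, ⟨z, hz, rfl⟩, rfl⟩
  rw [e]
  constructor
  · rw [Subgroup.relIndex_map_map_of_injective _ _ hi]
    exact hg.1
  · rw [Subgroup.relIndex_map_map_of_injective _ _ hi]
    exact hg.2

theorem of_comm {C : (G : Type) → [Group G] → Prop} (hC : Inherits C) (hT : Transfer C) {G V : Type} [Group G] [MulAction G V]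
    {X : SimpleGraph V} (hX : OnTree G X) (hv : ∀ v : V, C (MulAction.stabilizer G v)) (h : ℕ)
    (he : ∀ v w : V, X.Adj v w → IC h (MulAction.stabilizer G v ⊓ MulAction.stabilizer G w : Subgroup G))
    (htf : ∀ (v : V) (g : G), g • v = v → ∀ k : ℕ, k ≠ 0 → g ^ k = 1 → g = 1)
    (hB : ∀ B : Subgroup G, FixE X B → (B : Set G).Infinite → C (Subgroup.Commensurable.commensurator B)) : C G := by
  refine comm_main hC hT G fun K _ => ?_
  have hadjK : ∀ (g : K) (a b : V), X.Adj a b → X.Adj (g • a) (g • b) := fun g a b hab => hX.adj (g : G) a b hab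
  have hi : Function.Injective K.subtype := Subtype.coe_injective
  refine ⟨V, inferInstance, X, 1, 1, 1, h + 1, tree_median hX.tree, hadjK, tree_no_cube hX.tree, ?_, ?_, ?_, ?_⟩
  · intro v
    let ψ : MulAction.stabilizer K v →* MulAction.stabilizer G v :=
      { toFun := fun h => ⟨(h.1 : G), h.2⟩
        map_one' := rfl
        map_mul' := fun _ _ => rfl }
    refine hC.of_injective ψ ?_ (hv v)
    intro a b hab
    have h1 : ((a.1 : K) : G) = b.1 := congrArg (fun z : MulAction.stabilizer G v => (z : G)) hab
    exact Subtype.ext (Subtype.ext h1)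
  · intro B hF hfin
    obtain ⟨v, w, -, hB'⟩ := hF
    have h1 : ∀ b ∈ B, b = 1 := by
      intro b hb
      have hfB : Finite B := hfin
      have h2 : IsOfFinOrder (⟨b, hb⟩ : B) := isOfFinOrder_of_finite _
      obtain ⟨k, hk, h3⟩ := isOfFinOrder_iff_pow_eq_one.1 h2
      have h4 : b ^ k = 1 := congrArg Subtype.val h3
      have h5 : (b : G) ^ k = 1 := by
        have := congrArg K.subtype h4
        simpa using this
      have h6 := htf v (b : G) (hB' b hb).1 k (by omega) h5
      exact Subtype.ext h6
    have h2 : (B : Set K) ⊆ {1} := fun b hb => h1 b hb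
    refine (Set.encard_le_encard h2).trans ?_
    rw [Set.encard_singleton]
    exact le_refl _
  · intro B hF hinf
    obtain ⟨v, w, hvw, hB'⟩ := fm_edge hX.tree hadjK hF
    have h1 : FixE X (B.map K.subtype) := by
      refine ⟨v, w, hvw, ?_⟩
      rintro _ ⟨b, hb, rfl⟩
      exact hB' b hb
    have h2 : ((B.map K.subtype : Subgroup G) : Set G).Infinite := by
      rw [Subgroup.coe_map]
      exact hinf.image hi.injOn
    let ψ : commensurator B →* commensurator (B.map K.subtype) :=
      { toFun := fun g => ⟨((g : K) : G), comm_map B g.2⟩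
        map_one' := rfl
        map_mul' := fun _ _ => rfl }
    refine hC.of_injective ψ ?_ (hB _ h1 h2)
    intro a b hab
    have h3 : ((a.1 : K) : G) = b.1 := congrArg (fun z : commensurator (B.map K.subtype) => (z : G)) hab
    exact Subtype.ext (Subtype.ext h3)
  · intro B hF hB' _
    obtain ⟨v, w, hvw, hfix⟩ := fm_edge hX.tree hadjK (hF (h + 1))
    have hmono : Monotone B := monotone_nat_of_le_succ hB'
    obtain ⟨i, hi1, hi2⟩ := he v w hvw
      (fun i => ((B (min i (h + 1))).map K.subtype).subgroupOf (MulAction.stabilizer G v ⊓ MulAction.stabilizer G w)) (by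
        intro i x hx
        rw [Subgroup.mem_subgroupOf] at hx ⊢
        exact Subgroup.map_mono (hmono (by omega)) hx)
    refine ⟨i, by omega, ?_⟩
    have e1 : min i (h + 1) = i := by omega
    have e2 : min (i + 1) (h + 1) = i + 1 := by omega
    rw [e1, e2, Subgroup.relIndex_subgroupOf, Subgroup.relIndex_map_map_of_injective _ _ hi] at hi2
    · exact hi2
    · rintro _ ⟨b, hb, rfl⟩
      have hb' : b ∈ B (h + 1) := hmono (by omega) hb
      exact ⟨(hfix b hb').1, (hfix b hb').2⟩


end Pool.Agent.H50.GN
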