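import Pool.Agent.H93.TR.Main
import Pool.Agent.H63.RK.Defs

/-!
# Graphs of nilpotent groups (MP_2a547c_gt): definitions

`Sat X I`: a saturated family of subgroups `I x` of the vertex stabilisers of a group acting on a graph. `NN I`: the subgroup
generated by them. `Pw A c`: a power of `c` with exponent not `0` is in `A`. `IC n G`: among any `n + 1` consecutive steps of an
increasing sequence of subgroups one has finite index. `Cls C W`: the classes `W` of torsion-free vertex groups.
-/

set_option autoImplicit false

namespace Pool.Agent.H50.GN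

open Pool.Agent.H98.FJ Pool.Agent.H93.TR

/-- saturated families: `I x` fixes `x`, the family is invariant under conjugation, and the elements of `I x` which fix a
neighbour `y` of `x` are in `I y` -/
structure Sat {G V : Type} [Group G] [MulAction G V] (X : SimpleGraph V) (I : V → Subgroup G) : Prop where
  fix : ∀ x, ∀ c ∈ I x, c • x = x
  conj : ∀ (g : G) (x : V), ∀ c ∈ I x, g * c * g⁻¹ ∈ I (g • x)
  edge : ∀ x y, X.Adj x y → ∀ c ∈ I x, c • y = y → c ∈ I y

/-- the subgroup generated by a family of subgroups -/
def NN {G V : Type} [Group G] (I : V → Subgroup G) : Subgroup G := ⨆ x, I x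

theorem mem_NN {G V : Type} [Group G] {I : V → Subgroup G} {x : V} {c : G} (h : c ∈ I x) : c ∈ NN I :=
  (le_iSup I x) h

theorem NN_normal {G V : Type} [Group G] [MulAction G V] {X : SimpleGraph V} {I : V → Subgroup G}
    (hI : Sat X I) : (NN I).Normal := by
  refine ⟨fun n hn g => ?_⟩
  have h : NN I ≤ (NN I).comap (MulAut.conj g).toMonoidHom := by
    refine iSup_le fun x c hc => ?_
    exact mem_NN (hI.conj g x c hc)
  exact h hn

/-- some power of `c`, with exponent different from `0`, is in `A` -/
def Pw {G : Type} [Group G] (A : Subgroup G) (c : G) : Prop := ∃ k : ℕ, k ≠ 0 ∧ c ^ k ∈ A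

/-- among any `n + 1` consecutive steps of an increasing sequence of subgroups one has finite index -/
def IC (n : ℕ) (G : Type) [Group G] : Prop :=
  ∀ B : ℕ → Subgroup G, (∀ i, B i ≤ B (i + 1)) → ∃ i, i ≤ n ∧ (B i).relIndex (B (i + 1)) ≠ 0

/-- `A` is commutative -/
def Ab {G : Type} [Group G] (A : Subgroup G) : Prop := ∀ a ∈ A, ∀ b ∈ A, a * b = b * a

/-- classes of torsion-free groups with commuting roots, contained in `C`, closed under subgroups and under the quotients by the
isolators of the commutative subgroups which are invariant under conjugation up to powers -/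
structure Cls (C W : (G : Type) → [Group G] → Prop) : Prop where
  mem : ∀ (G : Type) [Group G], W G → C G
  inj : ∀ (G H : Type) [Group G] [Group H] (f : G →* H), Function.Injective f → W H → W G
  tf : ∀ (G : Type) [Group G], W G → ∀ (x : G) (k : ℕ), k ≠ 0 → x ^ k = 1 → x = 1
  root : ∀ (G : Type) [Group G], W G → ∀ (x y : G) (k : ℕ), k ≠ 0 → Commute (x ^ k) y → Commute x y
  quot : ∀ (G Q : Type) [Group G] [Group Q] (f : G →* Q), W G → Function.Surjective f →
    (∃ A : Subgroup G, Ab A ∧ (∀ (g : G), ∀ a ∈ A, Pw A (g * a * g⁻¹)) ∧ ∀ c, f c = 1 ↔ Pw A c) → W Q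

/-- Lifts: `n y • y` is the representative of `y` in a subtree which meets every orbit of `NN I` once. `one`: `n` is trivial on the
representatives; `red`: neighbours of a representative `s` which are representatives are not equivalent under `I s`; `adj`: for an
edge `x y` the elements `n x` and `n y` differ by an element of `I` at the representative of `x` or of `y`. -/
structure Lft {G V : Type} [Group G] [MulAction G V] (X : SimpleGraph V) (I : V → Subgroup G) (n : V → G) : Prop where
  one : ∀ y, n (n y • y) = 1
  red : ∀ x y z, X.Adj (n x • x) (n y • y) → X.Adj (n x • x) (n z • z) → ∀ c ∈ I (n x • x), c • (n y • y) = n z • z →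
    n y • y = n z • z
  adj : ∀ x y, X.Adj x y → n y * (n x)⁻¹ ∈ I (n x • x) ∨ n y * (n x)⁻¹ ∈ I (n y • y)

/-- the subgroup `B` fixes an edge -/
def FixE {G V : Type} [Group G] [MulAction G V] (X : SimpleGraph V) (B : Subgroup G) : Prop :=
  ∃ v w : V, X.Adj v w ∧ ∀ b ∈ B, b • v = v ∧ b • w = w

/-- the quotient graph -/
def qg {G V : Type} [Group G] [MulAction G V] (X : SimpleGraph V) (N : Subgroup G) : SimpleGraph (Orb N V) where
  Adj a b := a ≠ b ∧ ∃ x y, orb N x = a ∧ orb N y = b ∧ X.Adj x y
  symm := ⟨by
    rintro a b ⟨h, x, y, hx, hy, h1⟩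
    exact ⟨h.symm, y, x, hy, hx, h1.symm⟩⟩
  loopless := ⟨fun a h => h.1 rfl⟩

/-- the action of the quotient group on the quotient graph -/
instance instQ {G V : Type} [Group G] [MulAction G V] (N : Subgroup G) [N.Normal] : MulAction (G ⧸ N) (Orb N V) where
  smul q o := Quotient.liftOn' q (fun g : G => g • o) (by
    intro a b hab
    obtain ⟨v, rfl⟩ := orb_surj N o
    rw [QuotientGroup.leftRel_apply] at hab
    show orb N (a • v) = orb N (b • v)
    rw [orb_eq_iff]
    refine ⟨a * b⁻¹, ?_, by rw [smul_smul, inv_mul_cancel_right]⟩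
    have h := ‹N.Normal›.conj_mem _ hab a
    have h2 : a * (a⁻¹ * b) * a⁻¹ = (a * b⁻¹)⁻¹ := by group
    rw [h2] at h
    exact (N.inv_mem_iff).1 h)
  one_smul o := one_smul G o
  mul_smul q r o := by
    obtain ⟨a, rfl⟩ := QuotientGroup.mk_surjective q
    obtain ⟨b, rfl⟩ := QuotientGroup.mk_surjective r
    exact mul_smul a b o

theorem mk_smul_orb {G V : Type} [Group G] [MulAction G V] (N : Subgroup G) [N.Normal] (g : G) (v : V) :
    (QuotientGroup.mk g : G ⧸ N) • orb N v = orb N (g • v) := rfl

end Pool.Agent.H50.GN
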