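import Pool.Agent.H50.GN.Defs
import Pool.Agent.H75.CX.Vp2

/-!
# Commuting roots in all sections: definitions

`SecRoot G`: if `x`, `y` normalise `N` and `⁅x ^ k, y⁆ ∈ N`, `k ≠ 0`, then a power of `⁅x, y⁆` is in `N`. `WQ`: torsion-free, locally solvable
groups with this property.
-/

set_option autoImplicit false

namespace Pool.Agent.H50.GN

open Pool.Agent.H98.FJ Pool.Agent.H93.TR

/-- in all sections roots commute up to torsion: if `x`, `y` normalise `N` and `x ^ k * y * (x ^ k)⁻¹ * y⁻¹ ∈ N` with `k ≠ 0` then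
a power of `x * y * x⁻¹ * y⁻¹` is in `N` -/
def SecRoot (G : Type) [Group G] : Prop :=
  ∀ (N : Subgroup G) (x y : G), (∀ n : G, n ∈ N ↔ x * n * x⁻¹ ∈ N) → (∀ n : G, n ∈ N ↔ y * n * y⁻¹ ∈ N) → ∀ k : ℕ, k ≠ 0 →
    x ^ k * y * (x ^ k)⁻¹ * y⁻¹ ∈ N → ∃ m : ℕ, m ≠ 0 ∧ (x * y * x⁻¹ * y⁻¹) ^ m ∈ N

/-- torsion-free locally solvable groups in whose sections roots commute up to torsion -/
def WQ (G : Type) [Group G] : Prop :=
  Pool.Agent.H63.RK.TF G ∧ (∀ s : Finset G, Group.IsSolvable (Subgroup.closure (s : Set G))) ∧ SecRoot G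

end Pool.Agent.H50.GN
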