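import Pool.Agent.H50.GN.Defs

/-!
# [GN12] Extensions with commutative kernel

Proof. `Extension`: for a virtually cyclic subgroup `U` of `Q` the preimage has a subgroup of finite index (preimage of a cyclic
subgroup of finite index of `U`) which is commutative-by-cyclic, so solvable; `hC.index`.
-/

set_option autoImplicit false

namespace Pool.Agent.H50.GN

open Pool.Agent.H98.FJ Pool.Agent.H93.TR

theorem ext_ab {C : (G : Type) → [Group G] → Prop} (hC : Inherits C) (hE : Extension C)
    (hS : ∀ (G : Type) [Group G], Group.IsSolvable G → C G) {G Q : Type} [Group G] [Group Q] (p : G →* Q)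
    (hp : Function.Surjective p) (hQ : C Q) (hK : ∀ x ∈ p.ker, ∀ y ∈ p.ker, x * y = y * x) : C G := by
  refine hE G Q p hp hQ fun V hV => ?_
  obtain ⟨v, hv⟩ := hV
  let q : V.comap p →* V := p.subgroupComap V
  have hq : ∀ x : V.comap p, ((q x : V) : Q) = p x.1 := fun x => rfl
  have hqs : Function.Surjective q := by
    intro y
    obtain ⟨x, hx⟩ := hp y.1
    refine ⟨⟨x, ?_⟩, Subtype.ext hx⟩
    show p x ∈ V
    rw [hx]
    exact y.2
  have hfi : ((Subgroup.zpowers v).comap q).FiniteIndex :=
    ⟨by rw [Subgroup.index_comap_of_surjective _ hqs]; exact hv.index_ne_zero⟩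
  refine hC.index (V.comap p) ((Subgroup.zpowers v).comap q) hfi ?_
  refine hS _ ?_
  let r : (Subgroup.zpowers v).comap q →* Subgroup.zpowers v := q.subgroupComap (Subgroup.zpowers v)
  have h1 : Group.IsSolvable r.ker := by
    refine Group.isSolvable_of_comm fun a b => ?_
    have ha : ∀ c : r.ker, (((c.1 : (Subgroup.zpowers v).comap q) : V.comap p) : G) ∈ p.ker := by
      intro c
      have h2 : r c.1 = 1 := c.2
      have h3 : q c.1.1 = 1 := congrArg Subtype.val h2
      have h4 : p c.1.1.1 = 1 := congrArg Subtype.val h3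
      exact h4
    apply Subtype.ext
    apply Subtype.ext
    apply Subtype.ext
    exact hK _ (ha a) _ (ha b)
  have h2 : Group.IsSolvable (Subgroup.zpowers v) := by
    refine Group.isSolvable_of_comm fun a b => ?_
    obtain ⟨x, m, rfl⟩ := a
    obtain ⟨y, n, rfl⟩ := b
    apply Subtype.ext
    show v ^ m * v ^ n = v ^ n * v ^ m
    rw [← zpow_add, ← zpow_add, add_comm]
  exact Group.isSolvable_of_ker_le_range r.ker.subtype r (by rw [Subgroup.range_subtype])

end Pool.Agent.H50.GN
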