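import Pool.Agent.H50.GN.Defs

/-!
# [GN6] Germs

Proof. `M = Multiplicative (TensorProduct ℤ ℚ (Additive A))` (or `LocalizedModule`, `DivisibleHull`; `A` is commutative by `hA`); if `k ≠ 0`,
`c ^ k ∈ A` let `γ c = (1 / k) ⊗ c ^ k`. It does not depend on `k`. If `c`, `d` commute, `c ^ k ∈ A`, `d ^ m ∈ A` then
`(c * d) ^ (k * m) = (c ^ k) ^ m * (d ^ m) ^ k`. If `γ c = 1` then `1 ⊗ c ^ k = 0`, so `c ^ k` has finite order (the kernel of the map from a
commutative group to its rationalisation is the torsion subgroup), so it is `1` by `htf`.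
-/

set_option autoImplicit false

namespace Pool.Agent.H50.GN

open Pool.Agent.H98.FJ Pool.Agent.H93.TR

private def nzs (k : ℕ) (hk : k ≠ 0) : nonZeroDivisors ℕ := ⟨k, mem_nonZeroDivisors_of_ne_zero hk⟩

/-- the abstract form: `B` a commutative group embedded in `G` by `i` -/
private theorem germ_aux {G B : Type} [Group G] [CommGroup B] (i : B →* G) (hi : Function.Injective i)
    (htf : ∀ b : B, ∀ k : ℕ, k ≠ 0 → b ^ k = 1 → b = 1) :
    ∃ (M : Type) (_ : CommGroup M) (γ : G → M),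
      (∀ c d : G, c * d = d * c → Pw i.range c → Pw i.range d → γ (c * d) = γ c * γ d) ∧
      ∀ c : G, Pw i.range c → γ c = 1 → ∃ k : ℕ, k ≠ 0 ∧ c ^ k = 1 := by
  classical
  have h0 : ∀ c : G, Pw i.range c → ∃ p : ℕ × B, p.1 ≠ 0 ∧ i p.2 = c ^ p.1 := by
    rintro c ⟨k, hk, b, hb⟩
    exact ⟨(k, b), hk, hb⟩
  choose! p hp0 hp using h0
  let g : G → LocalizedModule (nonZeroDivisors ℕ) (Additive B) := fun c =>
    if h : (p c).1 ≠ 0 then LocalizedModule.mk (Additive.ofMul (p c).2) (nzs (p c).1 h) else 0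
  -- the value does not depend on the exponent
  have hg : ∀ (c : G) (k : ℕ) (hk : k ≠ 0) (b : B), i b = c ^ k →
      g c = LocalizedModule.mk (Additive.ofMul b) (nzs k hk) := by
    intro c k hk b hb
    have hc : Pw i.range c := ⟨k, hk, b, hb⟩
    have h1 := hp0 c hc
    have h2 := hp c hc
    show (if h : (p c).1 ≠ 0 then LocalizedModule.mk (Additive.ofMul (p c).2) (nzs (p c).1 h) else 0) = _
    rw [dif_pos h1, LocalizedModule.mk_eq]
    refine ⟨1, ?_⟩
    rw [one_smul, one_smul]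
    show k • Additive.ofMul (p c).2 = (p c).1 • Additive.ofMul b
    rw [← ofMul_pow, ← ofMul_pow]
    congr 1
    apply hi
    rw [map_pow, map_pow, h2, hb, ← pow_mul, ← pow_mul, mul_comm]
  refine ⟨Multiplicative (LocalizedModule (nonZeroDivisors ℕ) (Additive B)), inferInstance,
    fun c => Multiplicative.ofAdd (g c), ?_, ?_⟩
  · rintro c d hcd ⟨k, hk, b, hb⟩ ⟨m, hm, b', hb'⟩
    have hkm : k * m ≠ 0 := Nat.mul_ne_zero hk hm
    have h3 : i (b ^ m * b' ^ k) = (c * d) ^ (k * m) := by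
      rw [map_mul, map_pow, map_pow, hb, hb', ← pow_mul, ← pow_mul, (show Commute c d from hcd).mul_pow, mul_comm m k]
    show Multiplicative.ofAdd (g (c * d)) = Multiplicative.ofAdd (g c) * Multiplicative.ofAdd (g d)
    rw [hg (c * d) (k * m) hkm _ h3, hg c k hk b hb, hg d m hm b' hb', ← ofAdd_add, LocalizedModule.mk_add_mk]
    congr 1
  · rintro c ⟨k, hk, b, hb⟩ h
    have h1 : g c = 0 := h
    rw [hg c k hk b hb] at h1
    have h2 : LocalizedModule.mk (Additive.ofMul b) (nzs k hk) =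
        LocalizedModule.mk (0 : Additive B) (1 : nonZeroDivisors ℕ) := by
      rw [h1, LocalizedModule.zero_mk]
    rw [LocalizedModule.mk_eq] at h2
    obtain ⟨u, hu⟩ := h2
    rw [one_smul, smul_zero, smul_zero] at hu
    have hu0 : (u : ℕ) ≠ 0 := nonZeroDivisors.ne_zero u.2
    have h4 : b ^ (u : ℕ) = 1 := by
      have h5 : (u : ℕ) • Additive.ofMul b = 0 := hu
      rw [← ofMul_pow] at h5
      exact h5
    have h6 := htf b u hu0 h4
    refine ⟨k, hk, ?_⟩
    rw [← hb, h6, map_one]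

theorem exists_germ {G : Type} [Group G] (A : Subgroup G) (hA : Ab A)
    (htf : ∀ a ∈ A, ∀ k : ℕ, k ≠ 0 → a ^ k = 1 → a = 1) :
    ∃ (M : Type) (_ : CommGroup M) (γ : G → M),
      (∀ c d : G, c * d = d * c → Pw A c → Pw A d → γ (c * d) = γ c * γ d) ∧
      ∀ c : G, Pw A c → γ c = 1 → ∃ k : ℕ, k ≠ 0 ∧ c ^ k = 1 := by
  let _ : CommGroup A := { (inferInstance : Group A) with
    mul_comm := fun a b => Subtype.ext (hA a.1 a.2 b.1 b.2) }
  have h := germ_aux (G := G) (B := A) A.subtype Subtype.coe_injective (by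
    intro b k hk hb
    have h1 := htf b.1 b.2 k hk (by
      have h2 := congrArg Subtype.val hb
      simpa using h2)
    exact Subtype.ext h1)
  have hr : A.subtype.range = A := Subgroup.range_subtype A
  rw [hr] at h
  exact h

end Pool.Agent.H50.GN
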