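import Pool.Agent.H50.GN.Inv

/-!
# [GN3] The commutator subgroup of the subgroup generated by a saturated family

Let `γ : G → A` be a function to a commutative group which is multiplicative and injective on every `I x`.

Proof. `l x y = γ (n y * (n x)⁻¹)` for edges `x y` (the element is in some `I z` by `adj`, so `l y x = (l x y)⁻¹`). By
`Pool.Agent.H93.TR.exists_potential` there is `ψ : V → A` with `ψ y = ψ x * l x y` for all edges. For `g ∈ NN I` let
`φ g = γ (n (g • y) * g * (n y)⁻¹) * (ψ (g • y))⁻¹ * ψ y`; this does not depend on `y`: for an edge `y y'` let `t, c, r, r', w` be as in the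
proof of `inv`; then `d = n (g • y') * g * (n y')⁻¹ = r * c * r'⁻¹ ∈ I w`, and `γ d = γ r * γ c * (γ r')⁻¹` (four cases; for instance if
`r ∈ I t`, `r' ∈ I w` then `d * r' = r * c`, `d, r' ∈ I w`, `r, c ∈ I t`). `φ` is a homomorphism on `NN I`. So it is trivial on
the commutator subgroup. If `g` is in the commutator subgroup and `g • x = x` then `φ g = γ (n x * g * (n x)⁻¹) = 1` and
`n x * g * (n x)⁻¹ ∈ I (n x • x)`, so `g = 1`.
-/

set_option autoImplicit false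

namespace Pool.Agent.H50.GN

open Pool.Agent.H98.FJ Pool.Agent.H93.TR

section

variable {G V A : Type} [Group G] [CommGroup A]

private theorem g_one {K : Subgroup G} {γ : G → A} (h : ∀ c ∈ K, ∀ d ∈ K, γ (c * d) = γ c * γ d) : γ 1 = 1 := by
  have h1 := h 1 K.one_mem 1 K.one_mem
  rw [mul_one] at h1
  exact left_eq_mul.1 h1

private theorem g_inv {K : Subgroup G} {γ : G → A} (h : ∀ c ∈ K, ∀ d ∈ K, γ (c * d) = γ c * γ d) (c : G) (hc : c ∈ K) :
    γ c * γ c⁻¹ = 1 := by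
  rw [← h c hc _ (K.inv_mem hc), mul_inv_cancel]
  exact g_one h

/-- four cases -/
private theorem four {K L : Subgroup G} {γ : G → A} (hK : ∀ c ∈ K, ∀ d ∈ K, γ (c * d) = γ c * γ d)
    (hL : ∀ c ∈ L, ∀ d ∈ L, γ (c * d) = γ c * γ d) {c d r r' : G} (hc : c ∈ K) (hd : d ∈ L) (hr : r ∈ K ∨ r ∈ L)
    (hr' : r' ∈ K ∨ r' ∈ L) (h : d * r' = r * c) : γ d * γ r' = γ r * γ c := by
  rcases hr with hr | hr <;> rcases hr' with hr' | hr'
  · have hdK : d ∈ K := by
      have : d = r * c * r'⁻¹ := by rw [← h]; group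
      rw [this]
      exact K.mul_mem (K.mul_mem hr hc) (K.inv_mem hr')
    rw [← hK d hdK r' hr', ← hK r hr c hc, h]
  · rw [← hL d hd r' hr', ← hK r hr c hc, h]
  · have h1 : r⁻¹ * d = c * r'⁻¹ := by
      have : d = r * c * r'⁻¹ := by rw [← h]; group
      rw [this]; group
    have h2 : γ (r⁻¹ * d) = γ (c * r'⁻¹) := by rw [h1]
    rw [hL _ (L.inv_mem hr) d hd, hK c hc _ (K.inv_mem hr')] at h2
    have h3 := g_inv hL r hr
    have h4 := g_inv hK r' hr'
    have h5 : γ r⁻¹ = (γ r)⁻¹ := eq_inv_of_mul_eq_one_right h3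
    have h6 : γ r'⁻¹ = (γ r')⁻¹ := eq_inv_of_mul_eq_one_right h4
    rw [h5, h6] at h2
    have h7 : γ d = γ r * (γ c * (γ r')⁻¹) := by rw [← h2]; group
    rw [h7]; group
  · have hcL : c ∈ L := by
      have : c = r⁻¹ * (d * r') := by rw [h]; group
      rw [this]
      exact L.mul_mem (L.inv_mem hr) (L.mul_mem hd hr')
    rw [← hL d hd r' hr', ← hL r hr c hcL, h]

variable [MulAction G V]

/-- the local value -/
private def fi (n : V → G) (γ : G → A) (ψ : V → A) (g : G) (y : V) : A :=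
  γ (n (g • y) * g * (n y)⁻¹) * (ψ (g • y))⁻¹ * ψ y

private theorem fi_mul {X : SimpleGraph V} (hX : OnTree G X) {I : V → Subgroup G} (hI : Sat X I) {n : V → G}
    (hn : Lft X I n) {γ : G → A} (hγ : ∀ x, ∀ c ∈ I x, ∀ d ∈ I x, γ (c * d) = γ c * γ d) (ψ : V → A) (g h : G)
    (hg : g ∈ NN I) (hh : h ∈ NN I) (y : V) : fi n γ ψ (g * h) y = fi n γ ψ g (h • y) * fi n γ ψ h y := by
  obtain ⟨h1, h2⟩ := inv hX hI hn g hg (h • y)
  obtain ⟨h3, h4⟩ := inv hX hI hn h hh y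
  rw [h3] at h2
  unfold fi
  have h5 : n ((g * h) • y) * (g * h) * (n y)⁻¹ =
      n (g • h • y) * g * (n (h • y))⁻¹ * (n (h • y) * h * (n y)⁻¹) := by
    rw [mul_smul]; group
  rw [h5, hγ _ _ h2 _ h4, mul_smul]
  have : ∀ a b p q r : A, a * b * p⁻¹ * r = a * p⁻¹ * q * (b * q⁻¹ * r) := by
    intro a b p q r
    have e1 : a * p⁻¹ * q * (b * q⁻¹ * r) = a * b * p⁻¹ * r * (q * q⁻¹) := by
      simp only [mul_comm, mul_left_comm, mul_assoc]
    rw [e1, mul_inv_cancel, mul_one]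
  exact this _ _ _ _ _

private theorem fi_adj {X : SimpleGraph V} (hX : OnTree G X) {I : V → Subgroup G} (hI : Sat X I) {n : V → G}
    (hn : Lft X I n) {γ : G → A} (hγ : ∀ x, ∀ c ∈ I x, ∀ d ∈ I x, γ (c * d) = γ c * γ d) {ψ : V → A}
    (hψ : ∀ v w, X.Adj v w → ψ w = ψ v * γ (n w * (n v)⁻¹)) (g : G) (hg : g ∈ NN I) (y z : V) (hyz : X.Adj y z) :
    fi n γ ψ g y = fi n γ ψ g z := by
  obtain ⟨h1, h2⟩ := inv hX hI hn g hg y
  obtain ⟨h3, h4⟩ := inv hX hI hn g hg z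
  have h5 := hn.adj y z hyz
  have h6 := hn.adj (g • y) (g • z) (hX.adj g y z hyz)
  rw [h1, h3] at h6
  have h7 := four (hγ (n y • y)) (hγ (n z • z)) h2 h4 h6 h5 (by group)
  have h8 := hψ y z hyz
  have h9 := hψ (g • y) (g • z) (hX.adj g y z hyz)
  unfold fi
  rw [h8, h9]
  have : ∀ a b r s p q : A, b * s = r * a → a * p⁻¹ * q = b * (p * r)⁻¹ * (q * s) := by
    intro a b r s p q h
    have hb : b = r * a * s⁻¹ := by rw [← h]; group
    rw [hb, mul_inv, mul_comm r a]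
    have e1 : a * r * s⁻¹ * (p⁻¹ * r⁻¹) * (q * s) = a * (p⁻¹ * q) * (r * r⁻¹) * (s⁻¹ * s) := by
      simp only [mul_comm, mul_left_comm, mul_assoc]
    rw [e1]; simp [mul_assoc]
  exact this _ _ _ _ _ _ h7

end

theorem comm_triv {G V A : Type} [Group G] [CommGroup A] [MulAction G V] {X : SimpleGraph V} (hX : OnTree G X)
    {I : V → Subgroup G} (hI : Sat X I) {n : V → G} (hn : Lft X I n) (γ : G → A)
    (hγ : ∀ x, ∀ c ∈ I x, ∀ d ∈ I x, γ (c * d) = γ c * γ d) (hγ1 : ∀ x, ∀ c ∈ I x, γ c = 1 → c = 1)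
    (g : G) (hg : g ∈ ⁅NN I, NN I⁆) (x : V) (hx : g • x = x) : g = 1 := by
  obtain ⟨ψ, hψ⟩ := exists_potential hX.tree (fun x y => γ (n y * (n x)⁻¹)) (by
    intro v w hvw
    have h1 : (n v * (n w)⁻¹ : G) = (n w * (n v)⁻¹)⁻¹ := by group
    rw [h1]
    rcases hn.adj v w hvw with h | h
    · exact g_inv (hγ _) _ h
    · exact g_inv (hγ _) _ h)
  have hconst : ∀ g ∈ NN I, ∀ y z : V, fi n γ ψ g y = fi n γ ψ g z := by
    intro g hg y z
    obtain ⟨p⟩ := hX.tree.connected.preconnected y z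
    induction p with
    | nil => rfl
    | cons h p ih => exact (fi_adj hX hI hn hγ hψ g hg _ _ h).trans ih
  let φ : NN I →* A := MonoidHom.mk' (fun g => fi n γ ψ g x) (by
    intro a b
    show fi n γ ψ ((a : G) * b) x = fi n γ ψ a x * fi n γ ψ b x
    rw [fi_mul hX hI hn hγ ψ a b a.2 b.2 x, hconst a a.2 ((b : G) • x) x])
  have hle : ⁅NN I, NN I⁆ ≤ (φ.ker).map (NN I).subtype := by
    rw [Subgroup.commutator_le]
    intro a ha b hb
    refine ⟨(⟨a, ha⟩ : NN I) * ⟨b, hb⟩ * (⟨a, ha⟩ : NN I)⁻¹ * (⟨b, hb⟩ : NN I)⁻¹, ?_, rfl⟩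
    rw [SetLike.mem_coe, MonoidHom.mem_ker, map_mul, map_mul, map_mul, map_inv, map_inv, mul_right_comm, mul_inv_cancel_right,
      mul_inv_cancel]
  obtain ⟨a, ha, hag⟩ := hle hg
  have hag' : (a : G) = g := hag
  have hgN : g ∈ NN I := hag' ▸ a.2
  have h1 : fi n γ ψ g x = 1 := by
    rw [← hag']
    exact MonoidHom.mem_ker.1 ha
  unfold fi at h1
  obtain ⟨-, h2⟩ := inv hX hI hn g hgN x
  rw [hx] at h1 h2
  have h3 : γ (n x * g * (n x)⁻¹) = 1 := by
    rw [mul_assoc, inv_mul_cancel, mul_one] at h1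
    exact h1
  have h4 := hγ1 _ _ h2 h3
  have h5 : g = (n x)⁻¹ * (n x * g * (n x)⁻¹) * n x := by group
  rw [h5, h4]; group

end Pool.Agent.H50.GN
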