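import Pool.Agent.H50.GN.Lift
import Pool.Agent.H50.GN.Hom
import Pool.Agent.H50.GN.Stb
import Pool.Agent.H50.GN.Germ
import Pool.Agent.H50.GN.Chain
import Pool.Agent.H50.GN.ExtAb
import Pool.Agent.H75.CX.Vp1

/-!
# [GN16] Groups which commensurate a commutative subgroup
-/

set_option autoImplicit false

namespace Pool.Agent.H50.GN

open Pool.Agent.H98.FJ Pool.Agent.H93.TR Pool.Agent.H75.CX
open scoped commutatorElement

/-- the statement of the induction -/
def SS (C W : (G : Type) → [Group G] → Prop) (h : ℕ) : Prop :=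
  ∀ (G V : Type) [Group G] [MulAction G V] (X : SimpleGraph V), OnTree G X →
    (∀ v : V, W (MulAction.stabilizer G v)) →
    (∀ v w : V, X.Adj v w → VP (MulAction.stabilizer G v ⊓ MulAction.stabilizer G w : Subgroup G) ∧
      IC h (MulAction.stabilizer G v ⊓ MulAction.stabilizer G w : Subgroup G)) → C G

section

variable {C W : (G : Type) → [Group G] → Prop} {L V : Type} [Group L] [MulAction L V] {X : SimpleGraph V} {A : Subgroup L}

private theorem Pw.of_pow {G : Type} [Group G] {A : Subgroup G} {c : G} {k : ℕ} (hk : k ≠ 0) (h : Pw A (c ^ k)) : Pw A c := by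
  obtain ⟨m, hm, h1⟩ := h
  exact ⟨k * m, mul_ne_zero hk hm, by rwa [pow_mul]⟩

private theorem Pw.pow {G : Type} [Group G] {A : Subgroup G} {c : G} (h : Pw A c) (k : ℕ) : Pw A (c ^ k) := by
  obtain ⟨m, hm, h1⟩ := h
  refine ⟨m, hm, ?_⟩
  rw [← pow_mul, mul_comm, pow_mul]
  exact A.pow_mem h1 k

/-- commuting roots in the stabilisers -/
private theorem root_comm (hW : Cls C W) {x : V} (hx : W (MulAction.stabilizer L x)) {c d : L} (hc : c • x = x)
    (hd : d • x = x) {k m : ℕ} (hk : k ≠ 0) (hm : m ≠ 0) (h : c ^ k * d ^ m = d ^ m * c ^ k) : c * d = d * c := by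
  let c' : MulAction.stabilizer L x := ⟨c, hc⟩
  let d' : MulAction.stabilizer L x := ⟨d, hd⟩
  have h1 : Commute (c' ^ k) (d' ^ m) := Subtype.ext h
  have h2 : Commute c' (d' ^ m) := hW.root _ hx _ _ k hk h1
  have h3 : Commute d' c' := hW.root _ hx _ _ m hm h2.symm
  exact congrArg Subtype.val h3.symm.eq

private theorem tf_st (hW : Cls C W) {x : V} (hx : W (MulAction.stabilizer L x)) {c : L} (hc : c • x = x)
    {k : ℕ} (hk : k ≠ 0) (h : c ^ k = 1) : c = 1 := by
  have := hW.tf _ hx (⟨c, hc⟩ : MulAction.stabilizer L x) k hk (Subtype.ext h)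
  exact congrArg Subtype.val this

/-- the isolators in the stabilisers -/
private theorem exists_I (hW : Cls C W) (hv : ∀ v : V, W (MulAction.stabilizer L v)) (hA : Ab A) :
    ∃ I : V → Subgroup L, ∀ (x : V) (c : L), c ∈ I x ↔ c • x = x ∧ Pw A c := by
  refine ⟨fun x =>
    { carrier := {c | c • x = x ∧ Pw A c}
      one_mem' := ⟨one_smul L x, 1, one_ne_zero, by rw [one_pow]; exact A.one_mem⟩
      mul_mem' := ?_
      inv_mem' := ?_ }, fun x c => Iff.rfl⟩
  · rintro c d ⟨hc, k, hk, hck⟩ ⟨hd, m, hm, hdm⟩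
    have h := root_comm hW (hv x) hc hd hk hm (hA _ hck _ hdm)
    refine ⟨by rw [mul_smul, hd, hc], k * m, mul_ne_zero hk hm, ?_⟩
    rw [(show Commute c d from h).mul_pow, pow_mul c, mul_comm k m, pow_mul d]
    exact A.mul_mem (A.pow_mem hck m) (A.pow_mem hdm k)
  · rintro c ⟨hc, k, hk, hck⟩
    refine ⟨inv_smul_eq_iff.2 hc.symm, k, hk, ?_⟩
    rw [inv_pow]
    exact A.inv_mem hck

private theorem sat_I {I : V → Subgroup L} (hI : ∀ (x : V) (c : L), c ∈ I x ↔ c • x = x ∧ Pw A c)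
    (hconj : ∀ (g : L), ∀ a ∈ A, Pw A (g * a * g⁻¹)) : Sat X I where
  fix x c hc := ((hI x c).1 hc).1
  conj g x c hc := by
    obtain ⟨h1, k, hk, h2⟩ := (hI x c).1 hc
    refine (hI _ _).2 ⟨by rw [mul_smul, mul_smul, inv_smul_smul, h1], ?_⟩
    refine Pw.of_pow hk ?_
    rw [conj_pow]
    exact hconj g _ h2
  edge x y _ c hc hy := (hI y c).2 ⟨hy, ((hI x c).1 hc).2⟩

/-- a group acting on a tree which commensurates a commutative subgroup with powers in all stabilisers -/
theorem env (hC : Inherits C) (hE : Extension C) (hS : ∀ (G : Type) [Group G], Group.IsSolvable G → C G) (hW : Cls C W)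
    (h : ℕ) (ih : SS C W h) (hX : OnTree L X) (hv : ∀ v : V, W (MulAction.stabilizer L v))
    (he : ∀ v w : V, X.Adj v w → VP (MulAction.stabilizer L v ⊓ MulAction.stabilizer L w : Subgroup L) ∧
      IC (h + 1) (MulAction.stabilizer L v ⊓ MulAction.stabilizer L w : Subgroup L))
    (hA : Ab A) (htf : ∀ a ∈ A, ∀ k : ℕ, k ≠ 0 → a ^ k = 1 → a = 1)
    (hconj : ∀ (g : L), ∀ a ∈ A, Pw A (g * a * g⁻¹))
    (hfix : ∀ x : V, ∀ a ∈ A, ∃ k : ℕ, k ≠ 0 ∧ a ^ k • x = x) (h1 : ∃ a ∈ A, a ≠ 1) : C L := by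
  obtain ⟨I, hI⟩ := exists_I hW hv hA
  have hs : Sat X I := sat_I hI hconj
  obtain ⟨M, _, γ, hγ, hγ1⟩ := exists_germ A hA htf
  obtain ⟨n, hn⟩ := exists_lift hX hs
  have hN : (NN I).Normal := NN_normal hs
  have hfree : ∀ g ∈ ⁅NN I, NN I⁆, ∀ x : V, g • x = x → g = 1 := by
    intro g hg x hx
    refine comm_triv hX hs hn γ ?_ ?_ g hg x hx
    · intro x c hc d hd
      obtain ⟨hc1, k, hk, hc2⟩ := (hI x c).1 hc
      obtain ⟨hd1, m, hm, hd2⟩ := (hI x d).1 hd
      exact hγ c d (root_comm hW (hv x) hc1 hd1 hk hm (hA _ hc2 _ hd2)) ⟨k, hk, hc2⟩ ⟨m, hm, hd2⟩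
    · intro x c hc h2
      obtain ⟨hc1, hc2⟩ := (hI x c).1 hc
      obtain ⟨k, hk, h3⟩ := hγ1 c hc2 h2
      exact tf_st hW (hv x) hc1 hk h3
  -- the quotient by `NN I`
  have hQ : C (L ⧸ NN I) := by
    refine ih (L ⧸ NN I) (Orb (NN I) V) (qg X (NN I)) (quot_tree hX hs hn) ?_ ?_
    · intro o
      obtain ⟨x, rfl⟩ := orb_surj (NN I) o
      obtain ⟨f, hf, hf1⟩ := vert hX hs hn x
      refine hW.quot _ _ f (hv x) hf ⟨A.subgroupOf (MulAction.stabilizer L x), ?_, ?_, ?_⟩
      · intro a ha b hb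
        exact Subtype.ext (hA _ ha _ hb)
      · intro g a ha
        obtain ⟨k, hk, h2⟩ := hconj g a ha
        refine ⟨k, hk, ?_⟩
        rw [Subgroup.mem_subgroupOf]
        exact h2
      · intro c
        rw [hf1 c, hI]
        constructor
        · rintro ⟨-, k, hk, h2⟩
          exact ⟨k, hk, h2⟩
        · rintro ⟨k, hk, h2⟩
          exact ⟨c.2, k, hk, h2⟩
    · intro a b hab
      obtain ⟨x, y, hxy, f, hf, hf1⟩ := edge hX hs hn a b hab
      obtain ⟨h2, h3⟩ := he x y hxy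
      refine ⟨?_, ?_⟩
      · exact vp_surj f hf h2
      · refine IC.quot f hf ?_ h3
        obtain ⟨a, ha, ha1⟩ := h1
        obtain ⟨k, hk, hkx⟩ := hfix x a ha
        obtain ⟨m, hm, hmy⟩ := hfix y a ha
        have hx : a ^ (k * m) • x = x := by
          rw [pow_mul]
          exact (MulAction.stabilizer L x).pow_mem (show a ^ k ∈ MulAction.stabilizer L x from hkx) m
        have hy : a ^ (k * m) • y = y := by
          rw [mul_comm, pow_mul]
          exact (MulAction.stabilizer L y).pow_mem (show a ^ m ∈ MulAction.stabilizer L y from hmy) k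
        let b : (MulAction.stabilizer L x ⊓ MulAction.stabilizer L y : Subgroup L) := ⟨a ^ (k * m), hx, hy⟩
        have hb : ∀ j : ℕ, b ^ j ∈ f.ker := by
          intro j
          rw [MonoidHom.mem_ker, hf1, hI]
          refine ⟨(b ^ j).2.1, 1, one_ne_zero, ?_⟩
          rw [pow_one]
          show (a ^ (k * m)) ^ j ∈ A
          exact A.pow_mem (A.pow_mem ha _) _
        refine Set.infinite_of_injective_forall_mem (f := fun j : ℕ => b ^ j) ?_ hb
        have hb1 : ∀ j : ℕ, j ≠ 0 → b ^ j ≠ 1 := by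
          intro j hj h4
          have h5 : (a ^ (k * m)) ^ j = 1 := congrArg Subtype.val h4
          rw [← pow_mul] at h5
          exact ha1 (htf a ha _ (mul_ne_zero (mul_ne_zero hk hm) hj) h5)
        exact injective_pow_iff_not_isOfFinOrder.2 (by
          intro h4
          obtain ⟨j, hj, h5⟩ := isOfFinOrder_iff_pow_eq_one.1 h4
          exact hb1 j hj.ne' h5)
  -- the quotient by the commutator subgroup
  have hle : ⁅NN I, NN I⁆ ≤ NN I := Subgroup.commutator_le_left _ _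
  have hQ' : C (L ⧸ ⁅NN I, NN I⁆) := by
    let p : (L ⧸ ⁅NN I, NN I⁆) →* (L ⧸ NN I) := QuotientGroup.map _ _ (MonoidHom.id L) (by simpa using hle)
    have hpk : ∀ q ∈ p.ker, ∃ a ∈ NN I, q = QuotientGroup.mk a := by
      intro q hq
      obtain ⟨a, rfl⟩ := QuotientGroup.mk_surjective q
      refine ⟨a, ?_, rfl⟩
      rw [MonoidHom.mem_ker] at hq
      exact (QuotientGroup.eq_one_iff a).1 hq
    refine ext_ab hC hE hS p ?_ hQ ?_
    · intro q
      obtain ⟨a, rfl⟩ := QuotientGroup.mk_surjective q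
      exact ⟨QuotientGroup.mk a, rfl⟩
    · intro x hx y hy
      obtain ⟨a, ha, rfl⟩ := hpk x hx
      obtain ⟨b, hb, rfl⟩ := hpk y hy
      rw [← QuotientGroup.mk_mul, ← QuotientGroup.mk_mul, QuotientGroup.eq]
      have : (a * b)⁻¹ * (b * a) = ⁅b⁻¹, a⁻¹⁆ := by
        rw [commutatorElement_def]
        group
      rw [this]
      exact Subgroup.commutator_mem_commutator ((NN I).inv_mem hb) ((NN I).inv_mem ha)
  refine main hC hE hX (fun v => hW.mem _ (hv v)) hQ' (QuotientGroup.mk' ⁅NN I, NN I⁆) ?_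
  intro g hg v w _ hv' _
  rw [QuotientGroup.ker_mk'] at hg
  exact hfree g hg v hv'

end

end Pool.Agent.H50.GN
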