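import Pool.Agent.H50.GN.Defs

/-!
# [GN13] Invariant subtrees with finitely many orbits of edges

Proof. Let `K` be generated by the finite set `S`, `v₀` a vertex. The set `U` of the vertices on the paths from `g • v₀` to `g • s • v₀`, `g ∈ K`,
`s ∈ S`, is invariant and connected; every edge of the induced graph on `U`: take instead the subgraph formed by the edges of these
paths; it is connected, and a connected subgraph of a tree is the induced graph on its vertex set. So every edge is a translate of an edge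
of one of the finitely many paths from `v₀` to `s • v₀`. (If `S` is empty or trivial `U = {v₀}`.)
-/

set_option autoImplicit false

namespace Pool.Agent.H50.GN

open Pool.Agent.H98.FJ Pool.Agent.H93.TR

section finOrb

variable {G V : Type} [Group G] [MulAction G V] {X : SimpleGraph V}

/-- the graph formed by the translates of the edges in `F` -/
private def trG (hX : OnTree G X) (F : Set (V × V)) (hF : ∀ p ∈ F, (p.2, p.1) ∈ F) : SimpleGraph V where
  Adj x y := ∃ (g : G) (p : V × V), p ∈ F ∧ X.Adj p.1 p.2 ∧ g • p.1 = x ∧ g • p.2 = y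
  symm := ⟨by
    rintro x y ⟨g, p, hp, h, h1, h2⟩
    exact ⟨g, (p.2, p.1), hF p hp, h.symm, h2, h1⟩⟩
  loopless := ⟨by
    rintro x ⟨g, p, hp, h, h1, h2⟩
    have h3 := hX.adj g _ _ h
    rw [h1, h2] at h3
    exact h3.ne rfl⟩

private theorem trG_le (hX : OnTree G X) (F : Set (V × V)) (hF : ∀ p ∈ F, (p.2, p.1) ∈ F) :
    trG hX F hF ≤ X := by
  rintro x y ⟨g, p, hp, h, h1, h2⟩
  have h3 := hX.adj g _ _ h
  rw [h1, h2] at h3
  exact h3

private theorem trG_smul (hX : OnTree G X) (F : Set (V × V)) (hF : ∀ p ∈ F, (p.2, p.1) ∈ F) (a : G) {x y : V}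
    (h : (trG hX F hF).Adj x y) : (trG hX F hF).Adj (a • x) (a • y) := by
  obtain ⟨g, p, hp, h, h1, h2⟩ := h
  exact ⟨a * g, p, hp, h, by rw [mul_smul, h1], by rw [mul_smul, h2]⟩

private theorem reach_smul (hX : OnTree G X) (F : Set (V × V)) (hF : ∀ p ∈ F, (p.2, p.1) ∈ F) (a : G) {x y : V}
    (h : (trG hX F hF).Reachable x y) : (trG hX F hF).Reachable (a • x) (a • y) := by
  obtain ⟨w⟩ := h
  induction w with
  | nil => exact SimpleGraph.Reachable.refl _
  | cons h p ih => exact (trG_smul hX F hF a h).reachable.trans ih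

private theorem reach_induce (Y : SimpleGraph V) (hY : Y ≤ X) (U : Set V) (hU : ∀ x y, x ∈ U → Y.Adj x y → y ∈ U) {x y : V}
    (w : Y.Walk x y) : ∀ (hx : x ∈ U) (hy : y ∈ U), (X.induce U).Reachable ⟨x, hx⟩ ⟨y, hy⟩ := by
  induction w with
  | nil => exact fun hx hy => SimpleGraph.Reachable.refl _
  | @cons u v w h p ih =>
    intro hx hy
    have hv : v ∈ U := hU _ _ hx h
    have h1 : (X.induce U).Adj ⟨u, hx⟩ ⟨v, hv⟩ := hY h
    exact h1.reachable.trans (ih hv hy)

end finOrb

theorem fin_orb {G V : Type} [Group G] [MulAction G V] {X : SimpleGraph V} (hX : OnTree G X) (hG : Group.FG G) :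
    ∃ (U : Set V) (hU : ∀ (g : G), ∀ x ∈ U, g • x ∈ U),
      (X.induce U).IsTree ∧ ∃ F : Set (V × V), F.Finite ∧ ∀ x ∈ U, ∀ y ∈ U, X.Adj x y →
        ∃ (g : G) (p : V × V), p ∈ F ∧ X.Adj p.1 p.2 ∧ g • p.1 = x ∧ g • p.2 = y := by
  classical
  obtain ⟨S, hS, hfin⟩ := Group.fg_iff.1 hG
  obtain ⟨v₀⟩ := hX.tree.connected.nonempty
  have hw : ∀ s : G, ∃ w : X.Walk v₀ (s • v₀), True := fun s =>
    ⟨(hX.tree.connected.preconnected v₀ (s • v₀)).some, trivial⟩
  choose w hw using hw
  let F : Set (V × V) := {p | ∃ s ∈ S, p.1 ∈ (w s).support ∧ p.2 ∈ (w s).support}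
  have hFs : ∀ p ∈ F, (p.2, p.1) ∈ F := by
    rintro p ⟨s, hs, h1, h2⟩
    exact ⟨s, hs, h2, h1⟩
  have hFf : F.Finite := by
    have h1 : F ⊆ ⋃ s ∈ S, ({x | x ∈ (w s).support} ×ˢ {x | x ∈ (w s).support}) := by
      rintro p ⟨s, hs, h1, h2⟩
      simp only [Set.mem_iUnion]
      exact ⟨s, hs, h1, h2⟩
    refine (hfin.biUnion fun s _ => ?_).subset h1
    exact (List.finite_toSet _).prod (List.finite_toSet _)
  let Y : SimpleGraph V := trG hX F hFs
  have hYX : Y ≤ X := trG_le hX F hFs
  have hgen : ∀ s ∈ S, Y.Reachable v₀ (s • v₀) := by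
    intro s hs
    refine ⟨(w s).transfer Y ?_⟩
    intro e he
    induction e using Sym2.ind with
    | _ x y =>
      have hadj : X.Adj x y := (w s).adj_of_mem_edges he
      exact ⟨1, (x, y), ⟨s, hs, (w s).fst_mem_support_of_mem_edges he, (w s).snd_mem_support_of_mem_edges he⟩, hadj,
        one_smul _ _, one_smul _ _⟩
  have hall : ∀ g : G, Y.Reachable v₀ (g • v₀) := by
    intro g
    have hg : g ∈ Subgroup.closure S := by rw [hS]; trivial
    induction hg using Subgroup.closure_induction with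
    | mem x hx => exact hgen x hx
    | one => rw [one_smul]
    | mul x y _ _ hx hy =>
      rw [mul_smul]
      exact hx.trans (reach_smul hX F hFs x hy)
    | inv x _ hx =>
      have h := reach_smul hX F hFs x⁻¹ hx
      rw [smul_smul, inv_mul_cancel, one_smul] at h
      exact h.symm
  let U : Set V := {x | Y.Reachable v₀ x}
  have hU : ∀ (g : G), ∀ x ∈ U, g • x ∈ U := fun g x hx => (hall g).trans (reach_smul hX F hFs g hx)
  have hv : v₀ ∈ U := SimpleGraph.Reachable.refl _
  refine ⟨U, hU, ⟨?_, hX.tree.isAcyclic.induce U⟩, F, hFf, ?_⟩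
  · rw [SimpleGraph.connected_iff]
    refine ⟨?_, ⟨⟨v₀, hv⟩⟩⟩
    have h1 : ∀ x : U, (X.induce U).Reachable ⟨v₀, hv⟩ x := by
      rintro ⟨x, hx⟩
      have hx' : Y.Reachable v₀ x := hx
      obtain ⟨p⟩ := id hx'
      exact reach_induce Y hYX U (fun a b ha hab => (ha : Y.Reachable v₀ a).trans hab.reachable) p hv hx
    intro x y
    exact (h1 x).symm.trans (h1 y)
  · intro x hx y hy hxy
    obtain ⟨p⟩ : Y.Reachable x y := (hx : Y.Reachable v₀ x).symm.trans hy
    have hb := (SimpleGraph.isAcyclic_iff_forall_adj_isBridge.1 hX.tree.isAcyclic) hxy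
    rw [SimpleGraph.isBridge_iff_forall_walk_mem_edges] at hb
    have h1 := hb (p.mapLe hYX)
    rw [SimpleGraph.Walk.edges_mapLe_eq_edges] at h1
    exact p.adj_of_mem_edges h1

end Pool.Agent.H50.GN
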