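import Pool.Agent.H50.GN.Chain
import Pool.Agent.H75.CX.Vp2

/-!
# [GN21] Chains of subgroups of virtually polycyclic groups

Proof. `ch_vpn` for the descending sequence `B (n + 1), B n, .., B 0, B 0, ..`: if all of the `n + 1` indices were infinite there would be more than
`n` of them.
-/

set_option autoImplicit false

namespace Pool.Agent.H50.GN

open Pool.Agent.H98.FJ Pool.Agent.H93.TR Pool.Agent.H75.CX

theorem IC.vp {G : Type} [Group G] (h : VP G) : ∃ n, IC n G := by
  obtain ⟨n, hn⟩ := h
  refine ⟨n, ?_⟩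
  intro B hB
  by_contra hcon
  have h0 : ∀ i, i ≤ n → (B i).relIndex (B (i + 1)) = 0 := by
    intro i hi
    by_contra h1
    exact hcon ⟨i, hi, h1⟩
  have h1 := ch_vpn hn (fun i => B (n + 1 - i)) (fun _ => trivial) (by
    intro i
    show B (n + 1 - (i + 1)) ≤ B (n + 1 - i)
    by_cases hi : i ≤ n
    · have h2 : n + 1 - i = (n + 1 - (i + 1)) + 1 := by omega
      rw [h2]
      exact hB _
    · have h2 : n + 1 - i = n + 1 - (i + 1) := by omega
      rw [h2]) (n + 1)
  have h2 : {i | i < n + 1 ∧ (B (n + 1 - (i + 1))).relIndex (B (n + 1 - i)) = 0} = Set.Iio (n + 1) := by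
    ext i
    simp only [Set.mem_setOf_eq, Set.mem_Iio, and_iff_left_iff_imp]
    intro hi
    have h3 : n + 1 - i = (n + 1 - (i + 1)) + 1 := by omega
    rw [h3]
    exact h0 _ (by omega)
  have h3 : (Set.Iio (n + 1)).ncard ≤ n := by
    rw [← h2]
    exact h1
  rw [Set.ncard_eq_toFinset_card', Set.toFinset_Iio] at h3
  simp at h3

end Pool.Agent.H50.GN
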