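import Pool.Agent.H50.GN.Ind
import Pool.Agent.H50.GN.ICvp
import Pool.Agent.H50.GN.FinOrb

/-!
# [GN18] Groups acting on trees with vertex stabilisers in `W` and virtually polycyclic edge stabilisers
-/

set_option autoImplicit false

namespace Pool.Agent.H50.GN

open Pool.Agent.H98.FJ Pool.Agent.H93.TR Pool.Agent.H76.GT Pool.Agent.H75.CX

section

variable {C W : (G : Type) → [Group G] → Prop}

/-- the action on an invariant set -/
private abbrev uact {G V : Type} [Group G] [MulAction G V] (U : Set V) (hU : ∀ (g : G), ∀ x ∈ U, g • x ∈ U) :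
    MulAction G U where
  smul g x := ⟨g • x.1, hU g x.1 x.2⟩
  one_smul x := Subtype.ext (one_smul G x.1)
  mul_smul g h x := Subtype.ext (mul_smul g h x.1)

/-- finitely generated groups -/
private theorem gn_fg (hC : Inherits C) (hE : Extension C) (hT : Transfer C)
    (hS : ∀ (G : Type) [Group G], Group.IsSolvable G → C G) (hW : Cls C W) {G V : Type} [Group G] [MulAction G V]
    {X : SimpleGraph V} (hX : OnTree G X) (hG : Group.FG G) (hv : ∀ v : V, W (MulAction.stabilizer G v))
    (he : ∀ v w : V, X.Adj v w → VP (MulAction.stabilizer G v ⊓ MulAction.stabilizer G w : Subgroup G)) : C G := by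
  classical
  obtain ⟨U, hU, hUt, F, hF, hFe⟩ := fin_orb hX hG
  letI := uact U hU
  have key : ∀ p : V × V, ∃ n, X.Adj p.1 p.2 →
      IC n (MulAction.stabilizer G p.1 ⊓ MulAction.stabilizer G p.2 : Subgroup G) := by
    intro p
    by_cases hp : X.Adj p.1 p.2
    · obtain ⟨n, hn⟩ := IC.vp (he p.1 p.2 hp)
      exact ⟨n, fun _ => hn⟩
    · exact ⟨0, fun h => absurd h hp⟩
  choose n hn using key
  obtain ⟨m, hm⟩ := (hF.image n).bddAbove
  refine ss hC hE hT hS hW m G U (X.induce U) ⟨hUt, fun g v w h => hX.adj g v.1 w.1 h⟩ ?_ ?_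
  · intro v
    let f : MulAction.stabilizer G v →* MulAction.stabilizer G v.1 :=
      { toFun := fun g => ⟨g.1, congrArg Subtype.val g.2⟩
        map_one' := rfl
        map_mul' := fun _ _ => rfl }
    refine hW.inj _ _ f ?_ (hv v.1)
    intro x y hxy
    exact Subtype.ext (congrArg (fun z : MulAction.stabilizer G v.1 => (z : G)) hxy)
  · intro v w hvw
    have hvw' : X.Adj v.1 w.1 := hvw
    constructor
    · let f : (MulAction.stabilizer G v ⊓ MulAction.stabilizer G w : Subgroup G) →*
          (MulAction.stabilizer G v.1 ⊓ MulAction.stabilizer G w.1 : Subgroup G) :=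
        { toFun := fun g => ⟨g.1, congrArg Subtype.val g.2.1, congrArg Subtype.val g.2.2⟩
          map_one' := rfl
          map_mul' := fun _ _ => rfl }
      refine vp_inj f ?_ (he v.1 w.1 hvw')
      intro x y hxy
      exact Subtype.ext (congrArg
        (fun z : (MulAction.stabilizer G v.1 ⊓ MulAction.stabilizer G w.1 : Subgroup G) => (z : G)) hxy)
    · obtain ⟨g, p, hp, hpa, h1, h2⟩ := hFe v.1 v.2 w.1 w.2 hvw'
      have hnp : n p ≤ m := hm ⟨p, hp, rfl⟩
      refine IC.mono hnp ?_
      have hst : ∀ (x : U) (q : V), g • q = x.1 → ∀ k : G, k ∈ MulAction.stabilizer G x →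
          g⁻¹ * k * g ∈ MulAction.stabilizer G q := by
        intro x q hq k hk
        have hk' : k • x.1 = x.1 := congrArg Subtype.val hk
        show (g⁻¹ * k * g) • q = q
        rw [mul_smul, mul_smul, hq, hk', ← hq, inv_smul_smul]
      let f : (MulAction.stabilizer G v ⊓ MulAction.stabilizer G w : Subgroup G) →*
          (MulAction.stabilizer G p.1 ⊓ MulAction.stabilizer G p.2 : Subgroup G) :=
        { toFun := fun k => ⟨g⁻¹ * k.1 * g, hst v p.1 h1 k.1 k.2.1, hst w p.2 h2 k.1 k.2.2⟩
          map_one' := Subtype.ext (by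
            show g⁻¹ * 1 * g = 1
            rw [mul_one, inv_mul_cancel])
          map_mul' := fun x y => Subtype.ext (by
            show g⁻¹ * (x.1 * y.1) * g = g⁻¹ * x.1 * g * (g⁻¹ * y.1 * g)
            group) }
      refine IC.inj f ?_ (hn p hpa)
      intro x y hxy
      have h3 : g⁻¹ * x.1 * g = g⁻¹ * y.1 * g := congrArg
        (fun z : (MulAction.stabilizer G p.1 ⊓ MulAction.stabilizer G p.2 : Subgroup G) => (z : G)) hxy
      exact Subtype.ext (mul_left_cancel (mul_right_cancel h3))

/-- **graphs of groups**: vertex stabilisers in `W`, edge stabilisers virtually polycyclic -/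
theorem gn (hC : Inherits C) (hE : Extension C) (hT : Transfer C)
    (hS : ∀ (G : Type) [Group G], Group.IsSolvable G → C G) (hW : Cls C W) {G V : Type} [Group G] [MulAction G V]
    {X : SimpleGraph V} (hX : OnTree G X) (hv : ∀ v : V, W (MulAction.stabilizer G v))
    (he : ∀ v w : V, X.Adj v w → VP (MulAction.stabilizer G v ⊓ MulAction.stabilizer G w : Subgroup G)) : C G := by
  refine hC.union (ι := Finset G) (fun s => Subgroup.closure (s : Set G))
    (fun s t hst => Subgroup.closure_mono (by exact_mod_cast hst))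
    (fun g => ⟨{g}, Subgroup.subset_closure (by simp)⟩) ?_
  intro s
  have hfg : Group.FG (Subgroup.closure (s : Set G)) := (Group.fg_iff_subgroup_fg _).2 ⟨s, rfl⟩
  have hXs : OnTree (Subgroup.closure (s : Set G)) X := ⟨hX.tree, fun g v w h => hX.adj (g : G) v w h⟩
  refine gn_fg hC hE hT hS hW hXs hfg ?_ ?_
  · intro v
    let f : MulAction.stabilizer (Subgroup.closure (s : Set G)) v →* MulAction.stabilizer G v :=
      { toFun := fun g => ⟨(g.1 : G), g.2⟩
        map_one' := rfl
        map_mul' := fun _ _ => rfl }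
    refine hW.inj _ _ f ?_ (hv v)
    intro x y hxy
    exact Subtype.ext (Subtype.ext (congrArg (fun z : MulAction.stabilizer G v => (z : G)) hxy))
  · intro v w hvw
    let f : (MulAction.stabilizer (Subgroup.closure (s : Set G)) v ⊓
        MulAction.stabilizer (Subgroup.closure (s : Set G)) w : Subgroup (Subgroup.closure (s : Set G))) →*
        (MulAction.stabilizer G v ⊓ MulAction.stabilizer G w : Subgroup G) :=
      { toFun := fun g => ⟨(g.1 : G), g.2.1, g.2.2⟩
        map_one' := rfl
        map_mul' := fun _ _ => rfl }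
    have hf : Function.Injective f := by
      intro x y hxy
      exact Subtype.ext (Subtype.ext (congrArg
        (fun z : (MulAction.stabilizer G v ⊓ MulAction.stabilizer G w : Subgroup G) => (z : G)) hxy))
    exact vp_inj f hf (he v w hvw)

end

end Pool.Agent.H50.GN
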