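import Pool.Agent.H50.GN.Cen
import Pool.Agent.H75.CX.Vp2
import Pool.Agent.H75.CX.Vp4
import Pool.Agent.H81.SC.Fit

/-!
# [GN20] Virtually polycyclic groups: a commensurated commutative subgroup

Proof. Let `B` be virtually polycyclic (`VP`), torsion-free and infinite. `HL j K`: there is a descending chain of subgroups of `K` with `j` infinite
indices; `j ≤ n` if `K ≤ B`, `VPn n B` (`HL_bd`), invariant under subgroups of finite index (`HL_fin`) and conjugation (`HL_conj`). `Cand B N`: `N` is nilpotent and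
normal in a subgroup `B'` of finite index of `B`. Let `j` be the largest number such that some candidate `N` has `HL j N`. By Fitting's theorem two candidates with this
`j` are commensurable (`cand_comm`: both have finite index in their product, after intersection with a subgroup of finite index of `B`). So `N` and `g N g⁻¹ ∩ B` are
commensurable for `g` in the commensurator of `B`. `j ≥ 1`: `B` has a solvable subgroup of finite index (`vp_solv`), the last term `≠ 1` of its derived series is commutative,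
and infinite since `B` is torsion-free. Let `A` be the center of `N`: `comm_center` and `center_inf` (`Cen.lean`).
-/

set_option autoImplicit false

namespace Pool.Agent.H50.GN

open Pool.Agent.H98.FJ Pool.Agent.H93.TR Pool.Agent.H75.CX
open Subgroup.Commensurable (commensurator)
open scoped Pointwise

/-- there is a chain with `j` infinite indices -/
private def HL {G : Type} [Group G] : ℕ → Subgroup G → Prop
  | 0, _ => True
  | j + 1, K => ∃ L : Subgroup G, L ≤ K ∧ L.relIndex K = 0 ∧ HL j L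

private theorem HL_seq {G : Type} [Group G] {j : ℕ} {K : Subgroup G} (h : HL j K) :
    ∃ P : ℕ → Subgroup G, P 0 = K ∧ (∀ i, P (i + 1) ≤ P i) ∧ ∀ i, i < j → (P (i + 1)).relIndex (P i) = 0 := by
  induction j generalizing K with
  | zero => exact ⟨fun _ => K, rfl, fun _ => le_rfl, fun i hi => absurd hi (Nat.not_lt_zero i)⟩
  | succ j ih =>
    obtain ⟨L, hL, h0, hj⟩ := h
    obtain ⟨P, hP0, hP, hP1⟩ := ih hj
    refine ⟨fun i => Nat.casesOn i K P, rfl, fun i => ?_, fun i hi => ?_⟩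
    · cases i with
      | zero =>
        show P 0 ≤ K
        rw [hP0]
        exact hL
      | succ i => exact hP i
    · cases i with
      | zero =>
        show (P 0).relIndex K = 0
        rw [hP0]
        exact h0
      | succ i => exact hP1 i (Nat.lt_of_succ_lt_succ hi)

private theorem HL_bd {G : Type} [Group G] {n j : ℕ} {B K : Subgroup G} (hB : VPn n B) (hK : K ≤ B) (h : HL j K) :
    j ≤ n := by
  obtain ⟨P, hP0, hP, hP1⟩ := HL_seq h
  have hanti : ∀ i, P i ≤ B := fun i => (antitone_nat_of_succ_le hP (Nat.zero_le i)).trans (by rw [hP0]; exact hK)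
  have h1 := ch_sub hB P hanti hP j
  have h2 : {i | i < j ∧ (P (i + 1)).relIndex (P i) = 0} = Set.Iio j := by
    ext i
    exact ⟨fun hi => hi.1, fun hi => ⟨hi, hP1 i hi⟩⟩
  rw [h2] at h1
  simpa using h1

private theorem HL_fin {G : Type} [Group G] {j : ℕ} {K K' : Subgroup G} (hK : K' ≤ K) (h0 : K'.relIndex K ≠ 0)
    (h : HL j K) : HL j K' := by
  induction j generalizing K K' with
  | zero => trivial
  | succ j ih =>
    obtain ⟨L, hL, hL0, hj⟩ := h
    have h1 : K'.relIndex L ≠ 0 := fun h2 => h0 (Subgroup.relIndex_eq_zero_of_le_right hL h2)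
    have h2 : (L ⊓ K').relIndex L ≠ 0 := by
      rw [inf_comm, Subgroup.inf_relIndex_right]
      exact h1
    refine ⟨L ⊓ K', inf_le_right, ?_, ih inf_le_left h2 hj⟩
    by_contra h3
    have h4 : (L ⊓ K').relIndex K ≠ 0 := Subgroup.relIndex_ne_zero_trans h3 h0
    exact h4 (Subgroup.relIndex_eq_zero_of_le_left inf_le_left hL0)

private theorem HL_conj {G : Type} [Group G] {j : ℕ} {K : Subgroup G} (g : ConjAct G) (h : HL j K) : HL j (g • K) := by
  induction j generalizing K with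
  | zero => trivial
  | succ j ih =>
    obtain ⟨L, hL, hL0, hj⟩ := h
    refine ⟨g • L, Subgroup.pointwise_smul_le_pointwise_smul_iff.2 hL, ?_, ih hj⟩
    rw [Subgroup.relIndex_pointwise_smul]
    exact hL0

/-- nilpotent and normal in a subgroup of finite index of `B` -/
private structure Cand {G : Type} [Group G] (B N : Subgroup G) : Prop where
  nil : ∃ n, N.lowerCentralSeries n = ⊥
  ex : ∃ B' : Subgroup G, B' ≤ B ∧ B'.relIndex B ≠ 0 ∧ N ≤ B' ∧ ∀ b ∈ B', ∀ x ∈ N, b * x * b⁻¹ ∈ N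

private theorem lcs_mono {G : Type} [Group G] {N N' : Subgroup G} (h : N' ≤ N) (hn : ∃ n, N.lowerCentralSeries n = ⊥) :
    ∃ n, N'.lowerCentralSeries n = ⊥ := by
  obtain ⟨n, hn⟩ := hn
  refine ⟨n, ?_⟩
  rw [eq_bot_iff, ← hn]
  exact Subgroup.lowerCentralSeries_mono n h

private theorem lcs_conj {G : Type} [Group G] {N : Subgroup G} (g : ConjAct G) (hn : ∃ n, N.lowerCentralSeries n = ⊥) :
    ∃ n, (g • N).lowerCentralSeries n = ⊥ := by
  obtain ⟨n, hn⟩ := hn
  refine ⟨n, ?_⟩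
  have h1 := Subgroup.map_lowerCentralSeries N (MulDistribMulAction.toMonoidEnd (ConjAct G) G g) n
  rw [hn, Subgroup.map_bot] at h1
  exact h1.symm

private theorem rel_inf {G : Type} [Group G] {A B K : Subgroup G} (hK : K ≤ B) (hA : A.relIndex B ≠ 0) :
    (K ⊓ A).relIndex K ≠ 0 := by
  rw [inf_comm, Subgroup.inf_relIndex_right]
  exact fun h => hA (Subgroup.relIndex_eq_zero_of_le_right hK h)

/-- Fitting's theorem for two subgroups normalised by `D` -/
private theorem fit_sup {G : Type} [Group G] {D N1 N2 : Subgroup G} (h1 : N1 ≤ D) (h2 : N2 ≤ D)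
    (n1 : ∀ b ∈ D, ∀ x ∈ N1, b * x * b⁻¹ ∈ N1) (n2 : ∀ b ∈ D, ∀ x ∈ N2, b * x * b⁻¹ ∈ N2)
    (l1 : ∃ n, N1.lowerCentralSeries n = ⊥) (l2 : ∃ n, N2.lowerCentralSeries n = ⊥) :
    ∃ M : Subgroup G, N1 ≤ M ∧ N2 ≤ M ∧ M ≤ D ∧ (∀ b ∈ D, ∀ x ∈ M, b * x * b⁻¹ ∈ M) ∧
      ∃ n, M.lowerCentralSeries n = ⊥ := by
  have e1 : (N1.subgroupOf D).map D.subtype = N1 := by
    rw [Subgroup.subgroupOf_map_subtype, inf_eq_left]
    exact h1
  have e2 : (N2.subgroupOf D).map D.subtype = N2 := by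
    rw [Subgroup.subgroupOf_map_subtype, inf_eq_left]
    exact h2
  have i1 : (N1.subgroupOf D).Normal := ⟨fun x hx b => n1 b b.2 x hx⟩
  have i2 : (N2.subgroupOf D).Normal := ⟨fun x hx b => n2 b b.2 x hx⟩
  obtain ⟨a, ha⟩ := l1
  obtain ⟨b, hb⟩ := l2
  have ha' : (N1.subgroupOf D).lowerCentralSeries a = ⊥ := by
    rw [← Subgroup.map_subtype_inj, Subgroup.map_lowerCentralSeries, e1, ha, Subgroup.map_bot]
  have hb' : (N2.subgroupOf D).lowerCentralSeries b = ⊥ := by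
    rw [← Subgroup.map_subtype_inj, Subgroup.map_lowerCentralSeries, e2, hb, Subgroup.map_bot]
  have hf := H81.SC.Fit.fitting (N1.subgroupOf D) (N2.subgroupOf D) ha' hb'
  have hN : (N1.subgroupOf D ⊔ N2.subgroupOf D).Normal := inferInstance
  refine ⟨(N1.subgroupOf D ⊔ N2.subgroupOf D).map D.subtype, ?_, ?_, ?_, ?_, a + b, ?_⟩
  · conv_lhs => rw [← e1]
    exact Subgroup.map_mono le_sup_left
  · conv_lhs => rw [← e2]
    exact Subgroup.map_mono le_sup_right
  · rintro _ ⟨x, _, rfl⟩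
    exact x.2
  · rintro c hc _ ⟨x, hx, rfl⟩
    exact ⟨_, hN.conj_mem x hx ⟨c, hc⟩, rfl⟩
  · rw [← Subgroup.map_lowerCentralSeries, hf, Subgroup.map_bot]

private theorem cand_comm {G : Type} [Group G] {B N1 N2 : Subgroup G} {j : ℕ} (h1 : Cand B N1) (h2 : Cand B N2)
    (hj1 : HL j N1) (hj2 : HL j N2) (hmax : ∀ N, Cand B N → ¬ HL (j + 1) N) : Subgroup.Commensurable N1 N2 := by
  obtain ⟨B1, hB1, hB1', hN1, hc1⟩ := h1.ex
  obtain ⟨B2, hB2, hB2', hN2, hc2⟩ := h2.ex
  have hD : (B1 ⊓ B2).relIndex B ≠ 0 := Subgroup.relIndex_inf_ne_zero hB1' hB2'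
  have r1 : (N1 ⊓ (B1 ⊓ B2)).relIndex N1 ≠ 0 := rel_inf (hN1.trans hB1) hD
  have r2 : (N2 ⊓ (B1 ⊓ B2)).relIndex N2 ≠ 0 := rel_inf (hN2.trans hB2) hD
  obtain ⟨M, hM1, hM2, hMD, hMn, hMl⟩ := fit_sup (D := B1 ⊓ B2) (N1 := N1 ⊓ (B1 ⊓ B2)) (N2 := N2 ⊓ (B1 ⊓ B2)) inf_le_right
    inf_le_right (fun b hb x hx => ⟨hc1 b hb.1 x hx.1, (B1 ⊓ B2).mul_mem ((B1 ⊓ B2).mul_mem hb hx.2) ((B1 ⊓ B2).inv_mem hb)⟩)
    (fun b hb x hx => ⟨hc2 b hb.2 x hx.1, (B1 ⊓ B2).mul_mem ((B1 ⊓ B2).mul_mem hb hx.2) ((B1 ⊓ B2).inv_mem hb)⟩)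
    (lcs_mono inf_le_left h1.nil) (lcs_mono inf_le_left h2.nil)
  have hM : Cand B M := ⟨hMl, B1 ⊓ B2, inf_le_left.trans hB1, hD, hMD, hMn⟩
  have k1 : (N1 ⊓ (B1 ⊓ B2)).relIndex M ≠ 0 := fun h0 => hmax M hM ⟨_, hM1, h0, HL_fin inf_le_left r1 hj1⟩
  have k2 : (N2 ⊓ (B1 ⊓ B2)).relIndex M ≠ 0 := fun h0 => hmax M hM ⟨_, hM2, h0, HL_fin inf_le_left r2 hj2⟩
  have z1 : ∀ {A B : Subgroup G}, A ≤ B → A.relIndex B ≠ 0 → Subgroup.Commensurable A B := by
    intro A B hAB h
    refine ⟨h, ?_⟩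
    rw [Subgroup.relIndex_eq_one.2 hAB]
    exact one_ne_zero
  exact ((z1 inf_le_left r1).symm.trans ((z1 hM1 k1).trans (z1 hM2 k2).symm)).trans (z1 inf_le_left r2)

private theorem cand_conj {G : Type} [Group G] {B N : Subgroup G} {j : ℕ} {g : ConjAct G} (h : Cand B N) (hj : HL j N)
    (hg : Subgroup.Commensurable (g • B) B) : Cand B ((g • N) ⊓ B) ∧ HL j ((g • N) ⊓ B) ∧
      ((g • N) ⊓ B).relIndex (g • N) ≠ 0 := by
  obtain ⟨B', hB, hB', hN, hc⟩ := h.ex
  have l1 : g • N ≤ g • B := Subgroup.pointwise_smul_le_pointwise_smul_iff.2 (hN.trans hB)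
  have r1 : ((g • N) ⊓ B).relIndex (g • N) ≠ 0 := rel_inf l1 hg.2
  have r2 : (g • B').relIndex (g • B) ≠ 0 := by
    rw [Subgroup.relIndex_pointwise_smul]
    exact hB'
  have r3 : (g • B').relIndex B ≠ 0 := Subgroup.relIndex_ne_zero_trans r2 hg.1
  refine ⟨⟨lcs_mono inf_le_left (lcs_conj g h.nil), (g • B') ⊓ B, inf_le_right, ?_, ?_, ?_⟩,
    HL_fin inf_le_left r1 (HL_conj g hj), r1⟩
  · rw [Subgroup.inf_relIndex_right]
    exact r3
  · exact inf_le_inf_right B (Subgroup.pointwise_smul_le_pointwise_smul_iff.2 hN)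
  · rintro b ⟨hb, hbB⟩ x ⟨hx, hxB⟩
    refine ⟨?_, B.mul_mem (B.mul_mem hbB hxB) (B.inv_mem hbB)⟩
    have hb1 : b ∈ g • B' := hb
    have hx1 : x ∈ g • N := hx
    show b * x * b⁻¹ ∈ g • N
    rw [Subgroup.mem_pointwise_smul_iff_inv_smul_mem] at hb1 hx1
    rw [Subgroup.mem_pointwise_smul_iff_inv_smul_mem, smul_mul', smul_mul', smul_inv']
    exact hc _ hb1 _ hx1

private theorem inf_of_mem {G : Type} [Group G] {N : Subgroup G} {x : G} (hx : x ∈ N) (hx1 : x ≠ 1)
    (htf : ∀ k : ℕ, k ≠ 0 → x ^ k = 1 → x = 1) : (N : Set G).Infinite := by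
  have h1 : ¬ IsOfFinOrder x := by
    intro h
    obtain ⟨k, hk, hk1⟩ := isOfFinOrder_iff_pow_eq_one.1 h
    exact hx1 (htf k (Nat.pos_iff_ne_zero.1 hk) hk1)
  have h2 : ((Subgroup.zpowers x : Subgroup G) : Set G).Infinite := infinite_zpowers.2 h1
  exact h2.mono (by
    have h3 : Subgroup.zpowers x ≤ N := by rwa [Subgroup.zpowers_le]
    exact h3)

private theorem card_zero {G : Type} [Group G] {N : Subgroup G} (h : (N : Set G).Infinite) : (⊥ : Subgroup G).relIndex N = 0 := by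
  rw [Subgroup.relIndex_bot_left]
  have : Infinite N := h.to_subtype
  exact Nat.card_eq_zero_of_infinite

private theorem cand_one {G : Type} [Group G] (B : Subgroup G) (hB : VP B)
    (htf : ∀ x ∈ B, ∀ k : ℕ, k ≠ 0 → x ^ k = 1 → x = 1) (hinf : (B : Set G).Infinite) : ∃ N, Cand B N ∧ HL 1 N := by
  obtain ⟨S, hSf, hS⟩ := vp_solv hB
  have hSinf : ∃ s : S, s ≠ 1 := by
    by_contra hcon
    push Not at hcon
    have h1 : Finite S := by
      have : Subsingleton S := ⟨fun a b => by rw [hcon a, hcon b]⟩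
      infer_instance
    have h2 : Finite B := by
      have h3 : Finite (B ⧸ S) := Subgroup.finite_quotient_of_finiteIndex
      exact Finite.of_equiv _ (Subgroup.groupEquivQuotientProdSubgroup (s := S)).symm
    exact hinf (Set.toFinite (B : Set G))
  obtain ⟨s, hs⟩ := hSinf
  obtain ⟨n, hn⟩ := hS.solvable
  have key : ∃ k, derivedSeries S k ≠ ⊥ ∧ derivedSeries S (k + 1) = ⊥ := by
    by_contra hcon
    push Not at hcon
    have h0 : derivedSeries S 0 ≠ ⊥ := by
      intro h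
      rw [derivedSeries_zero] at h
      have h1 : s ∈ (⊤ : Subgroup S) := Subgroup.mem_top s
      rw [h, Subgroup.mem_bot] at h1
      exact hs h1
    have h2 : ∀ k, derivedSeries S k ≠ ⊥ := fun k => Nat.rec h0 (fun k ih => hcon k ih) k
    exact h2 n hn
  obtain ⟨k, hk, hk1⟩ := key
  rw [derivedSeries_succ, Subgroup.commutator_eq_bot_iff_le_centralizer] at hk1
  obtain ⟨⟨x, hx⟩, hx1⟩ := (Subgroup.ne_bot_iff_exists_ne_one).1 hk
  have hxB : ((x : B) : G) ≠ 1 := fun h => hx1 (Subtype.ext (Subtype.ext (Subtype.ext h)))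
  have hxN : ((x : B) : G) ∈ ((derivedSeries S k).map S.subtype).map B.subtype := ⟨(x : B), ⟨x, hx, rfl⟩, rfl⟩
  refine ⟨((derivedSeries S k).map S.subtype).map B.subtype, ⟨⟨1, ?_⟩, S.map B.subtype, ?_, ?_, ?_, ?_⟩, ⊥, bot_le,
    card_zero (inf_of_mem hxN hxB fun m hm h => htf _ (x : B).2 m hm h), trivial⟩
  · rw [Subgroup.lowerCentralSeries_succ, Subgroup.lowerCentralSeries_zero,
      Subgroup.commutator_eq_bot_iff_le_centralizer]
    rintro _ ⟨_, ⟨a, ha, rfl⟩, rfl⟩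
    rw [Subgroup.mem_centralizer_iff]
    rintro _ ⟨_, ⟨b, hb, rfl⟩, rfl⟩
    have h1 : b * a = a * b := Subgroup.mem_centralizer_iff.1 (hk1 ha) b hb
    exact congrArg (fun z : S => ((z : B) : G)) h1
  · rintro _ ⟨b, _, rfl⟩
    exact b.2
  · show ((S.map B.subtype).comap B.subtype).index ≠ 0
    rw [Subgroup.comap_map_eq_self_of_injective B.subtype_injective]
    exact hSf.index_ne_zero
  · rintro _ ⟨_, ⟨a, ha, rfl⟩, rfl⟩
    exact ⟨_, a.2, rfl⟩
  · rintro _ ⟨b, hb, rfl⟩ _ ⟨_, ⟨a, ha, rfl⟩, rfl⟩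
    exact ⟨_, ⟨_, (inferInstance : (derivedSeries S k).Normal).conj_mem a ha ⟨b, hb⟩, rfl⟩, rfl⟩

theorem exists_ab {G : Type} [Group G] (B : Subgroup G) (hB : VP B)
    (htf : ∀ x ∈ B, ∀ k : ℕ, k ≠ 0 → x ^ k = 1 → x = 1) (hinf : (B : Set G).Infinite) :
    ∃ A : Subgroup G, A ≤ B ∧ Ab A ∧ (A : Set G).Infinite ∧ commensurator B ≤ commensurator A := by
  obtain ⟨n, hn⟩ := hB
  have key : ∃ j, (∃ N, Cand B N ∧ HL (j + 1) N) ∧ ∀ N, Cand B N → ¬ HL (j + 1 + 1) N := by
    by_contra hcon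
    push Not at hcon
    have h1 : ∀ j, ∃ N, Cand B N ∧ HL (j + 1) N := by
      intro j
      induction j with
      | zero => exact cand_one B ⟨n, hn⟩ htf hinf
      | succ j ih => exact hcon j ih
    obtain ⟨N, hN, hj⟩ := h1 n
    obtain ⟨B', hB', -, hNB, -⟩ := hN.ex
    exact absurd (HL_bd hn (hNB.trans hB') hj) (Nat.not_succ_le_self n)
  obtain ⟨j, ⟨N, hN, hj⟩, hmax⟩ := key
  obtain ⟨B', hB', -, hNB, -⟩ := hN.ex
  have hle : N ≤ B := hNB.trans hB'
  have hNn : Group.IsNilpotent N := (Subgroup.isNilpotent_iff_lowerCentralSeries N).2 hN.nil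
  have hNtf : ∀ (x : N) (k : ℕ), k ≠ 0 → x ^ k = 1 → x = 1 := fun x k hk h =>
    Subtype.ext (htf x (hle x.2) k hk (congrArg Subtype.val h))
  have hNinf : (N : Set G).Infinite := by
    intro hfin
    obtain ⟨L, -, hL0, -⟩ := hj
    have h1 : Finite N := hfin.to_subtype
    exact (Subgroup.index_ne_zero_of_finite (H := L.subgroupOf N)) hL0
  refine ⟨(Subgroup.center N).map N.subtype, ?_, ?_, center_inf N hNn hNtf hNinf, ?_⟩
  · rintro _ ⟨x, _, rfl⟩
    exact hle x.2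
  · rintro _ ⟨x, hx, rfl⟩ _ ⟨y, _, rfl⟩
    exact (congrArg Subtype.val (Subgroup.mem_center_iff.1 hx y)).symm
  · refine le_trans ?_ (comm_center N hNn hNtf)
    intro g hg
    rw [Subgroup.Commensurable.commensurator_mem_iff] at hg ⊢
    obtain ⟨h1, h2, h3⟩ := cand_conj hN hj hg
    have h4 := cand_comm h1 hN h2 hj hmax
    have h5 : Subgroup.Commensurable ((ConjAct.toConjAct g • N) ⊓ B) (ConjAct.toConjAct g • N) := by
      refine ⟨h3, ?_⟩
      rw [Subgroup.relIndex_eq_one.2 inf_le_left]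
      exact one_ne_zero
    exact h5.symm.trans h4

end Pool.Agent.H50.GN
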