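import Pool.Agent.H50.GN.Defs
import Pool.Agent.H76.VC.Path
import Mathlib.GroupTheory.Commensurable

/-!
# [GN10] The subtree of a commensurated subgroup

`VA A`: the vertices fixed by a subgroup of finite index of `A`. The commensurator of `A` acts on it.

Proof. If `x`, `y` are in `VA A` then the intersection of the stabilisers with `A` has finite index in `A` and fixes the geodesic (path) from
`x` to `y` (trees: the path is unique). So the induced subgraph is connected; it is acyclic as a subgraph of a tree. Invariance:
`stabilizer (g • x) = g (stabilizer x) g⁻¹` and `g A g⁻¹` is commensurable with `A`. (There are templates in `H76/VC/Cen.lean`,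
`H54/AX`, `H93/TR`.)
-/

set_option autoImplicit false

namespace Pool.Agent.H50.GN

open Pool.Agent.H98.FJ Pool.Agent.H93.TR
open Subgroup.Commensurable (commensurator)
open scoped Pointwise

private theorem stab_conj {G V : Type} [Group G] [MulAction G V] (g : G) (x : V) :
    MulAction.stabilizer G (g • x) = ConjAct.toConjAct g • MulAction.stabilizer G x := by
  ext h
  rw [Subgroup.mem_pointwise_smul_iff_inv_smul_mem, MulAction.mem_stabilizer_iff, MulAction.mem_stabilizer_iff,
    ConjAct.smul_def, map_inv, ConjAct.ofConjAct_toConjAct, inv_inv, mul_smul, mul_smul]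
  constructor
  · intro h1
    rw [h1, inv_smul_smul]
  · intro h1
    rwa [inv_smul_eq_iff] at h1

/-- a walk inside a set -/
private theorem reach_sub {V : Type} {Y : SimpleGraph V} {P : V → Prop} {v w : V} (q : Y.Walk v w)
    (hq : ∀ x ∈ q.support, P x) :
    (Y.comap (Subtype.val : {x // P x} → V)).Reachable ⟨v, hq v q.start_mem_support⟩ ⟨w, hq w q.end_mem_support⟩ := by
  induction q with
  | nil => exact SimpleGraph.Reachable.refl _
  | @cons a b c h q ih =>
    have h1 : ∀ x ∈ q.support, P x := fun x hx => hq x (by
      rw [SimpleGraph.Walk.support_cons]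
      exact List.mem_cons_of_mem _ hx)
    have h2 : (Y.comap (Subtype.val : {x // P x} → V)).Adj ⟨a, hq a (by simp)⟩ ⟨b, h1 b q.start_mem_support⟩ := h
    exact h2.reachable.trans (ih h1)

/-- the vertices which are fixed by a subgroup of finite index of `A` -/
def VA {G : Type} [Group G] (A : Subgroup G) (V : Type) [MulAction G V] : Type :=
  {x : V // (MulAction.stabilizer G x).relIndex A ≠ 0}

theorem va_inv {G V : Type} [Group G] [MulAction G V] (A : Subgroup G) (g : commensurator A) (x : V)
    (hx : (MulAction.stabilizer G x).relIndex A ≠ 0) : (MulAction.stabilizer G ((g : G) • x)).relIndex A ≠ 0 := by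
  have h1 := (Subgroup.Commensurable.commensurator_mem_iff A (g : G)).1 g.2
  rw [stab_conj]
  refine Subgroup.relIndex_ne_zero_trans (K := ConjAct.toConjAct (g : G) • A) ?_ h1.1
  rw [Subgroup.relIndex_pointwise_smul]
  exact hx

instance instVA {G V : Type} [Group G] [MulAction G V] (A : Subgroup G) : MulAction (commensurator A) (VA A V) where
  smul g x := ⟨(g : G) • x.1, va_inv A g x.1 x.2⟩
  one_smul x := Subtype.ext (one_smul G x.1)
  mul_smul g h x := Subtype.ext (mul_smul (g : G) (h : G) x.1)

theorem va_smul {G V : Type} [Group G] [MulAction G V] (A : Subgroup G) (g : commensurator A) (x : VA A V) :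
    (g • x).1 = (g : G) • x.1 := rfl

/-- the subtree -/
def XA {G V : Type} [Group G] [MulAction G V] (X : SimpleGraph V) (A : Subgroup G) : SimpleGraph (VA A V) :=
  X.comap Subtype.val

theorem va_tree {G V : Type} [Group G] [MulAction G V] {X : SimpleGraph V} (hX : OnTree G X) (A : Subgroup G)
    (hA : ∃ v : V, ∀ a ∈ A, a • v = v) : OnTree (commensurator A) (XA X A) := by
  obtain ⟨v0, hv0⟩ := hA
  have hv : (MulAction.stabilizer G v0).relIndex A ≠ 0 := by
    rw [Subgroup.relIndex_eq_one.2 (fun a ha => hv0 a ha)]
    exact one_ne_zero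
  refine ⟨⟨?_, ?_⟩, ?_⟩
  · have : Nonempty (VA A V) := ⟨⟨v0, hv⟩⟩
    refine ⟨fun x y => ?_⟩
    obtain ⟨q, hq⟩ := Pool.Agent.H76.VC.fixed_walk hX x.1 y.1
    have key : ∀ z ∈ q.support, (MulAction.stabilizer G z).relIndex A ≠ 0 := by
      intro z hz
      have h1 : MulAction.stabilizer G x.1 ⊓ MulAction.stabilizer G y.1 ≤ MulAction.stabilizer G z :=
        fun g hg => hq g hg.1 hg.2 z hz
      have h2 : (MulAction.stabilizer G x.1 ⊓ MulAction.stabilizer G y.1).relIndex A ≠ 0 :=
        Subgroup.relIndex_inf_ne_zero x.2 y.2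
      intro h0
      have h3 := Subgroup.relIndex_dvd_of_le_left A h1
      rw [h0] at h3
      exact h2 (Nat.eq_zero_of_zero_dvd h3)
    exact reach_sub (P := fun z => (MulAction.stabilizer G z).relIndex A ≠ 0) q key
  · exact hX.tree.isAcyclic.comap ⟨fun x : VA A V => x.1, fun {_ _} h => h⟩ Subtype.val_injective
  · intro g x y h
    exact hX.adj (g : G) x.1 y.1 h

end Pool.Agent.H50.GN
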