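import Pool.Agent.H50.GN.Env
import Pool.Agent.H50.GN.Com
import Pool.Agent.H50.GN.SubT
import Pool.Agent.H50.GN.Fit

/-!
# [GN17] The induction
-/

set_option autoImplicit false

namespace Pool.Agent.H50.GN

open Pool.Agent.H98.FJ Pool.Agent.H93.TR Pool.Agent.H76.GT Pool.Agent.H75.CX
open Subgroup.Commensurable (commensurator)
open scoped Pointwise

section

variable {C W : (G : Type) → [Group G] → Prop}

private theorem tf_st (hW : Cls C W) {G V : Type} [Group G] [MulAction G V] {x : V}
    (hx : W (MulAction.stabilizer G x)) {c : G} (hc : c • x = x)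
    {k : ℕ} (hk : k ≠ 0) (h : c ^ k = 1) : c = 1 := by
  have := hW.tf _ hx (⟨c, hc⟩ : MulAction.stabilizer G x) k hk (Subtype.ext h)
  exact congrArg Subtype.val this

theorem ss_zero (hC : Inherits C) (hE : Extension C) (hW : Cls C W) : SS C W 0 := by
  intro G V _ _ X hX hv he
  refine main hC hE hX (fun v => hW.mem _ (hv v)) (Q := Unit) (hC.fin Unit inferInstance) 1 ?_
  intro g _ v w hvw h1 h2
  have hf : Finite (MulAction.stabilizer G v ⊓ MulAction.stabilizer G w : Subgroup G) := (he v w hvw).2.fin
  let g' : (MulAction.stabilizer G v ⊓ MulAction.stabilizer G w : Subgroup G) := ⟨g, h1, h2⟩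
  obtain ⟨k, hk, h3⟩ := isOfFinOrder_iff_pow_eq_one.1 (isOfFinOrder_of_finite g')
  exact tf_st hW (hv v) h1 hk.ne' (congrArg Subtype.val h3)

private theorem le_comm {G : Type} [Group G] (A : Subgroup G) : A ≤ commensurator A := by
  intro a ha
  rw [Subgroup.Commensurable.commensurator_mem_iff]
  have : ConjAct.toConjAct a • A = A := Subgroup.conj_smul_eq_self_of_mem ha
  rw [this]

theorem ss_succ (hC : Inherits C) (hE : Extension C) (hT : Transfer C)
    (hS : ∀ (G : Type) [Group G], Group.IsSolvable G → C G) (hW : Cls C W) (h : ℕ) (ih : SS C W h) : SS C W (h + 1) := by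
  intro G V _ _ X hX hv he
  refine of_comm hC hT hX (fun v => hW.mem _ (hv v)) (h + 1) (fun v w hvw => (he v w hvw).2)
    (fun v g hg k hk h1 => tf_st hW (hv v) hg hk h1) ?_
  intro B hB hinf
  obtain ⟨v, w, hvw, hfix⟩ := hB
  have hBle : B ≤ MulAction.stabilizer G v ⊓ MulAction.stabilizer G w :=
    fun b hb => ⟨(hfix b hb).1, (hfix b hb).2⟩
  have htfB : ∀ x ∈ B, ∀ k : ℕ, k ≠ 0 → x ^ k = 1 → x = 1 :=
    fun x hx k hk h1 => tf_st hW (hv v) (hfix x hx).1 hk h1
  obtain ⟨A, hAB, hA, hAinf, hcomm⟩ := exists_ab B (vp_le hBle (he v w hvw).1) htfB hinf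
  have key : C (commensurator A) := by
    have hXA : OnTree (commensurator A) (XA X A) := va_tree hX A ⟨v, fun a ha => (hfix a (hAB ha)).1⟩
    refine env hC hE hS hW h ih hXA (A := A.subgroupOf (commensurator A)) ?_ ?_ ?_ ?_ ?_ ?_ ?_
    · intro x
      let f : MulAction.stabilizer (commensurator A) x →* MulAction.stabilizer G x.1 :=
        { toFun := fun g => ⟨(g.1 : G), congrArg Subtype.val g.2⟩
          map_one' := rfl
          map_mul' := fun _ _ => rfl }
      refine hW.inj _ _ f ?_ (hv x.1)
      intro a b hab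
      exact Subtype.ext (Subtype.ext (congrArg (fun z : MulAction.stabilizer G x.1 => (z : G)) hab))
    · intro x y hxy
      obtain ⟨h1, h2⟩ := he x.1 y.1 hxy
      let f : (MulAction.stabilizer (commensurator A) x ⊓ MulAction.stabilizer (commensurator A) y :
          Subgroup (commensurator A)) →* (MulAction.stabilizer G x.1 ⊓ MulAction.stabilizer G y.1 : Subgroup G) :=
        { toFun := fun g => ⟨(g.1 : G), congrArg Subtype.val g.2.1, congrArg Subtype.val g.2.2⟩
          map_one' := rfl
          map_mul' := fun _ _ => rfl }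
      have hf : Function.Injective f := by
        intro a b hab
        exact Subtype.ext (Subtype.ext (congrArg
          (fun z : (MulAction.stabilizer G x.1 ⊓ MulAction.stabilizer G y.1 : Subgroup G) => (z : G)) hab))
      exact ⟨vp_inj f hf h1, IC.inj f hf h2⟩
    · intro a ha b hb
      exact Subtype.ext (hA _ ha _ hb)
    · intro a ha k hk h1
      have h2 : (a : G) ∈ B := hAB ha
      exact Subtype.ext (tf_st hW (hv v) (hfix _ h2).1 hk (congrArg Subtype.val h1))
    · intro g a ha
      have hg : A.relIndex (ConjAct.toConjAct (g : G) • A) ≠ 0 := (((Subgroup.Commensurable.commensurator_mem_iff A g).1 g.2)).2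
      have hm : (g : G) * a * (g : G)⁻¹ ∈ ConjAct.toConjAct (g : G) • A :=
        Subgroup.smul_mem_pointwise_smul _ _ _ ha
      obtain ⟨k, hk, -, h1⟩ := Subgroup.exists_pow_mem_of_relIndex_ne_zero hg hm
      exact ⟨k, hk.ne', h1.1⟩
    · intro x a ha
      obtain ⟨k, hk, -, h1⟩ := Subgroup.exists_pow_mem_of_relIndex_ne_zero x.2 (show (a : G) ∈ A from ha)
      exact ⟨k, hk.ne', Subtype.ext h1.1⟩
    · obtain ⟨a, ha, ha1⟩ := hAinf.exists_notMem_finset {1}
      refine ⟨⟨a, le_comm A ha⟩, ha, ?_⟩
      intro h1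
      exact ha1 (by simpa using congrArg Subtype.val h1)
  exact hC.of_injective (Subgroup.inclusion hcomm) (Subgroup.inclusion_injective _) key

theorem ss (hC : Inherits C) (hE : Extension C) (hT : Transfer C)
    (hS : ∀ (G : Type) [Group G], Group.IsSolvable G → C G) (hW : Cls C W) (h : ℕ) : SS C W h := by
  induction h with
  | zero => exact ss_zero hC hE hW
  | succ h ih => exact ss_succ hC hE hT hS hW h ih

end

end Pool.Agent.H50.GN
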