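import Pool.Agent.H50.GN.Defs

/-!
# [GN2] The subgroup generated by a saturated family

Proof of `inv`. Let `P g y` be the statement: `n (g • y) • (g • y) = n y • y` and `n (g • y) * g * (n y)⁻¹ ∈ I (n y • y)`.
(1) `step`: `P g y` and `X.Adj y y'` imply `P g y'`. Put `t = n y • y = n (g • y) • (g • y)`, `c = n (g • y) * g * (n y)⁻¹ ∈ I t`,
`r' = n y' * (n y)⁻¹`, `r = n (g • y') * (n (g • y))⁻¹`, `w = n y' • y'`, `w' = n (g • y') • (g • y')`. Then `w' = (r * c * r'⁻¹) • w`. By `adj`
`r'` is in `I t` or in `I w`, `r` is in `I t` or in `I w'`. In all cases `w`, `w'` are neighbours of `t` and `w' = e • w` for an `e ∈ I t`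
(`e = r * c * r'⁻¹` where a factor `r`, `r'` which is not in `I t` is left out, since it fixes `w'` respectively `w`). By `red` `w = w'`. Now
`e ∈ I t` fixes `w`, so `e ∈ I w` (`edge`), and `r * c * r'⁻¹` is the product of `e` with elements of `I w`.
(2) For `g ∈ I s` the statement `P g s` holds (`g • s = s`, `conj`), so `P g y` for all `y` (connected). (3) `P g y` for all `y`, `P h y` for
all `y` imply `P (g * h) y`; inverses are similar; so it holds on `NN I` (`Subgroup.iSup_induction` or closure induction).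
`inter`: apply `inv` at `x` and conjugate with `(n x)⁻¹`.
-/

set_option autoImplicit false

namespace Pool.Agent.H50.GN

open Pool.Agent.H98.FJ Pool.Agent.H93.TR

/-- the statement of `inv` for one element and one vertex -/
private def PP {G V : Type} [Group G] [MulAction G V] (I : V → Subgroup G) (n : V → G) (g : G) (y : V) : Prop :=
  n (g • y) • (g • y) = n y • y ∧ n (g • y) * g * (n y)⁻¹ ∈ I (n y • y)

private theorem step {G V : Type} [Group G] [MulAction G V] {X : SimpleGraph V} (hX : OnTree G X)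
    {I : V → Subgroup G} (hI : Sat X I) {n : V → G} (hn : Lft X I n) (g : G) (y y' : V) (hy : X.Adj y y')
    (h : PP I n g y) : PP I n g y' := by
  obtain ⟨h1, h2⟩ := h
  set t : V := n y • y with ht
  set c : G := n (g • y) * g * (n y)⁻¹ with hc
  set r' : G := n y' * (n y)⁻¹ with hr'
  set r : G := n (g • y') * (n (g • y))⁻¹ with hr
  set w : V := n y' • y' with hw
  set w' : V := n (g • y') • (g • y') with hw'
  -- the key relation
  have hkey : n (g • y') * g * (n y')⁻¹ = r * c * r'⁻¹ := by
    rw [hr, hc, hr']; group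
  have hww : w' = (r * c * r'⁻¹) • w := by
    rw [← hkey, hw, hw']
    simp only [smul_smul]
    congr 1
    group
  -- adjacency of `t` and `w`
  have hA := hn.adj y y' hy
  rw [← ht, ← hw, ← hr'] at hA
  have hB := hn.adj (g • y) (g • y') (hX.adj g y y' hy)
  rw [h1, ← hw', ← hr] at hB
  have htw : X.Adj t w := by
    have h3 : X.Adj (n y • y) (n y • y') := hX.adj _ _ _ hy
    have h4 : w = r' • (n y • y') := by
      rw [hw, hr', smul_smul]; congr 1; group
    rcases hA with hA | hA
    · have h5 := hX.adj r' _ _ h3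
      rw [← h4, ← ht, hI.fix _ _ hA] at h5
      exact h5
    · have h5 : r'⁻¹ • w = w := by
        rw [inv_smul_eq_iff, hI.fix _ _ hA]
      have h6 : n y • y' = w := by
        rw [← h5, h4, inv_smul_smul]
      rw [← ht, h6] at h3
      exact h3
  have htw' : X.Adj t w' := by
    have h3 : X.Adj (n (g • y) • (g • y)) (n (g • y) • (g • y')) := hX.adj _ _ _ (hX.adj _ _ _ hy)
    have h4 : w' = r • (n (g • y) • (g • y')) := by
      rw [hr, smul_smul, inv_mul_cancel_right]
    rw [h1] at h3
    rcases hB with hB | hB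
    · have h5 := hX.adj r _ _ h3
      rw [← h4, hI.fix _ _ hB] at h5
      exact h5
    · have h5 : r⁻¹ • w' = w' := by
        rw [inv_smul_eq_iff, hI.fix _ _ hB]
      have h6 : n (g • y) • (g • y') = w' := by
        rw [← h5, h4, inv_smul_smul]
      rw [h6] at h3
      exact h3
  -- the element `e`
  have hred : ∀ e ∈ I t, e • w = w' → w = w' := fun e he hew =>
    hn.red y y' (g • y') htw htw' e he hew
  show w' = w ∧ n (g • y') * g * (n y')⁻¹ ∈ I w
  rw [hkey]
  rcases hA with hA | hA <;> rcases hB with hB | hB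
  · -- both in `I t`
    have he : r * c * r'⁻¹ ∈ I t := mul_mem (mul_mem hB h2) (inv_mem hA)
    have hw2 := hred _ he hww.symm
    exact ⟨hw2.symm, hI.edge t w htw _ he (by rw [← hww, ← hw2])⟩
  · -- `r'` in `I t`, `r` in `I w'`
    have he : c * r'⁻¹ ∈ I t := mul_mem h2 (inv_mem hA)
    have h5 : r⁻¹ • w' = w' := by
      rw [inv_smul_eq_iff, hI.fix _ _ hB]
    have h6 : (c * r'⁻¹) • w = w' := by
      have h8 : r⁻¹ • ((r * c * r'⁻¹) • w) = (c * r'⁻¹) • w := by
        rw [smul_smul]; congr 1; group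
      rw [← h8, ← hww, h5]
    have hw2 := hred _ he h6
    have h7 : c * r'⁻¹ ∈ I w := hI.edge t w htw _ he (by rw [h6, ← hw2])
    rw [← hw2] at hB
    exact ⟨hw2.symm, by rw [mul_assoc]; exact mul_mem hB h7⟩
  · -- `r'` in `I w`, `r` in `I t`
    have he : r * c ∈ I t := mul_mem hB h2
    have h5 : r'⁻¹ • w = w := by
      rw [inv_smul_eq_iff, hI.fix _ _ hA]
    have h6 : (r * c) • w = w' := by
      rw [hww, mul_smul (r * c), h5]
    have hw2 := hred _ he h6
    have h7 : r * c ∈ I w := hI.edge t w htw _ he (by rw [h6, ← hw2])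
    exact ⟨hw2.symm, mul_mem h7 (inv_mem hA)⟩
  · -- `r'` in `I w`, `r` in `I w'`
    have h5 : r'⁻¹ • w = w := by
      rw [inv_smul_eq_iff, hI.fix _ _ hA]
    have h5' : r⁻¹ • w' = w' := by
      rw [inv_smul_eq_iff, hI.fix _ _ hB]
    have h6 : c • w = w' := by
      have h8 : r⁻¹ • ((r * c * r'⁻¹) • w) = c • w := by
        rw [mul_smul (r * c), h5, smul_smul, inv_mul_cancel_left]
      rw [← h8, ← hww, h5']
    have hw2 := hred _ h2 h6
    have h7 : c ∈ I w := hI.edge t w htw _ h2 (by rw [h6, ← hw2])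
    rw [← hw2] at hB
    exact ⟨hw2.symm, mul_mem (mul_mem hB h7) (inv_mem hA)⟩

private theorem all {G V : Type} [Group G] [MulAction G V] {X : SimpleGraph V} (hX : OnTree G X)
    {I : V → Subgroup G} (hI : Sat X I) {n : V → G} (hn : Lft X I n) (g : G) (s : V) (hg : g ∈ I s) (y : V) :
    PP I n g y := by
  have h0 : PP I n g s := by
    have h1 : g • s = s := hI.fix _ _ hg
    refine ⟨by rw [h1], ?_⟩
    rw [h1]
    exact hI.conj _ _ _ hg
  obtain ⟨p⟩ := hX.tree.1.preconnected s y
  clear hg
  induction p with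
  | nil => exact h0
  | cons h p ih => exact ih (step hX hI hn g _ _ h h0)

theorem inv {G V : Type} [Group G] [MulAction G V] {X : SimpleGraph V} (hX : OnTree G X)
    {I : V → Subgroup G} (hI : Sat X I) {n : V → G} (hn : Lft X I n) (g : G) (hg : g ∈ NN I) (y : V) :
    n (g • y) • (g • y) = n y • y ∧ n (g • y) * g * (n y)⁻¹ ∈ I (n y • y) := by
  have key : ∀ g ∈ NN I, ∀ y, PP I n g y := by
    intro g hg
    unfold NN at hg
    refine Subgroup.iSup_induction (S := I) (C := fun g => ∀ y, PP I n g y) hg ?_ ?_ ?_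
    · intro s g hg y
      exact all hX hI hn g s hg y
    · intro y
      refine ⟨by rw [one_smul], ?_⟩
      rw [one_smul, mul_one, mul_inv_cancel]
      exact one_mem _
    · intro a b ha hb y
      obtain ⟨h1, h2⟩ := ha (b • y)
      obtain ⟨h3, h4⟩ := hb y
      refine ⟨by rw [mul_smul, h1, h3], ?_⟩
      rw [h3] at h2
      have h5 := mul_mem h2 h4
      have h6 : n (a • b • y) * a * (n (b • y))⁻¹ * (n (b • y) * b * (n y)⁻¹) =
          n ((a * b) • y) * (a * b) * (n y)⁻¹ := by
        rw [mul_smul]; group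
      rwa [h6] at h5
  exact key g hg y

/-- the intersection with a stabiliser -/
theorem inter {G V : Type} [Group G] [MulAction G V] {X : SimpleGraph V} (hX : OnTree G X)
    {I : V → Subgroup G} (hI : Sat X I) {n : V → G} (hn : Lft X I n) (g : G) (hg : g ∈ NN I) (x : V) (hx : g • x = x) :
    g ∈ I x := by
  obtain ⟨_, h2⟩ := inv hX hI hn g hg x
  rw [hx] at h2
  have h3 := hI.conj (n x)⁻¹ _ _ h2
  rw [inv_smul_smul, inv_inv] at h3
  have h4 : (n x)⁻¹ * (n x * g * (n x)⁻¹) * n x = g := by group
  rwa [h4] at h3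

end Pool.Agent.H50.GN
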