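import Pool.Agent.H50.GN.Tame
import Pool.Agent.H75.CX.Fin
import Pool.Agent.H38.AP.App2

/-!
# [GN27] Groups acting on trees whose vertex stabilisers have tame commensurators

`comm_tame`: the commensurator of a subgroup `P` which fixes a vertex acts on the subtree of the vertices fixed by subgroups of finite
index of `P`; `tame_graphs`. `tame_vp`: by `Pool.Agent.H75.CX.ct_main`. `tame_loc`: edge stabilisers which are locally virtually polycyclic, by
`Pool.Agent.H38.AP.fg_edges_map` and the combination theorem `Pool.Agent.H93.TR.main`.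
-/

set_option autoImplicit false

namespace Pool.Agent.H50.GN

open Pool.Agent.H98.FJ Pool.Agent.H93.TR Pool.Agent.H76.GT Pool.Agent.H75.CX Pool.Agent.H18.TN
open Subgroup.Commensurable (commensurator)
open scoped Pointwise

section

variable {C : (G : Type) → [Group G] → Prop}

theorem comm_tame (hC : Inherits C) (hE : Extension C) (hT : Transfer C)
    (hS : ∀ (G : Type) [Group G], Group.IsSolvable G → C G) {G V : Type} [Group G] [MulAction G V]
    {X : SimpleGraph V} (hX : OnTree G X) (he : ∀ v w : V, X.Adj v w → LVP (Ps G v w)) (P : Subgroup G)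
    (hP : ∃ v : V, ∀ g ∈ P, g • v = v)
    (h : ∀ v : V, (MulAction.stabilizer G v).relIndex P ≠ 0 → Tame C (commensurator P ⊓ MulAction.stabilizer G v : Subgroup G)) :
    C (commensurator P) := by
  have hXA : OnTree (commensurator P) (XA X P) := va_tree hX P hP
  refine tame_graphs hC hE hT hS hXA ?_ ?_
  · intro x
    let f : MulAction.stabilizer (commensurator P) x →* (commensurator P ⊓ MulAction.stabilizer G x.1 : Subgroup G) :=
      { toFun := fun g => ⟨(g.1 : G), g.1.2, congrArg Subtype.val g.2⟩
        map_one' := rfl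
        map_mul' := fun _ _ => rfl }
    refine tame_inj f ?_ (h x.1 x.2)
    intro a b hab
    exact Subtype.ext (Subtype.ext (congrArg
      (fun z : (commensurator P ⊓ MulAction.stabilizer G x.1 : Subgroup G) => (z : G)) hab))
  · intro x y hxy
    let f : (MulAction.stabilizer (commensurator P) x ⊓ MulAction.stabilizer (commensurator P) y :
        Subgroup (commensurator P)) →* Ps G x.1 y.1 :=
      { toFun := fun g => ⟨(g.1 : G), congrArg Subtype.val g.2.1, congrArg Subtype.val g.2.2⟩
        map_one' := rfl
        map_mul' := fun _ _ => rfl }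
    refine lvp_inj f ?_ (he x.1 y.1 hxy)
    intro a b hab
    exact Subtype.ext (Subtype.ext (congrArg (fun z : Ps G x.1 y.1 => (z : G)) hab))

/-- a subgroup which fixes the vertices `v ≠ w` fixes a neighbour of `v` -/
private theorem next {G V : Type} [Group G] [MulAction G V] {X : SimpleGraph V} (hX : OnTree G X) {v w : V} (hvw : v ≠ w) :
    ∃ u, X.Adj v u ∧ Ps G v w ≤ Ps G v u := by
  obtain ⟨q, hq⟩ := Pool.Agent.H76.VC.fixed_walk (G := G) hX v w
  cases q with
  | nil => exact absurd rfl hvw
  | @cons _ u _ h q' =>
    refine ⟨u, h, fun g hg => ⟨hg.1, hq g hg.1 hg.2 u ?_⟩⟩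
    rw [SimpleGraph.Walk.support_cons]
    exact List.mem_cons_of_mem _ q'.start_mem_support

theorem tame_vp (hC : Inherits C) (hE : Extension C) (hT : Transfer C)
    (hS : ∀ (G : Type) [Group G], Group.IsSolvable G → C G) {G V : Type} [Group G] [MulAction G V]
    {X : SimpleGraph V} (hX : OnTree G X) (hv : ∀ v : V, C (MulAction.stabilizer G v))
    (he : ∀ v w : V, X.Adj v w → VP (Ps G v w))
    (h : ∀ v w : V, X.Adj v w → ∀ P : Subgroup G, P ≤ Ps G v w → Infinite P →
      C (commensurator P) ∨ Tame C (commensurator P ⊓ MulAction.stabilizer G v : Subgroup G)) : C G := by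
  refine (ct_main hC hE hT hS hX hv he).2 ?_
  rintro P hP ⟨v, w, hvw, hle⟩ _ _
  by_cases hCP : C (commensurator P)
  · exact hCP
  refine comm_tame hC hE hT hS hX (fun a b hab => ?_) P ⟨v, fun g hg => (hle hg).1⟩ ?_
  · intro H _
    exact vp_inj H.subtype H.subtype_injective (he a b hab)
  · intro u hu
    -- the subgroup of finite index which fixes `u`
    have hr : (P ⊓ MulAction.stabilizer G u).relIndex P ≠ 0 := by
      rw [Subgroup.inf_relIndex_left]
      exact hu
    have hcm : Subgroup.Commensurable (P ⊓ MulAction.stabilizer G u) P := by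
      refine ⟨hr, ?_⟩
      rw [Subgroup.relIndex_eq_one.2 inf_le_left]
      exact one_ne_zero
    have hinf : Infinite (P ⊓ MulAction.stabilizer G u : Subgroup G) := by
      by_contra hfin
      have hfin' : Finite (P ⊓ MulAction.stabilizer G u : Subgroup G) := not_infinite_iff_finite.1 hfin
      have h1 : Nat.card (P ⊓ MulAction.stabilizer G u : Subgroup G) ≠ 0 := Nat.card_pos.ne'
      have h2 : (⊥ : Subgroup G).relIndex P ≠ 0 := by
        refine Subgroup.relIndex_ne_zero_trans (K := P ⊓ MulAction.stabilizer G u) ?_ hr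
        rw [Subgroup.relIndex_bot_left]
        exact h1
      rw [Subgroup.relIndex_bot_left] at h2
      exact h2 (Nat.card_eq_zero_of_infinite (α := P))
    rw [← Subgroup.Commensurable.eq hcm] at hCP ⊢
    by_cases huv : u = v
    · rw [huv] at hinf hCP ⊢
      exact (h v w hvw _ (inf_le_left.trans hle) hinf).resolve_left hCP
    · obtain ⟨u', hu', hle'⟩ := next (G := G) hX huv
      refine (h u u' hu' _ (le_trans ?_ hle') hinf).resolve_left hCP
      intro g hg
      exact ⟨hg.2, (hle hg.1).1⟩

/-- images of commensurable subgroups -/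
private theorem rel_map {G H : Type} [Group G] [Group H] (f : G →* H) {A B : Subgroup G} (h : A.relIndex B ≠ 0) :
    (A.map f).relIndex (B.map f) ≠ 0 := by
  rw [← Subgroup.relIndex_comap]
  exact fun h0 => h (Subgroup.relIndex_eq_zero_of_le_left (Subgroup.le_comap_map f A) h0)

private theorem comm_im {G H : Type} [Group G] [Group H] (f : G →* H) (P : Subgroup G) {g : G} (hg : g ∈ commensurator P) :
    f g ∈ commensurator (P.map f) := by
  rw [Subgroup.Commensurable.commensurator_mem_iff] at hg ⊢
  have e : (ConjAct.toConjAct (f g)) • (P.map f) = ((ConjAct.toConjAct g) • P).map f := by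
    ext x
    constructor
    · intro hx
      obtain ⟨y, hy, rfl⟩ := (Subgroup.mem_smul_pointwise_iff_exists _ _ _).1 hx
      obtain ⟨z, hz, rfl⟩ := hy
      refine ⟨ConjAct.toConjAct g • z, (Subgroup.mem_smul_pointwise_iff_exists _ _ _).2 ⟨z, hz, rfl⟩, ?_⟩
      rw [ConjAct.toConjAct_smul, ConjAct.toConjAct_smul, map_mul, map_mul, map_inv]
    · rintro ⟨y, hy, rfl⟩
      obtain ⟨z, hz, rfl⟩ := (Subgroup.mem_smul_pointwise_iff_exists _ _ _).1 hy
      refine (Subgroup.mem_smul_pointwise_iff_exists _ _ _).2 ⟨f z, ⟨z, hz, rfl⟩, ?_⟩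
      rw [ConjAct.toConjAct_smul, ConjAct.toConjAct_smul, map_mul, map_mul, map_inv]
  rw [e]
  exact ⟨rel_map f hg.1, rel_map f hg.2⟩

/-- **vertex stabilisers with tame commensurators** -/
theorem tame_loc (hC : Inherits C) (hE : Extension C) (hT : Transfer C)
    (hS : ∀ (G : Type) [Group G], Group.IsSolvable G → C G) {G V : Type} [Group G] [MulAction G V]
    {X : SimpleGraph V} (hX : OnTree G X) (hv : ∀ v : V, C (MulAction.stabilizer G v))
    (he : ∀ v w : V, X.Adj v w → LVP (Ps G v w))
    (h : ∀ v w : V, X.Adj v w → ∀ P : Subgroup G, P ≤ Ps G v w → Infinite P → VP P →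
      C (commensurator P) ∨ Tame C (commensurator P ⊓ MulAction.stabilizer G v : Subgroup G)) : C G := by
  obtain ⟨H, hH, hinv⟩ := exists_noInv hX
  refine hC.index G H hH ?_
  have hXH : OnTree H X := ⟨hX.tree, fun g v w h => hX.adj (g : G) v w h⟩
  refine Pool.Agent.H38.AP.fg_edges_map hC hXH ?_ ?_
  · rintro ⟨n, hn⟩ _ v w h1 h2 h3
    exact hinv n hn v w h1 h2 h3
  · rintro M T _ _ Y hY _ ⟨π', h1, h2, h3⟩
    let π : M →* G := H.subtype.comp π'
    have hπ : ∀ (m : M) (x : V), π m • x = π' m • x := fun m x => rfl
    have hinj : ∀ (m : M) (t : T), m • t = t → π m = 1 → m = 1 := by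
      intro m t ht hm
      exact h1 m t ht (Subtype.ext hm)
    have hinj2 : ∀ (t : T) (a b : M), a • t = t → b • t = t → π a = π b → a = b := by
      intro t a b ha hb hab
      have h4 : π (a * b⁻¹) = 1 := by rw [map_mul, map_inv, hab, mul_inv_cancel]
      have h5 : (a * b⁻¹) • t = t := by rw [mul_smul, inv_smul_eq_iff.2 hb.symm, ha]
      exact mul_inv_eq_one.1 (hinj _ t h5 h4)
    have hvM : ∀ t : T, C (MulAction.stabilizer M t) := by
      intro t
      obtain ⟨x, hx⟩ := h2 t
      let f : MulAction.stabilizer M t →* MulAction.stabilizer G x :=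
        { toFun := fun m => ⟨π m.1, hx m.1 m.2⟩
          map_one' := Subtype.ext (map_one π)
          map_mul' := fun a b => Subtype.ext (map_mul π a.1 b.1) }
      refine hC.of_injective f ?_ (hv x)
      intro a b hab
      exact Subtype.ext (hinj2 t _ _ a.2 b.2 (congrArg (fun z : MulAction.stabilizer G x => (z : G)) hab))
    refine tame_vp hC hE hT hS hY hvM ?_ ?_
    · intro s t hst
      obtain ⟨hfg, x, y, hxy, hs, ht⟩ := h3 s t hst
      let f : Ps M s t →* Ps G x y :=
        { toFun := fun m => ⟨π m.1, hs m.1 m.2.1, ht m.1 m.2.1 m.2.2⟩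
          map_one' := Subtype.ext (map_one π)
          map_mul' := fun a b => Subtype.ext (map_mul π a.1 b.1) }
      refine lvp_fg (lvp_inj f ?_ (he x y hxy)) hfg
      intro a b hab
      exact Subtype.ext (hinj2 s _ _ a.2.1 b.2.1 (congrArg (fun z : Ps G x y => (z : G)) hab))
    · intro s t hst P hP hPi
      obtain ⟨hfg, x, y, hxy, hs, ht⟩ := h3 s t hst
      let φ : P →* P.map π :=
        { toFun := fun m => ⟨π m.1, m.1, m.2, rfl⟩
          map_one' := Subtype.ext (map_one π)
          map_mul' := fun a b => Subtype.ext (map_mul π a.1 b.1) }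
      have hφi : Function.Injective φ := by
        intro a b hab
        exact Subtype.ext (hinj2 s _ _ (hP a.2).1 (hP b.2).1 (congrArg (fun z : P.map π => (z : G)) hab))
      have hφs : Function.Surjective φ := by
        rintro ⟨_, m, hm, rfl⟩
        exact ⟨⟨m, hm⟩, rfl⟩
      have hvp : VP P := by
        let g : Ps M s t →* Ps G x y :=
          { toFun := fun m => ⟨π m.1, hs m.1 m.2.1, ht m.1 m.2.1 m.2.2⟩
            map_one' := Subtype.ext (map_one π)
            map_mul' := fun a b => Subtype.ext (map_mul π a.1 b.1) }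
        have h4 : VP (Ps M s t) := by
          refine lvp_fg (lvp_inj g ?_ (he x y hxy)) hfg
          intro a b hab
          exact Subtype.ext (hinj2 s _ _ a.2.1 b.2.1 (congrArg (fun z : Ps G x y => (z : G)) hab))
        exact vp_le hP h4
      have h5 : C (commensurator (P.map π)) ∨
          Tame C (commensurator (P.map π) ⊓ MulAction.stabilizer G x : Subgroup G) := by
        refine h x y hxy (P.map π) ?_ (Infinite.of_injective φ hφi) (vp_surj φ hφs hvp)
        rintro _ ⟨m, hm, rfl⟩
        exact ⟨hs m (hP hm).1, ht m (hP hm).1 (hP hm).2⟩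
      rcases h5 with h5 | h5
      · left
        have hYP : OnTree (commensurator P) Y := ⟨hY.tree, fun g v w h => hY.adj (g : M) v w h⟩
        let ψ : commensurator P →* commensurator (P.map π) :=
          { toFun := fun m => ⟨π m.1, comm_im π P m.2⟩
            map_one' := Subtype.ext (map_one π)
            map_mul' := fun a b => Subtype.ext (map_mul π a.1 b.1) }
        refine Pool.Agent.H93.TR.main hC hE hYP ?_ h5 ψ ?_
        · intro t'
          let f : MulAction.stabilizer (commensurator P) t' →* MulAction.stabilizer M t' :=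
            { toFun := fun m => ⟨(m.1 : M), m.2⟩
              map_one' := rfl
              map_mul' := fun _ _ => rfl }
          refine hC.of_injective f ?_ (hvM t')
          intro a b hab
          exact Subtype.ext (Subtype.ext (congrArg (fun z : MulAction.stabilizer M t' => (z : M)) hab))
        · rintro ⟨m, hm⟩ hk a b _ ha _
          apply Subtype.ext
          have hk' : π m = 1 := congrArg Subtype.val (MonoidHom.mem_ker.1 hk)
          exact hinj m a ha hk'
      · right
        let ψ : (commensurator P ⊓ MulAction.stabilizer M s : Subgroup M) →*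
            (commensurator (P.map π) ⊓ MulAction.stabilizer G x : Subgroup G) :=
          { toFun := fun m => ⟨π m.1, comm_im π P m.2.1, hs m.1 m.2.2⟩
            map_one' := Subtype.ext (map_one π)
            map_mul' := fun a b => Subtype.ext (map_mul π a.1 b.1) }
        refine tame_inj ψ ?_ h5
        intro a b hab
        exact Subtype.ext (hinj2 s _ _ a.2.2 b.2.2 (congrArg
          (fun z : (commensurator (P.map π) ⊓ MulAction.stabilizer G x : Subgroup G) => (z : G)) hab))

end

end Pool.Agent.H50.GN
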