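import Pool.Agent.H50.GN.Tame
import Pool.Agent.H38.GN.Series

/-!
# [GN28] Tameness is a local property

`cls_loc`: the class of the groups which are locally in a class `W` as in `Cls` is a class as in `Cls`. `tame_local`: a group is tame if its
finitely generated subgroups are tame. `tame_raag`: right-angled Artin groups on arbitrary graphs.
-/

set_option autoImplicit false

namespace Pool.Agent.H50.GN

open Pool.Agent.H98.FJ Pool.Agent.H93.TR Pool.Agent.H18.TN Pool.Agent.H18.RG Pool.Agent.H63.RK

section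

variable {C : (G : Type) → [Group G] → Prop}

/-- the largest class as in `Cls` -/
private def WM (C : (G : Type) → [Group G] → Prop) (H : Type) [Group H] : Prop :=
  ∃ W : (G : Type) → [Group G] → Prop, Cls C W ∧ W H

private theorem cls_WM (C : (G : Type) → [Group G] → Prop) : Cls C (WM C) where
  mem G _ := by
    rintro ⟨W, hW, h⟩
    exact hW.mem G h
  inj G H _ _ f hf := by
    rintro ⟨W, hW, h⟩
    exact ⟨W, hW, hW.inj G H f hf h⟩
  tf G _ := by
    rintro ⟨W, hW, h⟩
    exact hW.tf G h
  root G _ := by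
    rintro ⟨W, hW, h⟩
    exact hW.root G h
  quot G Q _ _ f := by
    rintro ⟨W, hW, h⟩ hf hA
    exact ⟨W, hW, hW.quot G Q f h hf hA⟩

private theorem mem_fg (hC : Inherits C) (G : Type) [Group G] (h : ∀ H : Subgroup G, H.FG → C H) : C G := by
  classical
  refine hC.union (ι := Finset G) (fun s => Subgroup.closure (s : Set G)) ?_ ?_ ?_
  · intro s t hst
    exact Subgroup.closure_mono (by exact_mod_cast hst)
  · intro g
    exact ⟨{g}, Subgroup.subset_closure (by simp)⟩
  · intro s
    exact h _ ⟨s, rfl⟩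

private theorem fg_map {G H : Type} [Group G] [Group H] (f : G →* H) (K : Subgroup G) (hK : K.FG) : (K.map f).FG := by
  classical
  obtain ⟨S, hS⟩ := hK
  refine ⟨S.image f, ?_⟩
  rw [Finset.coe_image, ← MonoidHom.map_closure, hS]

private theorem loc_root {W : (G : Type) → [Group G] → Prop} (hW : Cls C W) (G : Type) [Group G]
    (h : ∀ K : Subgroup G, K.FG → W K) (x y : G) (k : ℕ) (hk : k ≠ 0) (hxy : Commute (x ^ k) y) : Commute x y := by
  classical
  have h1 := h (Subgroup.closure (({x, y} : Finset G) : Set G)) ⟨_, rfl⟩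
  have hx : x ∈ Subgroup.closure (({x, y} : Finset G) : Set G) := Subgroup.subset_closure (by simp)
  have hy : y ∈ Subgroup.closure (({x, y} : Finset G) : Set G) := Subgroup.subset_closure (by simp)
  have h2 := hW.root _ h1 ⟨x, hx⟩ ⟨y, hy⟩ k hk (Subtype.ext hxy)
  exact congrArg Subtype.val h2

/-- **groups which are locally in `W`** -/
theorem cls_loc (hC : Inherits C) {W : (G : Type) → [Group G] → Prop} (hW : Cls C W) :
    Cls C (fun G _ => ∀ K : Subgroup G, K.FG → W K) where
  mem G _ h := mem_fg hC G fun K hK => hW.mem K (h K hK)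
  inj G H _ _ f hf h := by
    intro K hK
    exact hW.inj K (K.map f) (K.equivMapOfInjective f hf).toMonoidHom (K.equivMapOfInjective f hf).injective
      (h (K.map f) (fg_map f K hK))
  tf G _ h := by
    classical
    intro x k hk hx
    have h1 := h (Subgroup.closure (({x} : Finset G) : Set G)) ⟨_, rfl⟩
    have hm : x ∈ Subgroup.closure (({x} : Finset G) : Set G) := Subgroup.subset_closure (by simp)
    exact congrArg Subtype.val (hW.tf _ h1 ⟨x, hm⟩ k hk (Subtype.ext hx))
  root G _ h := loc_root hW G h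
  quot G Q _ _ f h hf hA := by
    obtain ⟨A, hAb, -, hker⟩ := hA
    intro K hK
    obtain ⟨K0, hK0, rfl⟩ := Pool.Agent.H38.GN.exists_fg_lift f hf K hK
    refine hW.quot K0 (K0.map f) (f.subgroupMap K0) (h K0 hK0) (f.subgroupMap_surjective K0) ?_
    have hk1 : ∀ c : K0, f.subgroupMap K0 c = 1 ↔ f c = 1 := by
      intro c
      constructor
      · intro hc
        exact congrArg Subtype.val hc
      · intro hc
        exact Subtype.ext hc
    refine ⟨(f.subgroupMap K0).ker, ?_, ?_, ?_⟩
    · intro a ha b hb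
      obtain ⟨k, hk, hak⟩ := (hker a).1 ((hk1 a).1 (MonoidHom.mem_ker.1 ha))
      obtain ⟨m, hm, hbm⟩ := (hker b).1 ((hk1 b).1 (MonoidHom.mem_ker.1 hb))
      have h1 : Commute ((a : G) ^ k) ((b : G) ^ m) := hAb _ hak _ hbm
      have h2 : Commute (a : G) ((b : G) ^ m) := loc_root hW G h _ _ k hk h1
      have h3 : Commute (b : G) (a : G) := loc_root hW G h _ _ m hm h2.symm
      exact Subtype.ext h3.symm
    · intro g a ha
      refine ⟨1, one_ne_zero, ?_⟩
      rw [pow_one]
      exact (MonoidHom.normal_ker _).conj_mem a ha g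
    · intro c
      constructor
      · intro hc
        exact ⟨1, one_ne_zero, by rw [pow_one]; exact hc⟩
      · rintro ⟨k, hk, hck⟩
        rw [hk1]
        have h1 : f ((c ^ k : K0) : G) = 1 := (hk1 _).1 (MonoidHom.mem_ker.1 hck)
        obtain ⟨m, hm, h2⟩ := (hker _).1 h1
        refine (hker _).2 ⟨k * m, Nat.mul_ne_zero hk hm, ?_⟩
        rw [pow_mul]
        exact h2

/-- **tameness is local** -/
theorem tame_local (hC : Inherits C) {H : Type} [Group H] (h : ∀ K : Subgroup H, K.FG → Tame C K) : Tame C H := by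
  classical
  -- the elements of finite order of a finitely generated subgroup
  have key : ∀ K : Subgroup H, K.FG → ∃ (F : Subgroup K) (_ : F.Normal), LocFin F ∧ WM C (K ⧸ F) ∧
      ∀ x : K, x ∈ F ↔ IsOfFinOrder (x : H) := by
    intro K hK
    obtain ⟨W, hW, F, hF, h1, h2⟩ := h K hK
    refine ⟨F, hF, h1, ⟨W, hW, h2⟩, fun x => ⟨fun hx => ?_, fun hx => ?_⟩⟩
    · have h3 : IsOfFinOrder (⟨x, hx⟩ : F) := lf_order h1 _
      obtain ⟨n, hn, h4⟩ := isOfFinOrder_iff_pow_eq_one.1 h3
      exact isOfFinOrder_iff_pow_eq_one.2 ⟨n, hn, congrArg (fun z : F => ((z : K) : H)) h4⟩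
    · obtain ⟨n, hn, h4⟩ := isOfFinOrder_iff_pow_eq_one.1 hx
      have h5 : x ^ n = 1 := Subtype.ext h4
      have h6 : (QuotientGroup.mk x : K ⧸ F) = 1 := by
        refine hW.tf _ h2 _ n hn.ne' ?_
        rw [← QuotientGroup.mk_pow, h5, QuotientGroup.mk_one]
      exact (QuotientGroup.eq_one_iff x).1 h6
  let F : Subgroup H :=
    { carrier := {x | IsOfFinOrder x}
      one_mem' := IsOfFinOrder.one
      mul_mem' := by
        intro x y hx hy
        obtain ⟨F, hF, h1, -, h2⟩ := key (Subgroup.closure (({x, y} : Finset H) : Set H)) ⟨_, rfl⟩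
        have hx' : x ∈ Subgroup.closure (({x, y} : Finset H) : Set H) := Subgroup.subset_closure (by simp)
        have hy' : y ∈ Subgroup.closure (({x, y} : Finset H) : Set H) := Subgroup.subset_closure (by simp)
        exact (h2 (⟨x, hx'⟩ * ⟨y, hy'⟩)).1 (F.mul_mem ((h2 ⟨x, hx'⟩).2 hx) ((h2 ⟨y, hy'⟩).2 hy))
      inv_mem' := by
        intro x hx
        exact hx.inv }
  have hFn : F.Normal := by
    refine ⟨fun x hx g => ?_⟩
    have hx' : IsOfFinOrder x := hx
    obtain ⟨n, hn, h1⟩ := isOfFinOrder_iff_pow_eq_one.1 hx'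
    refine isOfFinOrder_iff_pow_eq_one.2 ⟨n, hn, ?_⟩
    rw [conj_pow, h1, mul_one, mul_inv_cancel]
  have hFl : LocFin F := by
    intro D hD
    have hD' : (D.map F.subtype).FG := fg_map F.subtype D hD
    obtain ⟨F1, hF1, h1, -, h2⟩ := key (D.map F.subtype) hD'
    have h3 : F1 = ⊤ := by
      rw [eq_top_iff]
      intro x _
      refine (h2 x).2 ?_
      obtain ⟨y, _, hy⟩ := x.2
      rw [← hy]
      exact y.2
    have h4 : Group.FG (D.map F.subtype) := (Group.fg_iff_subgroup_fg _).2 hD'
    have h5 : (⊤ : Subgroup (D.map F.subtype)).FG := Group.fg_def.1 h4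
    have h6 : LocFin (⊤ : Subgroup (D.map F.subtype)) := by
      rw [← h3]
      exact h1
    have h7 : Finite (D.map F.subtype) := by
      have h8 : (⊤ : Subgroup (⊤ : Subgroup (D.map F.subtype))).FG := by
        have : Group.FG (⊤ : Subgroup (D.map F.subtype)) := (Group.fg_iff_subgroup_fg _).2 h5
        exact Group.fg_def.1 this
      have h9 : Finite (⊤ : Subgroup (⊤ : Subgroup (D.map F.subtype))) := h6 _ h8
      refine Finite.of_injective (fun x : D.map F.subtype =>
        (⟨⟨x, Subgroup.mem_top x⟩, Subgroup.mem_top _⟩ : (⊤ : Subgroup (⊤ : Subgroup (D.map F.subtype))))) ?_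
      intro x y hxy
      exact congrArg (fun z : (⊤ : Subgroup (⊤ : Subgroup (D.map F.subtype))) => ((z : (⊤ : Subgroup (D.map F.subtype))) : D.map F.subtype)) hxy
    exact Finite.of_injective (D.equivMapOfInjective F.subtype F.subtype_injective)
      (D.equivMapOfInjective F.subtype F.subtype_injective).injective
  refine ⟨fun G _ => ∀ K : Subgroup G, K.FG → WM C K, cls_loc hC (cls_WM C), F, hFn, hFl, ?_⟩
  intro K hK
  obtain ⟨K0, hK0, rfl⟩ := Pool.Agent.H38.GN.exists_fg_lift (QuotientGroup.mk' F) (QuotientGroup.mk'_surjective F) K hK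
  obtain ⟨F1, hF1, -, hW1, h2⟩ := key K0 hK0
  let g : K0 →* K0.map (QuotientGroup.mk' F) := (QuotientGroup.mk' F).subgroupMap K0
  have hg : Function.Surjective g := (QuotientGroup.mk' F).subgroupMap_surjective K0
  have hker : F1 = g.ker := by
    ext x
    rw [h2, MonoidHom.mem_ker]
    constructor
    · intro hx
      exact Subtype.ext ((QuotientGroup.eq_one_iff (x : H)).2 hx)
    · intro hx
      exact (QuotientGroup.eq_one_iff (x : H)).1 (congrArg Subtype.val hx)
  subst hker
  refine (cls_WM C).inj _ _ (QuotientGroup.quotientKerEquivOfSurjective g hg).symm.toMonoidHom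
    (QuotientGroup.quotientKerEquivOfSurjective g hg).symm.injective hW1

/-! ### right-angled Artin groups -/

private theorem rg_comm {V : Type} {Γ : SimpleGraph V} {a b : V} (h : Γ.Adj a b) :
    (PresentedGroup.of a : Raag Γ) * PresentedGroup.of b = PresentedGroup.of b * PresentedGroup.of a := by
  have h1 : PresentedGroup.mk (raagRels Γ)
      (FreeGroup.of a * FreeGroup.of b * (FreeGroup.of a)⁻¹ * (FreeGroup.of b)⁻¹) = 1 :=
    PresentedGroup.one_of_mem ⟨a, b, h, rfl⟩
  rw [map_mul, map_mul, map_mul, map_inv, map_inv, mul_inv_eq_one, mul_inv_eq_iff_eq_mul] at h1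
  exact h1

private theorem rel_one {V G : Type} [Group G] {Γ : SimpleGraph V} (f : V → G)
    (h : ∀ a b : V, Γ.Adj a b → f a * f b = f b * f a) :
    ∀ r ∈ raagRels Γ, FreeGroup.lift f r = 1 := by
  rintro r ⟨a, b, hab, rfl⟩
  rw [map_mul, map_mul, map_mul, map_inv, map_inv, FreeGroup.lift_apply_of, FreeGroup.lift_apply_of,
    h a b hab]
  group

/-- the retraction to the group of a subset of the vertices is injective on the subgroup generated by the subset -/
private theorem retr {V : Type} (Γ : SimpleGraph V) (s : Set V) :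
    ∃ (r : Raag Γ →* Raag (Γ.induce s)) (ι : Raag (Γ.induce s) →* Raag Γ),
      ∀ x ∈ Subgroup.closure ((fun v => (PresentedGroup.of v : Raag Γ)) '' s), ι (r x) = x := by
  classical
  let f : V → Raag (Γ.induce s) := fun v => if h : v ∈ s then PresentedGroup.of ⟨v, h⟩ else 1
  have hf : ∀ a b : V, Γ.Adj a b → f a * f b = f b * f a := by
    intro a b hab
    by_cases ha : a ∈ s
    · by_cases hb : b ∈ s
      · simp only [f, dif_pos ha, dif_pos hb]
        exact rg_comm (Γ := Γ.induce s) (a := ⟨a, ha⟩) (b := ⟨b, hb⟩) hab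
      · simp only [f, dif_neg hb, one_mul, mul_one]
    · simp only [f, dif_neg ha, one_mul, mul_one]
  let g : ↑s → Raag Γ := fun v => PresentedGroup.of v.1
  have hg : ∀ a b : ↑s, (Γ.induce s).Adj a b → g a * g b = g b * g a := fun a b hab => rg_comm hab
  refine ⟨PresentedGroup.toGroup (rel_one f hf), PresentedGroup.toGroup (rel_one g hg), ?_⟩
  intro x hx
  induction hx using Subgroup.closure_induction with
  | mem x hx =>
    obtain ⟨v, hv, rfl⟩ := hx
    show PresentedGroup.toGroup (rel_one g hg) (PresentedGroup.toGroup (rel_one f hf) (PresentedGroup.of v)) = _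
    rw [PresentedGroup.toGroup.of]
    simp only [f, dif_pos hv]
    rw [PresentedGroup.toGroup.of]
  | one => rw [map_one, map_one]
  | mul x y _ _ hx hy => rw [map_mul, map_mul, hx, hy]
  | inv x _ hx => rw [map_inv, map_inv, hx]

private theorem exists_supp {V : Type} (Γ : SimpleGraph V) (x : Raag Γ) :
    ∃ s : Finset V, x ∈ Subgroup.closure ((fun v => (PresentedGroup.of v : Raag Γ)) '' (s : Set V)) := by
  classical
  have hx : x ∈ Subgroup.closure (Set.range (fun v => (PresentedGroup.of v : Raag Γ))) := by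
    have h := PresentedGroup.closure_range_of (raagRels Γ)
    rw [show Set.range (fun v => (PresentedGroup.of v : Raag Γ)) = Set.range PresentedGroup.of from rfl, h]
    exact Subgroup.mem_top x
  induction hx using Subgroup.closure_induction with
  | mem x hx =>
    obtain ⟨v, rfl⟩ := hx
    exact ⟨{v}, Subgroup.subset_closure ⟨v, by simp, rfl⟩⟩
  | one => exact ⟨∅, Subgroup.one_mem _⟩
  | mul x y _ _ hx hy =>
    obtain ⟨s, hs⟩ := hx
    obtain ⟨t, ht⟩ := hy
    refine ⟨s ∪ t, Subgroup.mul_mem _ (Subgroup.closure_mono (Set.image_mono ?_) hs)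
      (Subgroup.closure_mono (Set.image_mono ?_) ht)⟩
    · rw [Finset.coe_union]
      exact Set.subset_union_left
    · rw [Finset.coe_union]
      exact Set.subset_union_right
  | inv x _ hx =>
    obtain ⟨s, hs⟩ := hx
    exact ⟨s, Subgroup.inv_mem _ hs⟩

/-- finitely generated subgroups of `Raag Γ × P` embed in `Raag Γ' × P` with `Γ'` finite -/
theorem tame_raag (hC : Inherits C) {V P : Type} [Group P] (Γ : SimpleGraph V)
    (h : ∀ s : Finset V, Tame C (Raag (Γ.induce (s : Set V)) × P)) : Tame C (Raag Γ × P) := by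
  classical
  refine tame_local hC ?_
  intro K hK
  obtain ⟨T, hT⟩ := hK
  choose σ hσ using exists_supp Γ
  let s : Finset V := T.biUnion (fun x => σ x.1)
  obtain ⟨r, ι, hrι⟩ := retr Γ (s : Set V)
  have hK1 : ∀ x ∈ K, x.1 ∈ Subgroup.closure ((fun v => (PresentedGroup.of v : Raag Γ)) '' (s : Set V)) := by
    intro x hx
    rw [← hT] at hx
    have h1 : Subgroup.closure (T : Set (Raag Γ × P)) ≤
        (Subgroup.closure ((fun v => (PresentedGroup.of v : Raag Γ)) '' (s : Set V))).comap (MonoidHom.fst (Raag Γ) P) := by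
      rw [Subgroup.closure_le]
      intro y hy
      refine Subgroup.closure_mono (Set.image_mono ?_) (hσ y.1)
      intro v hv
      exact Finset.mem_coe.2 (Finset.mem_biUnion.2 ⟨y, Finset.mem_coe.1 hy, Finset.mem_coe.1 hv⟩)
    exact h1 hx
  let φ : K →* Raag (Γ.induce (s : Set V)) × P :=
    { toFun := fun x => (r x.1.1, x.1.2)
      map_one' := by
        ext
        · exact map_one r
        · rfl
      map_mul' := fun x y => by
        ext
        · exact map_mul r _ _
        · rfl }
  refine tame_inj φ ?_ (h s)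
  intro x y hxy
  have h1 : (φ x).1 = (φ y).1 := by rw [hxy]
  have h2 : (φ x).2 = (φ y).2 := by rw [hxy]
  change r x.1.1 = r y.1.1 at h1
  change x.1.2 = y.1.2 at h2
  have h3 : x.1.1 = y.1.1 := by
    rw [← hrι _ (hK1 _ x.2), ← hrι _ (hK1 _ y.2), h1]
  exact Subtype.ext (Prod.ext h3 h2)

end

end Pool.Agent.H50.GN
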