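import Pool.Agent.H50.GN.Fin
import Pool.Agent.H18.TN.Cls

/-!
# [GN25] Groups acting on trees with locally virtually polycyclic edge stabilisers
-/

set_option autoImplicit false

namespace Pool.Agent.H50.GN

open Pool.Agent.H98.FJ Pool.Agent.H93.TR Pool.Agent.H76.GT Pool.Agent.H75.CX Pool.Agent.H18.TN

/-- **graphs of groups**: vertex stabilisers (locally finite)-by-`W`, edge stabilisers locally virtually polycyclic -/
theorem graphs {C W : (G : Type) → [Group G] → Prop} (hC : Inherits C) (hE : Extension C) (hT : Transfer C)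
    (hS : ∀ (G : Type) [Group G], Group.IsSolvable G → C G) (hW : Cls C W) {G V : Type} [Group G] [MulAction G V]
    {X : SimpleGraph V} (hX : OnTree G X) (hv : ∀ v : V, WT W (MulAction.stabilizer G v))
    (he : ∀ v w : V, X.Adj v w → LVP (MulAction.stabilizer G v ⊓ MulAction.stabilizer G w : Subgroup G)) : C G :=
  graphs_of hC hE hT hW (fun _ _ _ _ _ hX hv he => gn hC hE hT hS hW hX hv he) hX hv he

end Pool.Agent.H50.GN
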