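import Pool.Agent.H50.GN.NeatA

/-!
# [GN23] Neat groups

`NTn n G`: there is a series of normal subgroups of `G` of length `n` whose factors `M` are locally finite, or embed in `ℚ ^ r` and satisfy: `(v x) ^ k = x ^ k`
implies `v = 1` (`v ∈ M`, `x ∈ G`, `k ≠ 0`), that is, no `x` has a root of unity `≠ 1` as an eigenvalue on `M ⊗ ℂ`:
`Pk x v k = (v x) ^ k * (x ^ k)⁻¹ = v (x v x⁻¹) ⋯ (x ^ (k-1) v x ^ -(k-1))`.

Proof. `AB Q`: finite sets of torsion elements generate finite subgroups, and if `x ^ k` and `y` commute, `k ≠ 0`, then `⁅x, y⁆` has finite order.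
`sec_AB`: all sections `Q` (`i : H → G` injective, `p : H → Q` surjective) of a group with `NTn n` satisfy `AB`, and are solvable if they are
torsion-free; induction over `n`: `Q` is an extension of a section of `G ⧸ M` by `R = p (i⁻¹ M)`. (1) `AB.ext1`: extensions with a
locally finite kernel. (2) `AB.ext2`: extensions with a kernel `K` which is commutative, torsion-free and satisfies the condition (`KC`): an
element `u` with a power in `K` centralises `K` (`KC.cen`: `v u v⁻¹ = w u` with `w ∈ K` and `(w u) ^ a = u ^ a`), so a subgroup `L` generated by finitely many such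
elements has a center of finite index `n`, and the power `n` is a homomorphism from `L` to its center (transfer, `KC.ctr`). For torsion elements: `L`
is torsion, so `L ∩ K = 1` and `L` is finite. For `w = ⁅x, y⁆`, `x' = y x y⁻¹`: `Pk x' w k = 1` as `w x' = x`, and `L` is generated by the conjugates
of `w` by the powers of `x'`: `Pk x' (w ^ m) k = (Pk x' w k) ^ m = 1` for a multiple `m` of `n` with `w ^ m ∈ K`, so `w ^ m = 1`. (3) `kind2`: if `M` is of the
second kind then `R` is commutative and satisfies the condition modulo its torsion subgroup `D`: `φ = Pk x · k` is an injective endomorphism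
of `A = i⁻¹ M`, `φ (A ∩ ker p) ≤ A ∩ ker p`, the ranks of `φ⁻¹ (A ∩ ker p)` and `A ∩ ker p` are equal, so the quotient is torsion (`rk`); apply (2) to
`Q ⧸ D → Q ⧸ R` and (1) to `Q → Q ⧸ D`. (4) Solvable: for `Q` torsion-free let `T` be the preimage of the torsion subgroup of `Q ⧸ R`; `T` is
commutative (`KC.comm`) and `Q ⧸ T` is a torsion-free section of `G ⧸ M`. `NT.secRoot`: the section (normaliser of `N`) `⧸ N`.
-/

set_option autoImplicit false

namespace Pool.Agent.H50.GN

open Pool.Agent.H98.FJ Pool.Agent.H93.TR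

/-- torsion elements generate locally finite subgroups, roots commute up to torsion -/
structure AB (Q : Type) [Group Q] : Prop where
  lf : ∀ s : Finset Q, (∀ x ∈ s, IsOfFinOrder x) → Finite (Subgroup.closure (s : Set Q))
  rt : ∀ (x y : Q) (k : ℕ), k ≠ 0 → Commute (x ^ k) y → IsOfFinOrder (x * y * x⁻¹ * y⁻¹)

theorem AB.mul {Q : Type} [Group Q] (h : AB Q) {a b : Q} (ha : IsOfFinOrder a) (hb : IsOfFinOrder b) :
    IsOfFinOrder (a * b) := by
  classical
  have h1 : Finite (Subgroup.closure (({a, b} : Finset Q) : Set Q)) := h.lf {a, b} (by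
    intro x hx
    rw [Finset.mem_insert, Finset.mem_singleton] at hx
    rcases hx with rfl | rfl
    · exact ha
    · exact hb)
  have h2 : a * b ∈ Subgroup.closure (({a, b} : Finset Q) : Set Q) :=
    mul_mem (Subgroup.subset_closure (by simp)) (Subgroup.subset_closure (by simp))
  have h3 := isOfFinOrder_of_finite (⟨a * b, h2⟩ : Subgroup.closure (({a, b} : Finset Q) : Set Q))
  exact (Subgroup.subtype _).isOfFinOrder h3

/-- the torsion subgroup -/
def AB.tors {Q : Type} [Group Q] (h : AB Q) : Subgroup Q where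
  carrier := {x | IsOfFinOrder x}
  one_mem' := IsOfFinOrder.one
  mul_mem' := h.mul
  inv_mem' := fun h => h.inv

theorem AB.mem_tors {Q : Type} [Group Q] (h : AB Q) {x : Q} : x ∈ h.tors ↔ IsOfFinOrder x := Iff.rfl

theorem fo_conj {Q : Type} [Group Q] {x : Q} (g : Q) (h : IsOfFinOrder x) : IsOfFinOrder (g * x * g⁻¹) := by
  exact (MulAut.conj g).toMonoidHom.isOfFinOrder h

theorem AB.tors_normal {Q : Type} [Group Q] (h : AB Q) : h.tors.Normal :=
  ⟨fun _ hx g => fo_conj g hx⟩

/-- a finitely generated group with a finite image and locally finite kernel is finite -/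
theorem fin_of_ext {Q Q' : Type} [Group Q] [Group Q'] (f : Q →* Q')
    (hK : ∀ s : Finset Q, (∀ x ∈ s, f x = 1) → Finite (Subgroup.closure (s : Set Q))) (s : Finset Q)
    (hs : Finite ((Subgroup.closure (s : Set Q)).map f)) : Finite (Subgroup.closure (s : Set Q)) := by
  classical
  set L := Subgroup.closure (s : Set Q) with hL
  let g : L →* Q' := f.comp L.subtype
  have hr : g.range = L.map f := by
    ext z
    constructor
    · rintro ⟨u, rfl⟩
      exact ⟨u.1, u.2, rfl⟩
    · rintro ⟨u, hu, rfl⟩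
      exact ⟨⟨u, hu⟩, rfl⟩
  have : Finite g.range := by rw [hr]; exact hs
  have : Group.FG L := (Group.fg_iff_subgroup_fg L).2 ⟨s, rfl⟩
  have : g.ker.FiniteIndex := Subgroup.finiteIndex_ker g
  have h1 : Group.FG g.ker := Subgroup.fg_of_index_ne_zero g.ker
  have h2 : g.ker.FG := (Group.fg_iff_subgroup_fg _).1 h1
  obtain ⟨t, ht⟩ := h2
  have h3 : Finite (Subgroup.closure ((t.image L.subtype : Finset Q) : Set Q)) := by
    apply hK
    intro x hx
    rw [Finset.mem_image] at hx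
    obtain ⟨u, hu, rfl⟩ := hx
    have : u ∈ g.ker := by rw [← ht]; exact Subgroup.subset_closure hu
    exact this
  have h4 : Subgroup.closure ((t.image L.subtype : Finset Q) : Set Q) = g.ker.map L.subtype := by
    rw [← ht, MonoidHom.map_closure]
    simp
  rw [h4] at h3
  have : Finite g.ker := by
    refine Finite.of_injective (fun u : g.ker => (⟨u.1.1, ⟨u.1, u.2, rfl⟩⟩ : g.ker.map L.subtype)) ?_
    intro u v huv
    have := congrArg (fun z => z.1) huv
    exact Subtype.ext (Subtype.ext this)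
  exact (MonoidHom.finite_iff_finite_ker_range g).2 ⟨inferInstance, inferInstance⟩

theorem map_fin {Q Q' : Type} [Group Q] [Group Q'] (f : Q →* Q') (h : AB Q') (s : Finset Q)
    (hs : ∀ x ∈ s, IsOfFinOrder (f x)) : Finite ((Subgroup.closure (s : Set Q)).map f) := by
  classical
  have h1 := h.lf (s.image f) (by
    intro x hx
    rw [Finset.mem_image] at hx
    obtain ⟨u, hu, rfl⟩ := hx
    exact hs u hu)
  rw [MonoidHom.map_closure]
  rwa [Finset.coe_image] at h1

theorem AB.ext1 {Q Q' : Type} [Group Q] [Group Q'] (f : Q →* Q') (h : AB Q')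
    (hK : ∀ s : Finset Q, (∀ x ∈ s, f x = 1) → Finite (Subgroup.closure (s : Set Q))) : AB Q where
  lf s hs := fin_of_ext f hK s (map_fin f h s fun x hx => f.isOfFinOrder (hs x hx))
  rt x y k hk hc := by
    classical
    have h1 := h.rt (f x) (f y) k hk (by
      have := hc.map f
      rwa [map_pow] at this)
    obtain ⟨a, ha, h2⟩ := h1.exists_pow_eq_one
    have h3 : f ((x * y * x⁻¹ * y⁻¹) ^ a) = 1 := by
      rw [map_pow]
      simpa using h2
    have h4 := hK {(x * y * x⁻¹ * y⁻¹) ^ a} (by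
      intro z hz
      rw [Finset.mem_singleton] at hz
      rw [hz]; exact h3)
    have h5 := isOfFinOrder_of_finite (⟨(x * y * x⁻¹ * y⁻¹) ^ a, Subgroup.subset_closure (by simp)⟩ :
      Subgroup.closure ((({(x * y * x⁻¹ * y⁻¹) ^ a} : Finset Q)) : Set Q))
    exact ((Subgroup.subtype _).isOfFinOrder h5).of_pow (by omega)

/-- the kernel is commutative, torsion-free and neat -/
structure KC {Q Q' : Type} [Group Q] [Group Q'] (f : Q →* Q') : Prop where
  ab : ∀ u v : Q, f u = 1 → f v = 1 → u * v = v * u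
  tf : ∀ v : Q, f v = 1 → IsOfFinOrder v → v = 1
  nt : ∀ v x : Q, f v = 1 → ∀ k : ℕ, k ≠ 0 → (v * x) ^ k = x ^ k → v = 1

/-- elements with a power in the kernel centralise the kernel -/
theorem KC.cen {Q Q' : Type} [Group Q] [Group Q'] {f : Q →* Q'} (hf : KC f) {u v : Q}
    (hu : IsOfFinOrder (f u)) (hv : f v = 1) : u * v = v * u := by
  obtain ⟨a, ha, h1⟩ := hu.exists_pow_eq_one
  rw [← map_pow] at h1
  have h2 : (v * u * v⁻¹ * u⁻¹ * u) ^ a = u ^ a := by
    rw [inv_mul_cancel_right]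
    have h3 : v * u * v⁻¹ = MulAut.conj v u := rfl
    rw [h3, ← map_pow]
    show v * u ^ a * v⁻¹ = u ^ a
    rw [hf.ab v _ hv h1, mul_inv_cancel_right]
  have h4 := hf.nt (v * u * v⁻¹ * u⁻¹) u (by simp [hv]) a (by omega) h2
  have h5 : v * u * v⁻¹ * u⁻¹ * (u * v) = v * u := by group
  rw [h4, one_mul] at h5
  exact h5

/-- a power is a homomorphism with commutative image -/
theorem KC.ctr {Q Q' : Type} [Group Q] [Group Q'] {f : Q →* Q'} (hf : KC f) (h : AB Q') (s : Finset Q)
    (hs : ∀ x ∈ s, IsOfFinOrder (f x)) : ∃ n : ℕ, n ≠ 0 ∧ ∀ a ∈ Subgroup.closure (s : Set Q),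
      ∀ b ∈ Subgroup.closure (s : Set Q), (a * b) ^ n = a ^ n * b ^ n ∧ a ^ n * b ^ n = b ^ n * a ^ n := by
  set L := Subgroup.closure (s : Set Q) with hL
  have hfin : Finite (L.map f) := map_fin f h s hs
  have hto : ∀ u ∈ L, IsOfFinOrder (f u) := by
    intro u hu
    exact (Subgroup.subtype _).isOfFinOrder (isOfFinOrder_of_finite (⟨f u, ⟨u, hu, rfl⟩⟩ : L.map f))
  let g : L →* Q' := f.comp L.subtype
  have hr : g.range = L.map f := by
    ext z
    constructor
    · rintro ⟨u, rfl⟩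
      exact ⟨u.1, u.2, rfl⟩
    · rintro ⟨u, hu, rfl⟩
      exact ⟨⟨u, hu⟩, rfl⟩
  have : Finite g.range := by rw [hr]; exact hfin
  have h1 : g.ker.FiniteIndex := Subgroup.finiteIndex_ker g
  have h2 : g.ker ≤ Subgroup.center L := by
    intro v hv
    rw [Subgroup.mem_center_iff]
    intro u
    exact Subtype.ext (hf.cen (hto u.1 u.2) hv)
  have h3 : (Subgroup.center L).FiniteIndex := Subgroup.finiteIndex_of_le h2
  refine ⟨(Subgroup.center L).index, Subgroup.FiniteIndex.index_ne_zero, fun a ha b hb => ?_⟩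
  have h4 := congrArg (fun z => (z.1.1 : Q)) ((MonoidHom.transferCenterPow L).map_mul ⟨a, ha⟩ ⟨b, hb⟩)
  have h5 := congrArg (fun z : L => (z.1 : Q))
    (Subgroup.mem_center_iff.1 (MonoidHom.transferCenterPow L ⟨b, hb⟩).2 (MonoidHom.transferCenterPow L ⟨a, ha⟩).1)
  exact ⟨h4, h5⟩

/-- the product of the conjugates -/
def Pk {Q : Type} [Group Q] (x v : Q) : ℕ → Q
  | 0 => 1
  | k + 1 => v * (x * Pk x v k * x⁻¹)

theorem Pk_eq {Q : Type} [Group Q] (x v : Q) (k : ℕ) : Pk x v k = (v * x) ^ k * (x ^ k)⁻¹ := by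
  induction k with
  | zero => simp [Pk]
  | succ k ih =>
    show v * (x * Pk x v k * x⁻¹) = _
    rw [ih, pow_succ' (v * x), pow_succ x]
    group

theorem Pk_one_iff {Q : Type} [Group Q] (x v : Q) (k : ℕ) : Pk x v k = 1 ↔ (v * x) ^ k = x ^ k := by
  rw [Pk_eq, mul_inv_eq_one]

theorem Pk_mem {Q : Type} [Group Q] (x v : Q) (k : ℕ) (L : Subgroup Q) (j : ℕ)
    (hL : ∀ i, i < k + j → x ^ i * v * (x ^ i)⁻¹ ∈ L) : x ^ j * Pk x v k * (x ^ j)⁻¹ ∈ L := by
  induction k generalizing j with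
  | zero => simp [Pk]
  | succ k ih =>
    have h1 : x ^ j * Pk x v (k + 1) * (x ^ j)⁻¹ =
        (x ^ j * v * (x ^ j)⁻¹) * (x ^ (j + 1) * Pk x v k * (x ^ (j + 1))⁻¹) := by
      show x ^ j * (v * (x * Pk x v k * x⁻¹)) * (x ^ j)⁻¹ = _
      rw [pow_succ x j]
      group
    rw [h1]
    exact mul_mem (hL j (by omega)) (ih (j + 1) (fun i hi => hL i (by omega)))

theorem Pk_pow {Q : Type} [Group Q] (x v : Q) (m K : ℕ) (L : Subgroup Q)
    (hm : ∀ a ∈ L, ∀ b ∈ L, (a * b) ^ m = a ^ m * b ^ m)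
    (hL : ∀ i, i < K → x ^ i * v * (x ^ i)⁻¹ ∈ L) (k : ℕ) (hk : k ≤ K) : Pk x v k ^ m = Pk x (v ^ m) k := by
  induction k with
  | zero => simp [Pk]
  | succ k ih =>
    show (v * (x * Pk x v k * x⁻¹)) ^ m = v ^ m * (x * Pk x (v ^ m) k * x⁻¹)
    have h1 : v ∈ L := by simpa using hL 0 (by omega)
    have h2 : x * Pk x v k * x⁻¹ ∈ L := by
      have := Pk_mem x v k L 1 (fun i hi => hL i (by omega))
      rwa [pow_one] at this
    rw [hm _ h1 _ h2, ← ih (by omega)]
    congr 1
    exact (map_pow (MulAut.conj x) (Pk x v k) m).symm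

theorem KC.comm {Q Q' : Type} [Group Q] [Group Q'] {f : Q →* Q'} (hf : KC f) (h : AB Q') (u v : Q)
    (hu : IsOfFinOrder (f u)) (hv : IsOfFinOrder (f v)) : IsOfFinOrder (u * v * u⁻¹ * v⁻¹) := by
  classical
  obtain ⟨n, hn, h1⟩ := hf.ctr h {u, v} (by
    intro x hx
    rw [Finset.mem_insert, Finset.mem_singleton] at hx
    rcases hx with rfl | rfl
    · exact hu
    · exact hv)
  set L := Subgroup.closure ((({u, v} : Finset Q)) : Set Q) with hL
  have huL : u ∈ L := Subgroup.subset_closure (by simp)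
  have hvL : v ∈ L := Subgroup.subset_closure (by simp)
  refine isOfFinOrder_iff_pow_eq_one.2 ⟨n, by omega, ?_⟩
  rw [(h1 _ (mul_mem (mul_mem huL hvL) (inv_mem huL)) _ (inv_mem hvL)).1,
    (h1 _ (mul_mem huL hvL) _ (inv_mem huL)).1, (h1 _ huL _ hvL).1, (h1 _ huL _ hvL).2, inv_pow, inv_pow]
  group

theorem AB.ext2 {Q Q' : Type} [Group Q] [Group Q'] (f : Q →* Q') (h : AB Q') (hf : KC f) : AB Q where
  lf s hs := by
    obtain ⟨n, hn, h1⟩ := hf.ctr h s (fun x hx => f.isOfFinOrder (hs x hx))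
    have h2 : ∀ u ∈ Subgroup.closure (s : Set Q), IsOfFinOrder u := by
      intro u hu
      induction hu using Subgroup.closure_induction with
      | mem x hx => exact hs x hx
      | one => exact IsOfFinOrder.one
      | mul a b ha hb ha1 hb1 =>
        have h3 : IsOfFinOrder ((a * b) ^ n) := by
          rw [(h1 a ha b hb).1]
          exact Commute.isOfFinOrder_mul (h1 a ha b hb).2 ha1.pow hb1.pow
        exact h3.of_pow hn
      | inv a ha ha1 => exact ha1.inv
    have h3 := map_fin f h s (fun x hx => f.isOfFinOrder (hs x hx))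
    refine Finite.of_injective (fun u : Subgroup.closure (s : Set Q) =>
      (⟨f u.1, ⟨u.1, u.2, rfl⟩⟩ : (Subgroup.closure (s : Set Q)).map f)) ?_
    intro u v huv
    have h4 : f u.1 = f v.1 := congrArg (fun z => z.1) huv
    have h5 : f (u.1 * v.1⁻¹) = 1 := by rw [map_mul, map_inv, h4, mul_inv_cancel]
    have h6 := hf.tf _ h5 (h2 _ (mul_mem u.2 (inv_mem v.2)))
    exact Subtype.ext (mul_inv_eq_one.1 h6)
  rt x y k hk hc := by
    classical
    have h1 := h.rt (f x) (f y) k hk (by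
      have := hc.map f
      rwa [map_pow] at this)
    set w := x * y * x⁻¹ * y⁻¹ with hw
    set x' := y * x * y⁻¹ with hx'
    have hfw : IsOfFinOrder (f w) := by
      rw [hw]
      simpa using h1
    have h2 : Pk x' w k = 1 := by
      rw [Pk_one_iff]
      have e1 : w * x' = x := by rw [hw, hx']; group
      have e2 : x' ^ k = y * x ^ k * y⁻¹ := (map_pow (MulAut.conj y) x k).symm
      rw [e1, e2, ← hc.eq, mul_inv_cancel_right]
    let s : Finset Q := (Finset.range k).image (fun i => x' ^ i * w * (x' ^ i)⁻¹)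
    obtain ⟨n, hn, h3⟩ := hf.ctr h s (by
      intro z hz
      rw [Finset.mem_image] at hz
      obtain ⟨i, -, rfl⟩ := hz
      rw [map_mul, map_mul, map_inv]
      exact fo_conj _ hfw)
    obtain ⟨a, ha, h4⟩ := hfw.exists_pow_eq_one
    have hL : ∀ i, i < k → x' ^ i * w * (x' ^ i)⁻¹ ∈ Subgroup.closure (s : Set Q) := by
      intro i hi
      refine Subgroup.subset_closure ?_
      rw [Finset.mem_coe, Finset.mem_image]
      exact ⟨i, Finset.mem_range.2 hi, rfl⟩
    have h5 : ∀ u ∈ Subgroup.closure (s : Set Q), ∀ v ∈ Subgroup.closure (s : Set Q),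
        (u * v) ^ (n * a) = u ^ (n * a) * v ^ (n * a) := by
      intro u hu v hv
      rw [pow_mul, pow_mul, pow_mul, (h3 u hu v hv).1]
      exact Commute.mul_pow (h3 u hu v hv).2 a
    have h6 := Pk_pow x' w (n * a) k _ h5 hL k le_rfl
    rw [h2, one_pow] at h6
    have h7 := hf.nt (w ^ (n * a)) x' (by rw [map_pow, mul_comm, pow_mul, h4, one_pow]) k hk
      ((Pk_one_iff _ _ _).1 h6.symm)
    exact isOfFinOrder_iff_pow_eq_one.2 ⟨n * a, Nat.mul_pos (by omega) ha, h7⟩

/-- an injective endomorphism `φ` of a commutative group of finite rank with `φ A₀ ≤ A₀`: an element with `φ v ∈ A₀` has a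
power in `A₀` -/
theorem rk_aux {A : Type} [AddCommGroup A] {r : ℕ} (f : A →+ (Fin r → ℚ)) (hf : Function.Injective f) (φ : A →+ A)
    (hφ : Function.Injective φ) (B : AddSubgroup A) (h0 : ∀ a ∈ B, φ a ∈ B) (v : A) (hv : φ v ∈ B) :
    ∃ b : ℕ, b ≠ 0 ∧ b • v ∈ B := by
  have hfin : Module.rank ℤ A < Cardinal.aleph0 := by
    have h1 : Module.rank ℤ A ≤ Module.rank ℤ (Fin r → ℚ) :=
      LinearMap.rank_le_of_injective f.toIntLinearMap hf
    have h2 : Module.rank ℤ (Fin r → ℚ) = Module.rank ℚ (Fin r → ℚ) := (IsFractionRing.rank_right_eq ℤ ℚ _).symm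
    rw [h2] at h1
    refine lt_of_le_of_lt h1 ?_
    rw [rank_fin_fun]
    exact Cardinal.natCast_lt_aleph0
  let M₁ : Submodule ℤ A := AddSubgroup.toIntSubmodule (B.comap φ)
  let M₀ : Submodule ℤ A := AddSubgroup.toIntSubmodule B
  let N : Submodule ℤ M₁ := M₀.comap M₁.subtype
  have hq := rank_quotient_add_rank_of_isDomain N
  have h1 : Module.rank ℤ M₁ ≤ Module.rank ℤ N := by
    have h2 : ∀ u : M₁, φ u.1 ∈ M₁ := fun u => h0 _ u.2
    let ψ : M₁ →+ N :=
      { toFun := fun u => ⟨⟨φ u.1, h2 u⟩, u.2⟩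
        map_zero' := Subtype.ext (Subtype.ext (map_zero φ))
        map_add' := fun a b => Subtype.ext (Subtype.ext (map_add φ a.1 b.1)) }
    refine LinearMap.rank_le_of_injective ψ.toIntLinearMap ?_
    intro a b hab
    have h3 : φ a.1 = φ b.1 := congrArg (fun z : N => z.1.1) hab
    exact Subtype.ext (hφ h3)
  have h3 : Module.rank ℤ M₁ < Cardinal.aleph0 := lt_of_le_of_lt (Submodule.rank_le M₁) hfin
  have h4 : Module.rank ℤ (M₁ ⧸ N) = 0 := by
    have h5 : Module.rank ℤ N < Cardinal.aleph0 := lt_of_le_of_lt (Submodule.rank_le N) h3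
    have h6 : Module.rank ℤ (M₁ ⧸ N) + Module.rank ℤ N ≤ Module.rank ℤ N := hq.le.trans h1
    have h7 : Module.rank ℤ (M₁ ⧸ N) < Cardinal.aleph0 := lt_of_le_of_lt (by rw [← hq]; exact le_self_add) h3
    obtain ⟨a, ha⟩ := Cardinal.lt_aleph0.1 h7
    obtain ⟨b, hb⟩ := Cardinal.lt_aleph0.1 h5
    rw [ha, hb] at h6
    rw [ha]
    have h8 : a + b ≤ b := by exact_mod_cast h6
    have h9 : a = 0 := by omega
    rw [h9]; rfl
  obtain ⟨c, hc, h5⟩ := rank_eq_zero_iff.1 h4 (Submodule.Quotient.mk ⟨v, hv⟩)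
  rw [← Submodule.Quotient.mk_smul, Submodule.Quotient.mk_eq_zero] at h5
  have h6 : c • v ∈ B := h5
  refine ⟨c.natAbs, Int.natAbs_ne_zero.2 hc, ?_⟩
  rw [← natCast_zsmul]
  rcases Int.natAbs_eq c with h | h
  · rw [← h]; exact h6
  · have h7 : (c.natAbs : ℤ) = -c := by omega
    rw [h7, neg_smul]; exact neg_mem h6

theorem rk {A : Type} [Group A] (hc : ∀ a b : A, a * b = b * a) {r : ℕ} (f : A →* Multiplicative (Fin r → ℚ))
    (hf : Function.Injective f) (φ : A →* A) (hφ : Function.Injective φ) (B : Subgroup A) (h0 : ∀ a ∈ B, φ a ∈ B) (v : A)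
    (hv : φ v ∈ B) : ∃ b : ℕ, b ≠ 0 ∧ v ^ b ∈ B := by
  let _ : CommGroup A := { (inferInstance : Group A) with mul_comm := hc }
  obtain ⟨b, hb, h⟩ := rk_aux (A := Additive A) (MonoidHom.toAdditiveLeft f) hf (MonoidHom.toAdditive φ) hφ
    (Subgroup.toAddSubgroup B) h0 (Additive.ofMul v) hv
  exact ⟨b, hb, h⟩

/-- sections of locally finite normal subgroups -/
theorem kind1 {G H Q : Type} [Group G] [Group H] [Group Q] (M : Subgroup G)
    (hM : ∀ s : Finset M, Finite (Subgroup.closure (s : Set M))) (i : H →* G) (p : H →* Q) (hi : Function.Injective i)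
    (s : Finset Q) (hs : ∀ x ∈ s, x ∈ (M.comap i).map p) : Finite (Subgroup.closure (s : Set Q)) := by
  classical
  have h1 : ∀ x : Q, ∃ t : H, x ∈ s → i t ∈ M ∧ p t = x := by
    intro x
    by_cases hx : x ∈ s
    · obtain ⟨t, ht, h2⟩ := hs x hx
      exact ⟨t, fun _ => ⟨ht, h2⟩⟩
    · exact ⟨1, fun h => absurd h hx⟩
  choose t ht using h1
  let s' : Finset H := s.image t
  have h2 : (s : Set Q) = p '' (s' : Set H) := by
    ext x
    constructor
    · intro hx
      exact ⟨t x, Finset.mem_coe.2 (Finset.mem_image_of_mem t hx), (ht x hx).2⟩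
    · rintro ⟨u, hu, rfl⟩
      obtain ⟨x, hx, rfl⟩ := Finset.mem_image.1 (Finset.mem_coe.1 hu)
      rw [(ht x hx).2]
      exact hx
  have h3 : ∀ u ∈ Subgroup.closure (s' : Set H), i u ∈ M := by
    intro u hu
    have h4 : Subgroup.closure (s' : Set H) ≤ M.comap i := by
      rw [Subgroup.closure_le]
      intro z hz
      obtain ⟨x, hx, rfl⟩ := Finset.mem_image.1 (Finset.mem_coe.1 hz)
      exact (ht x hx).1
    exact h4 hu
  let s'' : Finset M := s.attach.image (fun x => ⟨i (t x.1), (ht x.1 x.2).1⟩)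
  have h5 := hM s''
  have h6 : ∀ u, ∀ hu : u ∈ Subgroup.closure (s' : Set H), (⟨i u, h3 u hu⟩ : M) ∈ Subgroup.closure (s'' : Set M) := by
    intro u hu
    have h7 : (Subgroup.closure (s' : Set H)).map i ≤ (Subgroup.closure (s'' : Set M)).map M.subtype := by
      rw [MonoidHom.map_closure, MonoidHom.map_closure, Subgroup.closure_le]
      rintro z ⟨y, hy, rfl⟩
      obtain ⟨x, hx, rfl⟩ := Finset.mem_image.1 (Finset.mem_coe.1 hy)
      refine Subgroup.subset_closure ⟨⟨i (t x), (ht x hx).1⟩, ?_, rfl⟩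
      rw [Finset.mem_coe, Finset.mem_image]
      exact ⟨⟨x, hx⟩, Finset.mem_attach _ _, rfl⟩
    obtain ⟨z, hz, h8⟩ := h7 ⟨u, hu, rfl⟩
    have h9 : z = ⟨i u, h3 u hu⟩ := Subtype.ext h8
    rwa [← h9]
  have h7 : Finite (Subgroup.closure (s' : Set H)) := by
    refine Finite.of_injective (fun u : Subgroup.closure (s' : Set H) =>
      (⟨⟨i u.1, h3 u.1 u.2⟩, h6 u.1 u.2⟩ : Subgroup.closure (s'' : Set M))) ?_
    intro a b hab
    have := congrArg (fun z => (z.1.1 : G)) hab
    exact Subtype.ext (hi this)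
  rw [h2, ← MonoidHom.map_closure]
  refine Finite.of_surjective (fun u : Subgroup.closure (s' : Set H) =>
    (⟨p u.1, ⟨u.1, u.2, rfl⟩⟩ : (Subgroup.closure (s' : Set H)).map p)) ?_
  rintro ⟨z, u, hu, rfl⟩
  exact ⟨⟨u, hu⟩, rfl⟩

theorem Pk_mem' {Q : Type} [Group Q] (A : Subgroup Q) (hA : A.Normal) (x v : Q) (hv : v ∈ A) (k : ℕ) : Pk x v k ∈ A := by
  have h := Pk_mem x v k A 0 (fun i _ => hA.conj_mem v hv _)
  simpa using h

theorem Pk_mul {Q : Type} [Group Q] (A : Subgroup Q) (hA : A.Normal) (hc : ∀ a ∈ A, ∀ b ∈ A, a * b = b * a) (x : Q)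
    (v w : Q) (hv : v ∈ A) (hw : w ∈ A) (k : ℕ) : Pk x (v * w) k = Pk x v k * Pk x w k := by
  induction k with
  | zero => simp [Pk]
  | succ k ih =>
    show v * w * (x * Pk x (v * w) k * x⁻¹) = v * (x * Pk x v k * x⁻¹) * (w * (x * Pk x w k * x⁻¹))
    have h1 : x * Pk x v k * x⁻¹ ∈ A := hA.conj_mem _ (Pk_mem' A hA x v hv k) x
    have h2 := hc _ h1 w hw
    rw [ih]
    calc v * w * (x * (Pk x v k * Pk x w k) * x⁻¹)
        = v * (w * (x * Pk x v k * x⁻¹)) * (x * Pk x w k * x⁻¹) := by group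
      _ = v * (x * Pk x v k * x⁻¹ * w) * (x * Pk x w k * x⁻¹) := by rw [h2]
      _ = _ := by group

theorem Pk_map {Q Q' : Type} [Group Q] [Group Q'] (f : Q →* Q') (x v : Q) (k : ℕ) : f (Pk x v k) = Pk (f x) (f v) k := by
  rw [Pk_eq, Pk_eq]
  simp

/-- sections of neat factors of finite rank -/
theorem kind2 {G H Q : Type} [Group G] [Group H] [Group Q] (M : Subgroup G) (hMn : M.Normal) {r : ℕ}
    (g : M →* Multiplicative (Fin r → ℚ)) (hg : Function.Injective g)
    (hM : ∀ v ∈ M, ∀ (x : G) (k : ℕ), k ≠ 0 → (v * x) ^ k = x ^ k → v = 1) (i : H →* G) (p : H →* Q)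
    (hi : Function.Injective i) (hp : Function.Surjective p) (v x : Q) (hv : v ∈ (M.comap i).map p) (k : ℕ) (hk : k ≠ 0)
    (h : IsOfFinOrder (Pk x v k)) : IsOfFinOrder v := by
  obtain ⟨v, hv, rfl⟩ := hv
  obtain ⟨x, rfl⟩ := hp x
  have hcM : ∀ a ∈ M, ∀ b ∈ M, a * b = b * a := by
    intro a ha b hb
    have h1 : (⟨a, ha⟩ * ⟨b, hb⟩ : M) = ⟨b, hb⟩ * ⟨a, ha⟩ := hg (by rw [map_mul, map_mul, mul_comm])
    exact congrArg Subtype.val h1
  have hAn : (M.comap i).Normal := hMn.comap i
  have hcA : ∀ a ∈ M.comap i, ∀ b ∈ M.comap i, a * b = b * a := by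
    intro a ha b hb
    exact hi (by rw [map_mul, map_mul]; exact hcM _ ha _ hb)
  let φ : M.comap i →* M.comap i :=
    { toFun := fun a => ⟨Pk x a.1 k, Pk_mem' _ hAn x a.1 a.2 k⟩
      map_one' := Subtype.ext (by show Pk x 1 k = 1; rw [Pk_one_iff, one_mul])
      map_mul' := fun a b => Subtype.ext (Pk_mul _ hAn hcA x a.1 b.1 a.2 b.2 k) }
  have hφ : Function.Injective φ := by
    rw [injective_iff_map_eq_one]
    intro a ha
    have h1 : Pk x a.1 k = 1 := congrArg Subtype.val ha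
    have h2 : Pk (i x) (i a.1) k = 1 := by rw [← Pk_map, h1, map_one]
    have h3 := hM (i a.1) a.2 (i x) k hk ((Pk_one_iff _ _ _).1 h2)
    exact Subtype.ext (hi (by rw [h3]; exact (map_one i).symm))
  let g' : M.comap i →* Multiplicative (Fin r → ℚ) := g.comp
    { toFun := fun a => ⟨i a.1, a.2⟩
      map_one' := Subtype.ext (map_one i)
      map_mul' := fun a b => Subtype.ext (map_mul i a.1 b.1) }
  have hg' : Function.Injective g' := by
    intro a b hab
    have h1 := congrArg Subtype.val (hg hab)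
    exact Subtype.ext (hi h1)
  obtain ⟨a, ha, h1⟩ := h.exists_pow_eq_one
  have h2 : φ (⟨v, hv⟩ ^ a) ∈ p.ker.comap (M.comap i).subtype := by
    rw [map_pow]
    show p ((Pk x v k) ^ a) = 1
    rw [map_pow, Pk_map, h1]
  obtain ⟨b, hb, h3⟩ := rk (fun a b => Subtype.ext (hcA a.1 a.2 b.1 b.2)) g' hg' φ hφ
    (p.ker.comap (M.comap i).subtype) (by
      intro c hc
      show p (Pk x c.1 k) = 1
      rw [Pk_map]
      have : p c.1 = 1 := hc
      rw [this, Pk_one_iff, one_mul]) (⟨v, hv⟩ ^ a) h2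
  have h4 : p ((v ^ a) ^ b) = 1 := h3
  rw [map_pow, map_pow, ← pow_mul] at h4
  exact isOfFinOrder_iff_pow_eq_one.2 ⟨a * b, Nat.mul_pos ha (by omega), h4⟩

theorem sec_AB : ∀ (n : ℕ) (G : Type) [Group G], NTn n G → ∀ (H Q : Type) [Group H] [Group Q] (i : H →* G)
    (p : H →* Q), Function.Injective i → Function.Surjective p →
    AB Q ∧ ((∀ x : Q, IsOfFinOrder x → x = 1) → Group.IsSolvable Q) := by
  classical
  intro n
  induction n with
  | zero =>
    intro G _ hG H Q _ _ i p hi hp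
    have h1 : Subsingleton G := hG
    have h2 : Subsingleton H := hi.subsingleton
    have h3 : Subsingleton Q := hp.subsingleton
    exact ⟨⟨fun s _ => inferInstance, fun x y k _ _ => isOfFinOrder_of_finite _⟩, fun _ => inferInstance⟩
  | succ n ih =>
    intro G _ hG H Q _ _ i p hi hp
    obtain ⟨M, hMn, hGM, hM⟩ := hG
    have hA : (M.comap i).Normal := hMn.comap i
    have hR : ((M.comap i).map p).Normal := hA.map p hp
    set A := M.comap i with hAdef
    set R := A.map p with hRdef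
    let i' : H ⧸ A →* G ⧸ M := QuotientGroup.map A M i le_rfl
    have hi' : Function.Injective i' := by
      rw [injective_iff_map_eq_one]
      intro z hz
      obtain ⟨u, rfl⟩ := QuotientGroup.mk_surjective z
      have h1 : ((i u : G) : G ⧸ M) = 1 := hz
      exact (QuotientGroup.eq_one_iff u).2 (show i u ∈ M from (QuotientGroup.eq_one_iff _).1 h1)
    let p' : H ⧸ A →* Q ⧸ R := QuotientGroup.map A R p (Subgroup.le_comap_map p A)
    have hp' : Function.Surjective p' := by
      intro z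
      obtain ⟨u, rfl⟩ := QuotientGroup.mk_surjective z
      obtain ⟨w, rfl⟩ := hp u
      exact ⟨(w : H ⧸ A), rfl⟩
    obtain ⟨h1, -⟩ := ih (G ⧸ M) hGM (H ⧸ A) (Q ⧸ R) i' p' hi' hp'
    have hf : ∀ x : Q, QuotientGroup.mk' R x = 1 ↔ x ∈ R := fun x => QuotientGroup.eq_one_iff x
    have key : AB Q ∧ ((∀ x : Q, IsOfFinOrder x → x = 1) → KC (QuotientGroup.mk' R)) := by
      rcases hM with hM | ⟨⟨r, g, hg⟩, hM⟩
      · have hlf : ∀ s : Finset Q, (∀ x ∈ s, QuotientGroup.mk' R x = 1) → Finite (Subgroup.closure (s : Set Q)) :=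
          fun s hs => kind1 M hM i p hi s (fun x hx => (hf x).1 (hs x hx))
        refine ⟨AB.ext1 (QuotientGroup.mk' R) h1 hlf, fun htf => ?_⟩
        have h2 : ∀ v : Q, QuotientGroup.mk' R v = 1 → v = 1 := by
          intro v hv
          have h3 := hlf {v} (by
            intro z hz
            rw [Finset.mem_singleton] at hz
            rw [hz]; exact hv)
          exact htf v ((Subgroup.subtype _).isOfFinOrder (isOfFinOrder_of_finite
            (⟨v, Subgroup.subset_closure (by simp)⟩ : Subgroup.closure ((({v} : Finset Q)) : Set Q))))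
        exact ⟨fun u v hu hv => by rw [h2 u hu, h2 v hv], fun v hv _ => h2 v hv, fun v _ hv _ _ _ => h2 v hv⟩
      · have h2 := kind2 M hMn g hg hM i p hi hp
        have hcR : ∀ a ∈ R, ∀ b ∈ R, a * b = b * a := by
          rintro _ ⟨a, ha, rfl⟩ _ ⟨b, hb, rfl⟩
          have h3 : (⟨i a, ha⟩ * ⟨i b, hb⟩ : M) = ⟨i b, hb⟩ * ⟨i a, ha⟩ := hg (by rw [map_mul, map_mul, mul_comm])
          have h4 : i (a * b) = i (b * a) := by
            rw [map_mul, map_mul]
            exact congrArg Subtype.val h3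
          rw [← map_mul, ← map_mul, hi h4]
        let D : Subgroup Q :=
          { carrier := {v | v ∈ R ∧ IsOfFinOrder v}
            one_mem' := ⟨one_mem _, IsOfFinOrder.one⟩
            mul_mem' := fun {a b} ha hb => ⟨mul_mem ha.1 hb.1,
              Commute.isOfFinOrder_mul (hcR a ha.1 b hb.1) ha.2 hb.2⟩
            inv_mem' := fun {a} ha => ⟨inv_mem ha.1, ha.2.inv⟩ }
        have hD : D.Normal := ⟨fun a ha g => ⟨hR.conj_mem a ha.1 g, fo_conj g ha.2⟩⟩
        have hDR : D ≤ R := fun a ha => ha.1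
        let f₁ : Q ⧸ D →* Q ⧸ R := QuotientGroup.map D R (MonoidHom.id Q) hDR
        have hf1 : ∀ x : Q, f₁ (x : Q ⧸ D) = 1 ↔ x ∈ R := fun x => QuotientGroup.eq_one_iff x
        have hKC : KC f₁ := by
          refine ⟨fun u v hu hv => ?_, fun v hv h => ?_, fun v x hv k hk h => ?_⟩
          · obtain ⟨u, rfl⟩ := QuotientGroup.mk_surjective u
            obtain ⟨v, rfl⟩ := QuotientGroup.mk_surjective v
            have h3 := hcR u ((hf1 u).1 hu) v ((hf1 v).1 hv)
            exact congrArg (fun z : Q => (z : Q ⧸ D)) h3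
          · obtain ⟨v, rfl⟩ := QuotientGroup.mk_surjective v
            obtain ⟨a, ha, h3⟩ := h.exists_pow_eq_one
            have h4 : v ^ a ∈ D := (QuotientGroup.eq_one_iff _).1 h3
            exact (QuotientGroup.eq_one_iff _).2 ⟨(hf1 v).1 hv, h4.2.of_pow (by omega)⟩
          · obtain ⟨v, rfl⟩ := QuotientGroup.mk_surjective v
            obtain ⟨x, rfl⟩ := QuotientGroup.mk_surjective x
            rw [← Pk_one_iff] at h
            have h3 : QuotientGroup.mk' D (Pk x v k) = 1 := by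
              rw [Pk_map]
              exact h
            have h4 : Pk x v k ∈ D := (QuotientGroup.eq_one_iff _).1 h3
            exact (QuotientGroup.eq_one_iff _).2 ⟨(hf1 v).1 hv, h2 v x ((hf1 v).1 hv) k hk h4.2⟩
        have h3 : AB (Q ⧸ D) := AB.ext2 f₁ h1 hKC
        refine ⟨AB.ext1 (QuotientGroup.mk' D) h3 fun s hs => ?_, fun htf => ?_⟩
        · have h4 : ∀ x ∈ s, x ∈ D := fun x hx => (QuotientGroup.eq_one_iff x).1 (hs x hx)
          have h5 : ∀ x ∈ Subgroup.closure (s : Set Q), x ∈ D := by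
            intro x hx
            have : Subgroup.closure (s : Set Q) ≤ D := (Subgroup.closure_le _).2 h4
            exact this hx
          let _ : CommGroup (Subgroup.closure (s : Set Q)) :=
            { (inferInstance : Group (Subgroup.closure (s : Set Q))) with
              mul_comm := fun a b => Subtype.ext (hcR a.1 (h5 a.1 a.2).1 b.1 (h5 b.1 b.2).1) }
          have : Group.FG (Subgroup.closure (s : Set Q)) := (Group.fg_iff_subgroup_fg _).2 ⟨s, rfl⟩
          refine CommGroup.finite_of_fg_isMulTorsion _ ?_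
          intro a
          exact Submonoid.isOfFinOrder_coe.1 (h5 a.1 a.2).2
        · exact ⟨fun u v hu hv => hcR u ((hf u).1 hu) v ((hf v).1 hv), fun v _ h => htf v h,
            fun v x hv k hk h => htf v (h2 v x ((hf v).1 hv) k hk (by
              rw [(Pk_one_iff _ _ _).2 h]
              exact IsOfFinOrder.one))⟩
    refine ⟨key.1, fun htf => ?_⟩
    have hKC := key.2 htf
    have hT : (h1.tors.comap (QuotientGroup.mk' R)).Normal := h1.tors_normal.comap _
    set T := h1.tors.comap (QuotientGroup.mk' R) with hTdef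
    have hAT : A ≤ T.comap p := by
      intro u hu
      show IsOfFinOrder (QuotientGroup.mk' R (p u))
      rw [(hf (p u)).2 ⟨u, hu, rfl⟩]
      exact IsOfFinOrder.one
    let p'' : H ⧸ A →* Q ⧸ T := QuotientGroup.map A T p hAT
    have hp'' : Function.Surjective p'' := by
      intro z
      obtain ⟨u, rfl⟩ := QuotientGroup.mk_surjective z
      obtain ⟨w, rfl⟩ := hp u
      exact ⟨(w : H ⧸ A), rfl⟩
    have h2 := (ih (G ⧸ M) hGM (H ⧸ A) (Q ⧸ T) i' p'' hi' hp'').2 (by
      intro z hz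
      obtain ⟨u, rfl⟩ := QuotientGroup.mk_surjective z
      obtain ⟨a, ha, h3⟩ := hz.exists_pow_eq_one
      have h4 : u ^ a ∈ T := (QuotientGroup.eq_one_iff _).1 h3
      have h5 : IsOfFinOrder (QuotientGroup.mk' R (u ^ a)) := h4
      rw [map_pow] at h5
      exact (QuotientGroup.eq_one_iff _).2 (show IsOfFinOrder (QuotientGroup.mk' R u) from h5.of_pow (by omega)))
    have h3 : Group.IsSolvable T := Group.isSolvable_of_comm (fun a b => Subtype.ext (by
      have h4 := htf _ (hKC.comm h1 a.1 b.1 a.2 b.2)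
      have h5 : a.1 * b.1 * a.1⁻¹ * b.1⁻¹ * (b.1 * a.1) = a.1 * b.1 := by group
      rw [h4, one_mul] at h5
      exact h5.symm))
    exact (Group.isSolvable_iff_subgroup_quotient T).2 ⟨h3, h2⟩

theorem NT.secRoot {G : Type} [Group G] (h : NT G) : SecRoot G := by
  obtain ⟨n, hn⟩ := h
  intro N x y hx hy k hk h
  have hxN : x ∈ Subgroup.normalizer (N : Set G) := Subgroup.mem_normalizer_iff.2 hx
  have hyN : y ∈ Subgroup.normalizer (N : Set G) := Subgroup.mem_normalizer_iff.2 hy
  set H := Subgroup.normalizer (N : Set G) with hH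
  have hN : (N.subgroupOf H).Normal := Subgroup.normal_in_normalizer
  have h1 := (sec_AB n G hn H (H ⧸ N.subgroupOf H) H.subtype (QuotientGroup.mk' _) H.subtype_injective
    (QuotientGroup.mk'_surjective _)).1
  have h2 := h1.rt ((⟨x, hxN⟩ : H) : H ⧸ N.subgroupOf H) ((⟨y, hyN⟩ : H) : H ⧸ N.subgroupOf H) k hk (by
    have h3 : (((⟨x, hxN⟩ ^ k * ⟨y, hyN⟩ * (⟨x, hxN⟩ ^ k)⁻¹ * (⟨y, hyN⟩)⁻¹ : H)) : H ⧸ N.subgroupOf H) = 1 :=
      (QuotientGroup.eq_one_iff _).2 (Subgroup.mem_subgroupOf.2 h)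
    have h4 : ((⟨x, hxN⟩ : H) : H ⧸ N.subgroupOf H) ^ k * ((⟨y, hyN⟩ : H) : H ⧸ N.subgroupOf H) *
        (((⟨x, hxN⟩ : H) : H ⧸ N.subgroupOf H) ^ k)⁻¹ * (((⟨y, hyN⟩ : H) : H ⧸ N.subgroupOf H))⁻¹ = 1 := h3
    rw [mul_inv_eq_one, mul_inv_eq_iff_eq_mul] at h4
    exact h4)
  obtain ⟨m, hm, h3⟩ := h2.exists_pow_eq_one
  have h4 : (((⟨x, hxN⟩ * ⟨y, hyN⟩ * (⟨x, hxN⟩)⁻¹ * (⟨y, hyN⟩)⁻¹ : H) ^ m : H) : H ⧸ N.subgroupOf H) = 1 := h3
  exact ⟨m, by omega, Subgroup.mem_subgroupOf.1 ((QuotientGroup.eq_one_iff _).1 h4)⟩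

theorem NT.wq {G : Type} [Group G] (h : NT G) (htf : Pool.Agent.H63.RK.TF G) : WQ G := by
  refine ⟨htf, fun s => ?_, h.secRoot⟩
  obtain ⟨n, hn⟩ := h
  have h1 : Group.IsSolvable G := (sec_AB n G hn G G (MonoidHom.id G) (MonoidHom.id G) Function.injective_id
    Function.surjective_id).2 (by
      intro x hx
      obtain ⟨a, ha, h2⟩ := hx.exists_pow_eq_one
      exact htf x a (by omega) h2)
  infer_instance

end Pool.Agent.H50.GN
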