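import Pool.Agent.H50.GN.DefsQ

/-!
# [GN23a] Neat groups: closure properties

`NTn n G`: there is a series of normal subgroups of `G` of length `n` whose factors `M` are locally finite, or embed in `ℚ ^ r` and satisfy: `(v x) ^ k = x ^ k`
implies `v = 1` (`v ∈ M`, `x ∈ G`, `k ≠ 0`), that is, no `x` has a root of unity `≠ 1` as an eigenvalue on `M ⊗ ℂ`:
`(v x) ^ k * (x ^ k)⁻¹ = v (x v x⁻¹) ⋯ (x ^ (k-1) v x ^ -(k-1))`.

Proof. (1) The class `NT` is closed under subgroups (intersect) and quotients: the image of a factor `M` of the second kind in `G / N` is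
`M / (M ∩ N)`; its torsion subgroup is locally finite, characteristic, and the quotient by it embeds in `ℚ ^ r / span (M ∩ N)`, with the condition: the
operator `v ↦ v (x v x⁻¹) ⋯` is injective on `M ⊗ ℚ` of finite dimension, so bijective on the `x`-invariant subspace of `M ∩ N`, so injective on the
quotient.
-/

set_option autoImplicit false

namespace Pool.Agent.H50.GN

open Pool.Agent.H98.FJ Pool.Agent.H93.TR

/-- neat groups of length at most `n` -/
def NTn : ℕ → (G : Type) → [Group G] → Prop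
  | 0, G, _ => Subsingleton G
  | n + 1, G, _ => ∃ (M : Subgroup G) (_ : M.Normal), NTn n (G ⧸ M) ∧
      ((∀ s : Finset M, Finite (Subgroup.closure (s : Set M))) ∨
        (∃ (r : ℕ) (f : M →* Multiplicative (Fin r → ℚ)), Function.Injective f) ∧
          ∀ v ∈ M, ∀ (x : G) (k : ℕ), k ≠ 0 → (v * x) ^ k = x ^ k → v = 1)

/-- neat groups -/
def NT (G : Type) [Group G] : Prop := ∃ n, NTn n G

/-! ### Linear algebra -/

/-- clearing denominators in a span over `ℚ` -/
private theorem span_nat {V : Type} [AddCommGroup V] [Module ℚ V] (A : AddSubgroup V) (v : V)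
    (h : v ∈ Submodule.span ℚ (A : Set V)) : ∃ N : ℕ, N ≠ 0 ∧ N • v ∈ A := by
  induction h using Submodule.span_induction with
  | mem x hx => exact ⟨1, one_ne_zero, by rw [one_nsmul]; exact hx⟩
  | zero => exact ⟨1, one_ne_zero, by rw [nsmul_zero]; exact A.zero_mem⟩
  | add x y _ _ hx hy =>
    obtain ⟨N, hN, h1⟩ := hx
    obtain ⟨M, hM, h2⟩ := hy
    refine ⟨N * M, mul_ne_zero hN hM, ?_⟩
    rw [nsmul_add]
    refine A.add_mem ?_ ?_
    · rw [mul_comm, mul_nsmul']
      exact A.nsmul_mem h1 M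
    · rw [mul_nsmul']
      exact A.nsmul_mem h2 N
  | smul q x _ hx =>
    obtain ⟨N, hN, h1⟩ := hx
    refine ⟨q.den * N, mul_ne_zero q.den_ne_zero hN, ?_⟩
    have e : (q.den * N) • (q • x) = q.num • (N • x) := by
      rw [← Nat.cast_smul_eq_nsmul ℚ, ← Nat.cast_smul_eq_nsmul ℚ, ← Int.cast_smul_eq_zsmul ℚ, smul_smul, smul_smul]
      congr 1
      push_cast
      have h2 : (q.den : ℚ) * q = q.num := Rat.den_mul_eq_num q
      rw [← h2]
      ring
    rw [e]
    exact A.zsmul_mem h1 _

private theorem key {A : Type} [AddCommGroup A] {r : ℕ} (f : A →+ (Fin r → ℚ)) (hf : Function.Injective f)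
    (B : AddSubgroup A) (P : A →+ A) (hP : Function.Injective P) (hPB : ∀ b ∈ B, P b ∈ B) (v : A)
    (h : ∃ j : ℕ, j ≠ 0 ∧ j • P v ∈ B) : ∃ i : ℕ, i ≠ 0 ∧ i • v ∈ B := by
  classical
  obtain ⟨S, hS⟩ : ∃ S : Submodule ℚ (Fin r → ℚ), S = Submodule.span ℚ ((B.map f : AddSubgroup (Fin r → ℚ)) : Set (Fin r → ℚ)) :=
    ⟨_, rfl⟩
  obtain ⟨T, hT⟩ : ∃ T : Submodule ℚ (Fin r → ℚ),
      T = Submodule.span ℚ (((B.map P).map f : AddSubgroup (Fin r → ℚ)) : Set (Fin r → ℚ)) := ⟨_, rfl⟩
  have hTS : T ≤ S := by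
    rw [hT, hS]
    refine Submodule.span_mono ?_
    rintro _ ⟨_, ⟨b, hb, rfl⟩, rfl⟩
    exact ⟨P b, hPB b hb, rfl⟩
  have hrank : Module.finrank ℚ S ≤ Module.finrank ℚ T := by
    obtain ⟨b, hb1, hb2, hb3⟩ := exists_linearIndependent ℚ ((B.map f : AddSubgroup (Fin r → ℚ)) : Set (Fin r → ℚ))
    have hb4 : ∀ y : b, ∃ a ∈ B, f a = y := fun y => hb1 y.2
    choose n hnB hn using hb4
    have hfin : Finite b := hb3.finite
    have := Fintype.ofFinite b
    have i1 : LinearIndependent ℤ (fun y : b => (y : Fin r → ℚ)) := (LinearIndependent.iff_fractionRing ℤ ℚ).2 hb3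
    have i2 : LinearIndependent ℤ n := by
      refine LinearIndependent.of_comp f.toIntLinearMap ?_
      have e : (f.toIntLinearMap ∘ n) = (fun y : b => (y : Fin r → ℚ)) := by
        funext y
        exact hn y
      rw [e]
      exact i1
    have i3 : LinearIndependent ℤ (fun y : b => f (P (n y))) := by
      refine i2.map' (f.comp P).toIntLinearMap ?_
      rw [LinearMap.ker_eq_bot]
      exact hf.comp hP
    have i4 : LinearIndependent ℚ (fun y : b => f (P (n y))) := (LinearIndependent.iff_fractionRing ℤ ℚ).1 i3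
    have e1 : Module.finrank ℚ S = Fintype.card b := by
      rw [hS, ← hb2]
      have h1 := finrank_span_eq_card hb3
      rw [Subtype.range_coe] at h1
      exact h1
    rw [e1, ← finrank_span_eq_card i4]
    refine Submodule.finrank_mono ?_
    rw [hT, Submodule.span_le]
    rintro _ ⟨y, rfl⟩
    exact Submodule.subset_span ⟨P (n y), ⟨n y, hnB y, rfl⟩, rfl⟩
  have hTS' : T = S := Submodule.eq_of_le_of_finrank_le hTS hrank
  obtain ⟨j, hj, hjv⟩ := h
  have h1 : f (P v) ∈ S := by
    have h2 : j • f (P v) ∈ S := by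
      rw [hS, ← map_nsmul]
      exact Submodule.subset_span ⟨_, hjv, rfl⟩
    have h3 : f (P v) = (j : ℚ)⁻¹ • (j • f (P v)) := by
      rw [← Nat.cast_smul_eq_nsmul ℚ, smul_smul, inv_mul_cancel₀ (by exact_mod_cast hj), one_smul]
    rw [h3]
    exact S.smul_mem _ h2
  rw [← hTS', hT] at h1
  obtain ⟨N, hN, _, ⟨b, hb, rfl⟩, h2⟩ := span_nat _ _ h1
  refine ⟨N, hN, ?_⟩
  rw [← map_nsmul, ← map_nsmul] at h2
  rw [← hP (hf h2)]
  exact hb

/-! ### Locally finite groups -/

private theorem lf_inj {A B : Type} [Group A] [Group B] (f : A →* B) (hf : Function.Injective f)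
    (h : ∀ s : Finset B, Finite (Subgroup.closure (s : Set B))) (s : Finset A) : Finite (Subgroup.closure (s : Set A)) := by
  classical
  have h1 := h (s.image f)
  have h2 : (Subgroup.closure (s : Set A)).map f = Subgroup.closure ((s.image f : Finset B) : Set B) := by
    rw [MonoidHom.map_closure, Finset.coe_image]
  have h3 : ∀ a : Subgroup.closure (s : Set A), f a ∈ Subgroup.closure ((s.image f : Finset B) : Set B) := by
    intro a
    rw [← h2]
    exact ⟨a, a.2, rfl⟩
  exact Finite.of_injective (fun a : Subgroup.closure (s : Set A) =>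
    (⟨f a, h3 a⟩ : Subgroup.closure ((s.image f : Finset B) : Set B))) fun a b hab =>
      Subtype.ext (hf (congrArg Subtype.val hab))

private theorem lf_surj {A B : Type} [Group A] [Group B] (f : A →* B) (hf : Function.Surjective f)
    (h : ∀ s : Finset A, Finite (Subgroup.closure (s : Set A))) (s : Finset B) : Finite (Subgroup.closure (s : Set B)) := by
  classical
  obtain ⟨g, hg⟩ := hf.hasRightInverse
  have h1 := h (s.image g)
  have h2 : (Subgroup.closure ((s.image g : Finset A) : Set A)).map f = Subgroup.closure (s : Set B) := by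
    rw [MonoidHom.map_closure, Finset.coe_image, ← Set.image_comp]
    congr 1
    have e : f ∘ g = id := funext hg
    rw [e, Set.image_id]
  rw [← h2]
  exact Finite.of_surjective _ (f.subgroupMap_surjective (Subgroup.closure ((s.image g : Finset A) : Set A)))

private theorem lf_tors {A : Type} [Group A] (hc : ∀ a b : A, a * b = b * a) (ht : ∀ a : A, IsOfFinOrder a) (s : Finset A) :
    Finite (Subgroup.closure (s : Set A)) := by
  let _ : CommGroup (Subgroup.closure (s : Set A)) :=
    { (inferInstance : Group (Subgroup.closure (s : Set A))) with mul_comm := fun a b => Subtype.ext (hc a b) }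
  have h1 : Group.FG (Subgroup.closure (s : Set A)) := Group.closure_finset_fg s
  exact CommGroup.finite_of_fg_torsion _ (fun a => Submonoid.isOfFinOrder_coe.1 (ht a))

theorem NTn.inj {n : ℕ} {G H : Type} [Group G] [Group H] (φ : H →* G) (hφ : Function.Injective φ) (h : NTn n G) : NTn n H := by
  induction n generalizing G H with
  | zero =>
    have h0 : Subsingleton G := h
    exact ⟨fun a b => hφ (Subsingleton.elim _ _)⟩
  | succ n ih =>
    obtain ⟨M, hM, hn, hk⟩ := h
    refine ⟨M.comap φ, inferInstance, ?_, ?_⟩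
    · refine ih (QuotientGroup.map (M.comap φ) M φ le_rfl) ?_ hn
      rw [injective_iff_map_eq_one]
      intro x hx
      obtain ⟨x, rfl⟩ := QuotientGroup.mk_surjective x
      rw [QuotientGroup.map_mk, QuotientGroup.eq_one_iff] at hx
      rw [QuotientGroup.eq_one_iff]
      exact hx
    · have hi : Function.Injective (φ.subgroupComap M) := by
        intro a b hab
        exact Subtype.ext (hφ (congrArg Subtype.val hab))
      rcases hk with hk | ⟨⟨r, f, hf⟩, hk⟩
      · exact Or.inl (lf_inj (φ.subgroupComap M) hi hk)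
      · refine Or.inr ⟨⟨r, f.comp (φ.subgroupComap M), hf.comp hi⟩, ?_⟩
        intro v hv x k hk0 hvx
        apply hφ
        rw [map_one]
        refine hk (φ v) hv (φ x) k hk0 ?_
        rw [← map_mul, ← map_pow, hvx, map_pow]

theorem NT.inj {G H : Type} [Group G] [Group H] (φ : H →* G) (hφ : Function.Injective φ) (h : NT G) : NT H := by
  obtain ⟨n, hn⟩ := h
  exact ⟨n, hn.inj φ hφ⟩

/-! ### Quotients -/

/-- the operator `v ↦ v (x v x⁻¹) ⋯` -/
private theorem exists_op {G : Type} [Group G] (M : Subgroup G) (hM : M.Normal) (hc : ∀ a b : M, a * b = b * a) (x : G) (k : ℕ) :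
    ∃ P : M →* M, ∀ v : M, ((P v : M) : G) = ((v : G) * x) ^ k * (x ^ k)⁻¹ := by
  induction k with
  | zero => exact ⟨1, fun v => by simp⟩
  | succ k ih =>
    obtain ⟨P, hP⟩ := ih
    have hm : ∀ v : M, x ^ k * (v : G) * (x ^ k)⁻¹ ∈ M := fun v => hM.conj_mem _ v.2 _
    refine ⟨{ toFun := fun v => P v * ⟨x ^ k * (v : G) * (x ^ k)⁻¹, hm v⟩
              map_one' := by
                rw [map_one, one_mul]
                apply Subtype.ext
                simp
              map_mul' := by
                intro a b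
                have e : (⟨x ^ k * ((a * b : M) : G) * (x ^ k)⁻¹, hm (a * b)⟩ : M) =
                    ⟨x ^ k * (a : G) * (x ^ k)⁻¹, hm a⟩ * ⟨x ^ k * (b : G) * (x ^ k)⁻¹, hm b⟩ := by
                  apply Subtype.ext
                  show x ^ k * ((a : G) * b) * (x ^ k)⁻¹ = x ^ k * (a : G) * (x ^ k)⁻¹ * (x ^ k * (b : G) * (x ^ k)⁻¹)
                  group
                rw [e, map_mul]
                generalize P a = a1
                generalize P b = b1
                generalize (⟨x ^ k * (a : G) * (x ^ k)⁻¹, hm a⟩ : M) = a2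
                generalize (⟨x ^ k * (b : G) * (x ^ k)⁻¹, hm b⟩ : M) = b2
                rw [mul_assoc, ← mul_assoc b1 a2 b2, hc b1 a2, mul_assoc a2 b1 b2, ← mul_assoc] }, ?_⟩
    intro v
    show ((P v : M) : G) * (x ^ k * (v : G) * (x ^ k)⁻¹) = _
    rw [hP, pow_succ, pow_succ x k, mul_inv_rev]
    group

private theorem step {G Q : Type} [Group G] [Group Q] (φ : G →* Q) (hφ : Function.Surjective φ) (M : Subgroup G)
    (hM : M.Normal) {r : ℕ} (f : M →* Multiplicative (Fin r → ℚ)) (hf : Function.Injective f)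
    (hk : ∀ v ∈ M, ∀ (x : G) (k : ℕ), k ≠ 0 → (v * x) ^ k = x ^ k → v = 1) :
    ∃ (τ : Subgroup Q) (_ : τ.Normal), (∀ s : Finset τ, Finite (Subgroup.closure (s : Set τ))) ∧
      (∃ (r' : ℕ) (F : M.map ((QuotientGroup.mk' τ).comp φ) →* Multiplicative (Fin r' → ℚ)), Function.Injective F) ∧
        ∀ v ∈ M.map ((QuotientGroup.mk' τ).comp φ), ∀ (x : Q ⧸ τ) (k : ℕ), k ≠ 0 → (v * x) ^ k = x ^ k → v = 1 := by
  classical
  have hcM : ∀ a b : M, a * b = b * a := fun a b => hf (by rw [map_mul, map_mul, mul_comm])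
  have hcQ : ∀ a ∈ M.map φ, ∀ b ∈ M.map φ, Commute a b := by
    rintro _ ⟨a, ha, rfl⟩ _ ⟨b, hb, rfl⟩
    have h1 : a * b = b * a := congrArg Subtype.val (hcM ⟨a, ha⟩ ⟨b, hb⟩)
    show φ a * φ b = φ b * φ a
    rw [← map_mul, h1, map_mul]
  have hMQ : (M.map φ).Normal := hM.map φ hφ
  let τ : Subgroup Q :=
    { carrier := {u | u ∈ M.map φ ∧ IsOfFinOrder u}
      one_mem' := ⟨(M.map φ).one_mem, IsOfFinOrder.one⟩
      mul_mem' := fun {a b} ha hb => ⟨(M.map φ).mul_mem ha.1 hb.1, (hcQ a ha.1 b hb.1).isOfFinOrder_mul ha.2 hb.2⟩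
      inv_mem' := fun {a} ha => ⟨(M.map φ).inv_mem ha.1, ha.2.inv⟩ }
  have hτ : ∀ u, u ∈ τ ↔ u ∈ M.map φ ∧ IsOfFinOrder u := fun u => Iff.rfl
  have hτN : τ.Normal := by
    refine ⟨fun n hn g => ?_⟩
    refine (hτ _).2 ⟨hMQ.conj_mem n ((hτ n).1 hn).1 g, ?_⟩
    exact (MulAut.conj g).toMonoidHom.isOfFinOrder ((hτ n).1 hn).2
  -- torsion elements of the image
  have htor : ∀ v : M, φ (v : G) ∈ τ ↔ ∃ i : ℕ, i ≠ 0 ∧ φ ((v : G) ^ i) = 1 := by
    intro v
    rw [hτ, isOfFinOrder_iff_pow_eq_one]
    constructor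
    · rintro ⟨-, n, hn, h1⟩
      exact ⟨n, by omega, by rw [map_pow, h1]⟩
    · rintro ⟨n, hn, h1⟩
      exact ⟨⟨v, v.2, rfl⟩, n, Nat.pos_of_ne_zero hn, by rw [← map_pow, h1]⟩
  let _ : CommGroup M := { (inferInstance : Group M) with mul_comm := hcM }
  let fa : Additive M →+ (Fin r → ℚ) :=
    { toFun := fun v => Multiplicative.toAdd (f (Additive.toMul v))
      map_zero' := by
        show Multiplicative.toAdd (f 1) = 0
        rw [map_one]
        rfl
      map_add' := by
        intro a b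
        show Multiplicative.toAdd (f (Additive.toMul a * Additive.toMul b)) = _
        rw [map_mul]
        rfl }
  have hfa : Function.Injective fa := fun a b hab => by
    have h1 : f (Additive.toMul a) = f (Additive.toMul b) := hab
    exact hf h1
  let B : AddSubgroup (Additive M) :=
    { carrier := {v | φ ((Additive.toMul v : M) : G) = 1}
      zero_mem' := map_one φ
      add_mem' := by
        intro a b ha hb
        have ha' : φ ((Additive.toMul a : M) : G) = 1 := ha
        have hb' : φ ((Additive.toMul b : M) : G) = 1 := hb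
        show φ (((Additive.toMul a : M) : G) * ((Additive.toMul b : M) : G)) = 1
        rw [map_mul, ha', hb', mul_one]
      neg_mem' := by
        intro a ha
        have ha' : φ ((Additive.toMul a : M) : G) = 1 := ha
        show φ (((Additive.toMul a : M) : G)⁻¹) = 1
        rw [map_inv, ha', inv_one] }
  have hB : ∀ (v : M) (i : ℕ), i • (Additive.ofMul v) ∈ B ↔ φ ((v : G) ^ i) = 1 := fun v i => Iff.rfl
  refine ⟨τ, hτN, ?_, ?_, ?_⟩
  · refine lf_tors ?_ ?_
    · intro a b
      exact Subtype.ext (hcQ a ((hτ _).1 a.2).1 b ((hτ _).1 b.2).1).eq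
    · intro a
      exact Submonoid.isOfFinOrder_coe.1 ((hτ _).1 a.2).2
  · -- the embedding
    let S : Submodule ℚ (Fin r → ℚ) := Submodule.span ℚ ((B.map fa : AddSubgroup (Fin r → ℚ)) : Set (Fin r → ℚ))
    let e := (Module.finBasis ℚ ((Fin r → ℚ) ⧸ S)).equivFun
    have hker : ∀ v : M, S.mkQ (fa (Additive.ofMul v)) = 0 ↔ φ (v : G) ∈ τ := by
      intro v
      rw [htor, Submodule.mkQ_apply, Submodule.Quotient.mk_eq_zero]
      constructor
      · intro h
        obtain ⟨N, hN, b, hb, h1⟩ := span_nat _ _ h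
        rw [← map_nsmul] at h1
        refine ⟨N, hN, ?_⟩
        rw [← hB, ← hfa h1]
        exact hb
      · rintro ⟨i, hi, h1⟩
        rw [← hB] at h1
        have h2 : i • fa (Additive.ofMul v) ∈ S := by
          rw [← map_nsmul]
          exact Submodule.subset_span ⟨_, h1, rfl⟩
        have h3 : fa (Additive.ofMul v) = (i : ℚ)⁻¹ • (i • fa (Additive.ofMul v)) := by
          rw [← Nat.cast_smul_eq_nsmul ℚ, smul_smul, inv_mul_cancel₀ (by exact_mod_cast hi), one_smul]
        rw [h3]
        exact S.smul_mem _ h2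
    let g : M →* Multiplicative (Fin (Module.finrank ℚ ((Fin r → ℚ) ⧸ S)) → ℚ) :=
      { toFun := fun v => Multiplicative.ofAdd (e (S.mkQ (fa (Additive.ofMul v))))
        map_one' := by
          show Multiplicative.ofAdd (e (S.mkQ (fa 0))) = 1
          rw [map_zero, map_zero, map_zero]
          rfl
        map_mul' := by
          intro a b
          show Multiplicative.ofAdd (e (S.mkQ (fa (Additive.ofMul a + Additive.ofMul b)))) = _
          rw [map_add, map_add, map_add]
          rfl }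
    have hg : ∀ v : M, g v = 1 ↔ φ (v : G) ∈ τ := by
      intro v
      rw [← hker]
      constructor
      · intro h
        have h1 : e (S.mkQ (fa (Additive.ofMul v))) = 0 := h
        exact (LinearEquiv.map_eq_zero_iff e).1 h1
      · intro h
        show Multiplicative.ofAdd (e (S.mkQ (fa (Additive.ofMul v)))) = 1
        rw [h, map_zero]
        rfl
    have hψ : ∀ v : M, ((QuotientGroup.mk' τ).comp φ) (v : G) = 1 ↔ φ (v : G) ∈ τ := by
      intro v
      rw [MonoidHom.comp_apply, QuotientGroup.mk'_apply, QuotientGroup.eq_one_iff]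
    have hch : ∀ y : M.map ((QuotientGroup.mk' τ).comp φ), ∃ v : M, ((QuotientGroup.mk' τ).comp φ) (v : G) = y := by
      rintro ⟨_, v, hv, rfl⟩
      exact ⟨⟨v, hv⟩, rfl⟩
    choose c hc using hch
    have hgc : ∀ (v : M) (y : M.map ((QuotientGroup.mk' τ).comp φ)), ((QuotientGroup.mk' τ).comp φ) (v : G) = y →
        g v = g (c y) := by
      intro v y hv
      have h1 : g (v * (c y)⁻¹) = 1 := by
        rw [hg, ← hψ]
        show ((QuotientGroup.mk' τ).comp φ) ((v : G) * ((c y : M) : G)⁻¹) = 1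
        rw [map_mul, map_inv, hv, hc, mul_inv_cancel]
      rw [map_mul, map_inv, mul_inv_eq_one] at h1
      exact h1
    refine ⟨_, { toFun := fun y => g (c y)
                 map_one' := by
                   rw [← hgc 1 1 (by simp), map_one]
                 map_mul' := by
                   intro a b
                   rw [← map_mul]
                   refine (hgc (c a * c b) (a * b) ?_).symm
                   show ((QuotientGroup.mk' τ).comp φ) (((c a : M) : G) * ((c b : M) : G)) = _
                   rw [map_mul, hc, hc]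
                   rfl }, ?_⟩
    rw [injective_iff_map_eq_one]
    intro y hy
    have h1 : g (c y) = 1 := hy
    rw [hg, ← hψ, hc] at h1
    exact Subtype.ext h1
  · rintro _ ⟨v, hv, rfl⟩ x k hk0 hvx
    obtain ⟨x, rfl⟩ := QuotientGroup.mk_surjective x
    obtain ⟨x, rfl⟩ := hφ x
    obtain ⟨P, hP⟩ := exists_op M hM hcM x k
    have hPi : Function.Injective (MonoidHom.toAdditive P) := by
      rw [injective_iff_map_eq_zero]
      intro a ha
      have h1 : P (Additive.toMul a) = 1 := ha
      have h2 := hP (Additive.toMul a)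
      rw [h1] at h2
      have h3 := hk _ (Additive.toMul a : M).2 x k hk0 (mul_inv_eq_one.1 h2.symm)
      exact Subtype.ext h3
    have hPB : ∀ b ∈ B, MonoidHom.toAdditive P b ∈ B := by
      intro b hb
      have hb' : φ ((Additive.toMul b : M) : G) = 1 := hb
      show φ ((P (Additive.toMul b) : M) : G) = 1
      rw [hP, map_mul, map_inv, map_pow, map_pow, map_mul, hb', one_mul, mul_inv_cancel]
    have h1 : φ ((P ⟨v, hv⟩ : M) : G) ∈ τ := by
      rw [← QuotientGroup.eq_one_iff, hP]
      have h2 : ((QuotientGroup.mk' τ).comp φ v * ((φ x : Q) : Q ⧸ τ)) ^ k = ((φ x : Q) : Q ⧸ τ) ^ k := hvx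
      show (QuotientGroup.mk' τ) (φ ((v * x) ^ k * (x ^ k)⁻¹)) = 1
      rw [map_mul, map_mul, map_inv, map_inv, map_pow, map_pow, map_pow, map_pow, map_mul, map_mul]
      have h3 : (QuotientGroup.mk' τ) (φ v) * (QuotientGroup.mk' τ) (φ x) = (QuotientGroup.mk' τ).comp φ v * ((φ x : Q) : Q ⧸ τ) := rfl
      rw [h3, h2]
      exact mul_inv_cancel _
    obtain ⟨j, hj, hj1⟩ := (htor (P ⟨v, hv⟩)).1 h1
    obtain ⟨i, hi, hi1⟩ := key fa hfa B (MonoidHom.toAdditive P) hPi hPB (Additive.ofMul ⟨v, hv⟩) ⟨j, hj, (hB _ j).2 hj1⟩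
    have h4 : φ v ∈ τ := (htor ⟨v, hv⟩).2 ⟨i, hi, (hB ⟨v, hv⟩ i).1 hi1⟩
    exact (QuotientGroup.eq_one_iff _).2 h4

private theorem quotn (n : ℕ) {G Q : Type} [Group G] [Group Q] (φ : G →* Q) (hφ : Function.Surjective φ) (h : NTn n G) :
    ∃ m, NTn m Q := by
  induction n generalizing G Q with
  | zero =>
    have h0 : Subsingleton G := h
    exact ⟨0, hφ.subsingleton⟩
  | succ n ih =>
    obtain ⟨M, hM, hn, hk⟩ := h
    have hs : ∀ (R : Type) [Group R] (ψ : G →* R) (hψ : Function.Surjective ψ) (hN : (M.map ψ).Normal),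
        ∃ m, NTn m (R ⧸ M.map ψ) := by
      intro R _ ψ hψ hN
      refine ih (QuotientGroup.map M (M.map ψ) ψ (Subgroup.le_comap_map ψ M)) ?_ hn
      intro y
      obtain ⟨y, rfl⟩ := QuotientGroup.mk_surjective y
      obtain ⟨x, rfl⟩ := hψ y
      exact ⟨(x : G ⧸ M), rfl⟩
    rcases hk with hk | ⟨⟨r, f, hf⟩, hk⟩
    · have hN : (M.map φ).Normal := hM.map φ hφ
      obtain ⟨m, hm⟩ := hs Q φ hφ hN
      exact ⟨m + 1, M.map φ, hN, hm, Or.inl (lf_surj (φ.subgroupMap M) (φ.subgroupMap_surjective M) hk)⟩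
    · obtain ⟨τ, hτ, hlf, hF, hk'⟩ := step φ hφ M hM f hf hk
      have hψ : Function.Surjective ((QuotientGroup.mk' τ).comp φ) := (QuotientGroup.mk'_surjective τ).comp hφ
      have hN : (M.map ((QuotientGroup.mk' τ).comp φ)).Normal := hM.map _ hψ
      obtain ⟨m, hm⟩ := hs (Q ⧸ τ) ((QuotientGroup.mk' τ).comp φ) hψ hN
      exact ⟨m + 2, τ, hτ, ⟨M.map ((QuotientGroup.mk' τ).comp φ), hN, hm, Or.inr ⟨hF, hk'⟩⟩, Or.inl hlf⟩

theorem NT.quot {G Q : Type} [Group G] [Group Q] (φ : G →* Q) (hφ : Function.Surjective φ) (h : NT G) : NT Q := by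
  obtain ⟨n, hn⟩ := h
  exact quotn n φ hφ hn

end Pool.Agent.H50.GN
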