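import Pool.Agent.H50.GN.Inv
import Pool.Agent.H64.QT.Quot

/-!
# [GN4] The quotient tree

Proof. Let `ρ y = n y • y`, `S` its image. By `inv` `ρ` is constant on the orbits of `NN I`, and `n y ∈ NN I` for all `y` (connectedness and
`adj`: `n y * (n x)⁻¹` is in some `I z`; at a point `s ∈ S` we have `n s = 1`). If `x y` is an edge then `ρ x` and `ρ y` are adjacent (`adj`, as
in the proof of `inv`). So `NN I` does not invert an edge, and it is generated by elements which fix vertices: the quotient graph is a tree
(`Pool.Agent.H64.QT.qg_tree`). The quotient group acts by automorphisms: `g • x`, `g • y` are adjacent for an edge `x y`, and orbits which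
are different are mapped to different orbits.
-/

set_option autoImplicit false

namespace Pool.Agent.H50.GN

open Pool.Agent.H98.FJ Pool.Agent.H93.TR

theorem n_mem {G V : Type} [Group G] [MulAction G V] {X : SimpleGraph V} (hX : OnTree G X)
    {I : V → Subgroup G} (hI : Sat X I) {n : V → G} (hn : Lft X I n) (y : V) : n y ∈ NN I := by
  have key : ∀ (a b : V) (p : X.Walk a b), n a ∈ NN I → n b ∈ NN I := by
    intro a b p
    induction p with
    | nil => exact id
    | @cons a c b h p ih =>
      intro ha
      refine ih ?_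
      have h1 : n c * (n a)⁻¹ ∈ NN I := by
        rcases hn.adj a c h with h2 | h2
        · exact mem_NN h2
        · exact mem_NN h2
      have h2 := (NN I).mul_mem h1 ha
      rwa [inv_mul_cancel_right] at h2
  obtain ⟨p⟩ := hX.tree.connected.preconnected (n y • y) y
  refine key _ _ p ?_
  rw [hn.one]
  exact (NN I).one_mem

theorem rho_adj {G V : Type} [Group G] [MulAction G V] {X : SimpleGraph V} (hX : OnTree G X)
    {I : V → Subgroup G} (hI : Sat X I) {n : V → G} (hn : Lft X I n) (x y : V) (h : X.Adj x y) :
    X.Adj (n x • x) (n y • y) := by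
  rcases hn.adj x y h with h1 | h1
  · have h2 := hI.fix _ _ h1
    rw [mul_smul, inv_smul_smul] at h2
    rw [← h2]
    exact hX.adj _ _ _ h
  · have h2 := hI.fix _ _ h1
    have h3 : n x • y = n y • y := by
      rw [mul_smul] at h2
      have h4 : (n x)⁻¹ • n y • y = y := MulAction.injective (n y) h2
      rw [inv_smul_eq_iff] at h4
      exact h4.symm
    rw [← h3]
    exact hX.adj _ _ _ h

theorem quot_tree {G V : Type} [Group G] [MulAction G V] {X : SimpleGraph V} (hX : OnTree G X)
    {I : V → Subgroup G} (hI : Sat X I) {n : V → G} (hn : Lft X I n) [(NN I).Normal] :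
    OnTree (G ⧸ NN I) (qg X (NN I)) := by
  have hi : NoInv X (NN I) := by
    intro g hg v w hvw h1 h2
    have h3 := (inv hX hI hn g hg v).1
    rw [h1] at h3
    have h4 := rho_adj hX hI hn v w hvw
    rw [h3] at h4
    exact h4.ne rfl
  have hE : Pool.Agent.H64.QT.Ell V (NN I) := by
    refine iSup_le fun x c hc => ?_
    exact Subgroup.subset_closure ⟨mem_NN hc, x, hI.fix x c hc⟩
  have he : qg X (NN I) = Pool.Agent.H64.QT.qg X (NN I) := by
    ext a b
    constructor
    · rintro ⟨h, x, y, hx, hy, h1⟩
      exact ⟨h, x, y, h1, hx, hy⟩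
    · rintro ⟨h, x, y, h1, hx, hy⟩
      exact ⟨h, x, y, hx, hy, h1⟩
  refine ⟨?_, ?_⟩
  · rw [he]
    exact Pool.Agent.H64.QT.qg_tree hX hi hE
  · rintro g a b ⟨h, x, y, hx, hy, h1⟩
    obtain ⟨g, rfl⟩ := QuotientGroup.mk_surjective g
    refine ⟨fun h2 => h (MulAction.injective (QuotientGroup.mk g : G ⧸ NN I) h2), g • x, g • y, ?_, ?_, hX.adj g x y h1⟩
    · rw [← hx]
      rfl
    · rw [← hy]
      rfl

end Pool.Agent.H50.GN
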