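import Pool.Agent.H50.GN.Main
import Pool.Agent.H50.GN.ClsProd
import Pool.Agent.H50.GN.Neat
import Pool.Agent.H18.RG.Raag
import Pool.Agent.H18.RG.Csa
import Pool.Agent.H63.RK.CasA

/-!
# [GN26] Tame groups
-/

set_option autoImplicit false

namespace Pool.Agent.H50.GN

open Pool.Agent.H98.FJ Pool.Agent.H93.TR Pool.Agent.H76.GT Pool.Agent.H75.CX Pool.Agent.H18.TN Pool.Agent.H18.RG
open Pool.Agent.H63.RK

/-- `H` has a locally finite normal subgroup with quotient in a class `W` as in `Cls` -/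
def Tame (C : (G : Type) → [Group G] → Prop) (H : Type) [Group H] : Prop :=
  ∃ W : (G : Type) → [Group G] → Prop, Cls C W ∧ WT W H

/-- the largest class -/
private def Wmax (C : (G : Type) → [Group G] → Prop) (H : Type) [Group H] : Prop :=
  ∃ W : (G : Type) → [Group G] → Prop, Cls C W ∧ W H

private theorem cls_max (C : (G : Type) → [Group G] → Prop) : Cls C (Wmax C) where
  mem G _ := by
    rintro ⟨W, hW, h⟩
    exact hW.mem G h
  inj G H _ _ f hf := by
    rintro ⟨W, hW, h⟩
    exact ⟨W, hW, hW.inj G H f hf h⟩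
  tf G _ := by
    rintro ⟨W, hW, h⟩
    exact hW.tf G h
  root G _ := by
    rintro ⟨W, hW, h⟩
    exact hW.root G h
  quot G Q _ _ f := by
    rintro ⟨W, hW, h⟩ hf hA
    exact ⟨W, hW, hW.quot G Q f h hf hA⟩

section

variable {C : (G : Type) → [Group G] → Prop}

theorem tame_inj {G H : Type} [Group G] [Group H] (f : G →* H) (hf : Function.Injective f) (h : Tame C H) : Tame C G := by
  obtain ⟨W, hW, h⟩ := h
  exact ⟨W, hW, wt_inj hW f hf h⟩

theorem tame_of {W : (G : Type) → [Group G] → Prop} (hW : Cls C W) {H : Type} [Group H] (h : W H) : Tame C H := by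
  refine ⟨W, hW, ⊥, inferInstance, ?_, hW.inj _ _ (QuotientGroup.quotientBot (G := H)).toMonoidHom
    (QuotientGroup.quotientBot (G := H)).injective h⟩
  intro K _
  have : Finite (⊥ : Subgroup H) := inferInstance
  infer_instance

theorem tame_nil (hC : Inherits C) (hS : ∀ (G : Type) [Group G], Group.IsSolvable G → C G) {H : Type} [Group H]
    (h : LocNil H) : Tame C H :=
  ⟨WN, cls_WN hC hS, wt_nil (fun _ _ h => h) h⟩

theorem tame_prod (hC : Inherits C) (hE : Extension C) (hS : ∀ (G : Type) [Group G], Group.IsSolvable G → C G)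
    {U R S : Type} [Finite U] (Γ : SimpleGraph U) [Group R] [Group S] (hR : TF R) (hR1 : CSA R) (hR2 : C R) (hS1 : TF S)
    (hS2 : NT S ∨ LocNil S) : Tame C (Raag Γ × R × S) := by
  have h1 : WR C (Raag Γ) := raag_RR hC hE Γ
  have h2 : WR C (Raag Γ × R) := ⟨RR_prod _ _ h1.1 (RR_csa R hR hR1), prod_mem hC h1.2 hR2⟩
  have h3 : WQ S := by
    rcases hS2 with h | h
    · exact h.wq hS1
    · exact WN_WQ ⟨hS1, h⟩
  exact tame_of (cls_WP hC hS) ⟨Raag Γ × R, S, inferInstance, inferInstance,
    (MulEquiv.prodAssoc (M := Raag Γ) (N := R) (P := S)).symm.toMonoidHom,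
    (MulEquiv.prodAssoc (M := Raag Γ) (N := R) (P := S)).symm.injective, h2, h3⟩

/-- **graphs of tame groups** -/
theorem tame_graphs (hC : Inherits C) (hE : Extension C) (hT : Transfer C)
    (hS : ∀ (G : Type) [Group G], Group.IsSolvable G → C G) {G V : Type} [Group G] [MulAction G V]
    {X : SimpleGraph V} (hX : OnTree G X) (hv : ∀ v : V, Tame C (MulAction.stabilizer G v))
    (he : ∀ v w : V, X.Adj v w → LVP (MulAction.stabilizer G v ⊓ MulAction.stabilizer G w : Subgroup G)) : C G := by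
  refine graphs hC hE hT hS (cls_max C) hX (fun v => ?_) he
  obtain ⟨W, hW, F, hF, h1, h2⟩ := hv v
  exact ⟨F, hF, h1, W, hW, h2⟩

end

end Pool.Agent.H50.GN
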