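import Pool.Agent.H50.GN.ClsQ
import Pool.Agent.H50.GN.Neat

/-!
# [GN28] Products of torsion-free locally nilpotent groups with groups in `WQ`

Proof. `AB Q` (`Neat.lean`): finite sets of torsion elements generate finite subgroups (α), and if `x ^ k`, `y` commute (`k ≠ 0`) then `⁅x, y⁆` has finite
order (β; alone: `RT Q`). (0) `AB.ext3`: an extension of a group with `AB` by a commutative kernel `A` has `AB` if `A` is neat modulo torsion: if
`Pk x v k = (v x) ^ k * (x ^ k)⁻¹` has finite order, `k ≠ 0`, then so has `v`: apply `ext1`, `ext2` to the quotient by the torsion subgroup of `A`. (1) If `S`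
is locally solvable with `SecRoot S` then every section of `S` satisfies `AB`: (β) is `SecRoot` (`sec_RT`). (α): we may assume that the section `Q` is
solvable (generated by finitely many elements); `AB.solv`: induction over the derived length, `A` the last term of the derived series
which is not `1`, `D` its torsion subgroup: if `Pk x v k ∈ D` then `(v x) ^ k = x ^ k` commutes with `x` in `Q / D`, so `⁅v x, x⁆ = ⁅v, x⁆ ∈ A` is torsion by (β) for
`Q / D`, so `v`, `x` commute modulo `D` and `v ^ k ∈ D`. (2) `AB.cen`: central kernels: `Pk x v k = v ^ k`. (3) Let `N` be torsion-free locally nilpotent, `S` in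
`WQ`; for `SecRoot` we may replace `N` by the (nilpotent) subgroup generated by the first coordinates of `x`, `y`. `sec_nil`: `AB` for all sections of
`N × S` by induction over the class of `N`: the image of the preimage of `Z(N) × 1` is central, and the quotient is a section of `(N / Z(N)) × S`.
-/

set_option autoImplicit false

namespace Pool.Agent.H50.GN

/-- extensions with a commutative kernel which is neat modulo torsion -/
theorem AB.ext3 {Q Q' : Type} [Group Q] [Group Q'] (f : Q →* Q') (h : AB Q')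
    (hc : ∀ u v : Q, f u = 1 → f v = 1 → u * v = v * u)
    (hn : ∀ (v x : Q) (k : ℕ), f v = 1 → k ≠ 0 → IsOfFinOrder (Pk x v k) → IsOfFinOrder v) : AB Q := by
  let D : Subgroup Q :=
    { carrier := {v | f v = 1 ∧ IsOfFinOrder v}
      one_mem' := ⟨map_one f, IsOfFinOrder.one⟩
      mul_mem' := fun {a b} ha hb => ⟨by rw [map_mul, ha.1, hb.1, mul_one],
        Commute.isOfFinOrder_mul (hc a b ha.1 hb.1) ha.2 hb.2⟩
      inv_mem' := fun {a} ha => ⟨by rw [map_inv, ha.1, inv_one], ha.2.inv⟩ }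
  have hD : D.Normal := ⟨fun a ha g => ⟨by rw [map_mul, map_mul, ha.1, mul_one, map_inv, mul_inv_cancel], fo_conj g ha.2⟩⟩
  let f₁ : Q ⧸ D →* Q' := QuotientGroup.lift D f (fun a ha => ha.1)
  have hf1 : ∀ x : Q, f₁ (x : Q ⧸ D) = f x := fun x => rfl
  have hKC : KC f₁ := by
    refine ⟨fun u v hu hv => ?_, fun v hv h => ?_, fun v x hv k hk h => ?_⟩
    · obtain ⟨u, rfl⟩ := QuotientGroup.mk_surjective u
      obtain ⟨v, rfl⟩ := QuotientGroup.mk_surjective v
      exact congrArg (fun z : Q => (z : Q ⧸ D)) (hc u v hu hv)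
    · obtain ⟨v, rfl⟩ := QuotientGroup.mk_surjective v
      obtain ⟨a, ha, h3⟩ := h.exists_pow_eq_one
      have h4 : v ^ a ∈ D := (QuotientGroup.eq_one_iff _).1 h3
      exact (QuotientGroup.eq_one_iff _).2 ⟨hv, h4.2.of_pow (by omega)⟩
    · obtain ⟨v, rfl⟩ := QuotientGroup.mk_surjective v
      obtain ⟨x, rfl⟩ := QuotientGroup.mk_surjective x
      rw [← Pk_one_iff] at h
      have h3 : QuotientGroup.mk' D (Pk x v k) = 1 := by
        rw [Pk_map]
        exact h
      have h4 : Pk x v k ∈ D := (QuotientGroup.eq_one_iff _).1 h3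
      exact (QuotientGroup.eq_one_iff _).2 ⟨hv, hn v x k hv hk h4.2⟩
  have h3 : AB (Q ⧸ D) := AB.ext2 f₁ h hKC
  refine AB.ext1 (QuotientGroup.mk' D) h3 fun s hs => ?_
  have h4 : ∀ x ∈ s, x ∈ D := fun x hx => (QuotientGroup.eq_one_iff x).1 (hs x hx)
  have h5 : ∀ x ∈ Subgroup.closure (s : Set Q), x ∈ D := by
    intro x hx
    have : Subgroup.closure (s : Set Q) ≤ D := (Subgroup.closure_le _).2 h4
    exact this hx
  let _ : CommGroup (Subgroup.closure (s : Set Q)) :=
    { (inferInstance : Group (Subgroup.closure (s : Set Q))) with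
      mul_comm := fun a b => Subtype.ext (hc a.1 b.1 (h5 a.1 a.2).1 (h5 b.1 b.2).1) }
  have : Group.FG (Subgroup.closure (s : Set Q)) := (Group.fg_iff_subgroup_fg _).2 ⟨s, rfl⟩
  refine CommGroup.finite_of_fg_isMulTorsion _ ?_
  intro a
  exact Submonoid.isOfFinOrder_coe.1 (h5 a.1 a.2).2

/-- central extensions -/
theorem AB.cen {Q Q' : Type} [Group Q] [Group Q'] (f : Q →* Q') (h : AB Q') (hc : ∀ u v : Q, f u = 1 → u * v = v * u) :
    AB Q := by
  refine h.ext3 f (fun u v hu _ => hc u v hu) (fun v x k hv hk h1 => ?_)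
  rw [Pk_eq, Commute.mul_pow (hc v x hv), mul_inv_cancel_right] at h1
  exact h1.of_pow hk

/-- roots commute up to torsion -/
def RT (Q : Type) [Group Q] : Prop :=
  ∀ (x y : Q) (k : ℕ), k ≠ 0 → Commute (x ^ k) y → IsOfFinOrder (x * y * x⁻¹ * y⁻¹)

open scoped commutatorElement in
/-- solvable groups in whose quotients roots commute up to torsion -/
theorem AB.solv (n : ℕ) : ∀ (Q : Type) [Group Q], derivedSeries Q n = ⊥ →
    (∀ (R : Type) [Group R] (f : Q →* R), Function.Surjective f → RT R) → AB Q := by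
  induction n with
  | zero =>
    intro Q _ h hr
    have h1 : Subsingleton Q := by
      rw [derivedSeries_zero] at h
      exact Subgroup.subsingleton_iff.1 (subsingleton_of_bot_eq_top h.symm)
    exact ⟨fun s _ => inferInstance, fun x y k _ _ => isOfFinOrder_of_finite _⟩
  | succ n ih =>
    intro Q _ h hr
    have hA : (derivedSeries Q n).Normal := derivedSeries_normal Q n
    have hcA : ∀ u v : Q, u ∈ derivedSeries Q n → v ∈ derivedSeries Q n → u * v = v * u := by
      intro u v hu hv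
      have h1 : ⁅u, v⁆ ∈ derivedSeries Q (n + 1) := by
        rw [derivedSeries_succ]
        exact Subgroup.commutator_mem_commutator hu hv
      rw [h, Subgroup.mem_bot, commutatorElement_eq_one_iff_mul_comm] at h1
      exact h1
    have h1 : AB (Q ⧸ derivedSeries Q n) := by
      refine ih (Q ⧸ derivedSeries Q n) ?_ ?_
      · rw [← map_derivedSeries_eq (QuotientGroup.mk'_surjective (derivedSeries Q n)) n]
        rw [Subgroup.map_eq_bot_iff, QuotientGroup.ker_mk']
      · intro R _ f hf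
        exact hr R (f.comp (QuotientGroup.mk' _)) (hf.comp (QuotientGroup.mk'_surjective _))
    have hf : ∀ x : Q, QuotientGroup.mk' (derivedSeries Q n) x = 1 ↔ x ∈ derivedSeries Q n :=
      fun x => QuotientGroup.eq_one_iff x
    refine h1.ext3 (QuotientGroup.mk' _) (fun u v hu hv => hcA u v ((hf u).1 hu) ((hf v).1 hv)) ?_
    intro v x k hv hk h2
    set A := derivedSeries Q n with hAdef
    have hvA : v ∈ A := (hf v).1 hv
    let D : Subgroup Q :=
      { carrier := {v | v ∈ A ∧ IsOfFinOrder v}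
        one_mem' := ⟨one_mem _, IsOfFinOrder.one⟩
        mul_mem' := fun {a b} ha hb => ⟨mul_mem ha.1 hb.1, Commute.isOfFinOrder_mul (hcA a b ha.1 hb.1) ha.2 hb.2⟩
        inv_mem' := fun {a} ha => ⟨inv_mem ha.1, ha.2.inv⟩ }
    have hD : D.Normal := ⟨fun a ha g => ⟨hA.conj_mem a ha.1 g, fo_conj g ha.2⟩⟩
    have hPA : Pk x v k ∈ A := Pk_mem' A hA x v hvA k
    have h3 : (((v * x) ^ k * (x ^ k)⁻¹ : Q) : Q ⧸ D) = 1 := by
      rw [← Pk_eq]
      exact (QuotientGroup.eq_one_iff _).2 ⟨hPA, h2⟩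
    have h4 : ((v : Q ⧸ D) * (x : Q ⧸ D)) ^ k = (x : Q ⧸ D) ^ k := by
      have h5 : ((v : Q ⧸ D) * (x : Q ⧸ D)) ^ k * ((x : Q ⧸ D) ^ k)⁻¹ = 1 := h3
      exact mul_inv_eq_one.1 h5
    have h5 := hr (Q ⧸ D) (QuotientGroup.mk' D) (QuotientGroup.mk'_surjective D) ((v : Q ⧸ D) * (x : Q ⧸ D)) (x : Q ⧸ D) k hk
      (by rw [h4]; exact Commute.pow_self _ _)
    obtain ⟨a, ha, h6⟩ := h5.exists_pow_eq_one
    have h7 : (v : Q ⧸ D) * (x : Q ⧸ D) * (x : Q ⧸ D) * ((v : Q ⧸ D) * (x : Q ⧸ D))⁻¹ * ((x : Q ⧸ D))⁻¹ =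
        ((v * x * v⁻¹ * x⁻¹ : Q) : Q ⧸ D) := by
      show (v : Q ⧸ D) * (x : Q ⧸ D) * (x : Q ⧸ D) * ((v : Q ⧸ D) * (x : Q ⧸ D))⁻¹ * ((x : Q ⧸ D))⁻¹ =
        (v : Q ⧸ D) * (x : Q ⧸ D) * ((v : Q ⧸ D))⁻¹ * ((x : Q ⧸ D))⁻¹
      group
    rw [h7] at h6
    have h8 : (v * x * v⁻¹ * x⁻¹) ^ a ∈ D := (QuotientGroup.eq_one_iff _).1 h6
    have h9 : v * x * v⁻¹ * x⁻¹ ∈ A := by
      have h10 : v * x * v⁻¹ * x⁻¹ = v * (x * v⁻¹ * x⁻¹) := by group
      rw [h10]
      exact mul_mem hvA (hA.conj_mem _ (inv_mem hvA) x)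
    have h10 : ((v * x * v⁻¹ * x⁻¹ : Q) : Q ⧸ D) = 1 := (QuotientGroup.eq_one_iff _).2 ⟨h9, h8.2.of_pow (by omega)⟩
    have h11 : (v : Q ⧸ D) * (x : Q ⧸ D) = (x : Q ⧸ D) * (v : Q ⧸ D) := by
      have h12 : (v : Q ⧸ D) * (x : Q ⧸ D) * ((v : Q ⧸ D))⁻¹ * ((x : Q ⧸ D))⁻¹ = 1 := h10
      rw [mul_inv_eq_one, mul_inv_eq_iff_eq_mul] at h12
      exact h12
    rw [Commute.mul_pow h11] at h4
    have h12 : ((v ^ k : Q) : Q ⧸ D) = 1 := by
      have h13 : (v : Q ⧸ D) ^ k = 1 := by
        have := mul_eq_right.1 h4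
        exact this
      exact h13
    have h13 : v ^ k ∈ D := (QuotientGroup.eq_one_iff _).1 h12
    exact h13.2.of_pow hk

/-- sections -/
theorem sec_RT {S : Type} [Group S] (hr : SecRoot S) {H Q : Type} [Group H] [Group Q] (i : H →* S) (p : H →* Q)
    (hi : Function.Injective i) (hp : Function.Surjective p) : RT Q := by
  intro x y k hk hc
  obtain ⟨x, rfl⟩ := hp x
  obtain ⟨y, rfl⟩ := hp y
  have hn : ∀ z : H, ∀ n : S, n ∈ p.ker.map i ↔ i z * n * (i z)⁻¹ ∈ p.ker.map i := by
    intro z n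
    constructor
    · rintro ⟨m, hm, rfl⟩
      refine ⟨z * m * z⁻¹, (inferInstance : p.ker.Normal).conj_mem m hm z, ?_⟩
      rw [map_mul, map_mul, map_inv]
    · rintro ⟨m, hm, hm1⟩
      refine ⟨z⁻¹ * m * z⁻¹⁻¹, (inferInstance : p.ker.Normal).conj_mem m hm z⁻¹, ?_⟩
      rw [inv_inv, map_mul, map_mul, hm1, map_inv]
      group
  obtain ⟨m, hm, h1⟩ := hr (p.ker.map i) (i x) (i y) (hn x) (hn y) k hk (by
    refine ⟨x ^ k * y * (x ^ k)⁻¹ * y⁻¹, ?_, ?_⟩
    · show p (x ^ k * y * (x ^ k)⁻¹ * y⁻¹) = 1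
      rw [map_mul, map_mul, map_mul, map_inv, map_inv, map_pow, hc.eq]
      group
    · rw [map_mul, map_mul, map_mul, map_inv, map_inv, map_pow])
  obtain ⟨u, hu, hu1⟩ := h1
  have h2 : u = (x * y * x⁻¹ * y⁻¹) ^ m := by
    apply hi
    rw [hu1, map_pow, map_mul, map_mul, map_mul, map_inv, map_inv]
  rw [h2] at hu
  have h3 : p ((x * y * x⁻¹ * y⁻¹) ^ m) = 1 := hu
  rw [map_pow, map_mul, map_mul, map_mul, map_inv, map_inv] at h3
  exact isOfFinOrder_iff_pow_eq_one.2 ⟨m, by omega, h3⟩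

theorem secRoot_of {G : Type} [Group G] (h : ∀ (H Q : Type) [Group H] [Group Q] (i : H →* G) (p : H →* Q),
    Function.Injective i → Function.Surjective p → RT Q) : SecRoot G := by
  intro N x y hx hy k hk hxy
  have hxN : x ∈ Subgroup.normalizer (N : Set G) := Subgroup.mem_normalizer_iff.2 hx
  have hyN : y ∈ Subgroup.normalizer (N : Set G) := Subgroup.mem_normalizer_iff.2 hy
  set H := Subgroup.normalizer (N : Set G) with hH
  have hN : (N.subgroupOf H).Normal := Subgroup.normal_in_normalizer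
  have h1 := h H (H ⧸ N.subgroupOf H) H.subtype (QuotientGroup.mk' _) H.subtype_injective
    (QuotientGroup.mk'_surjective _)
  have h2 := h1 ((⟨x, hxN⟩ : H) : H ⧸ N.subgroupOf H) ((⟨y, hyN⟩ : H) : H ⧸ N.subgroupOf H) k hk (by
    have h3 : (((⟨x, hxN⟩ ^ k * ⟨y, hyN⟩ * (⟨x, hxN⟩ ^ k)⁻¹ * (⟨y, hyN⟩)⁻¹ : H)) : H ⧸ N.subgroupOf H) = 1 :=
      (QuotientGroup.eq_one_iff _).2 (Subgroup.mem_subgroupOf.2 hxy)
    have h4 : ((⟨x, hxN⟩ : H) : H ⧸ N.subgroupOf H) ^ k * ((⟨y, hyN⟩ : H) : H ⧸ N.subgroupOf H) *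
        (((⟨x, hxN⟩ : H) : H ⧸ N.subgroupOf H) ^ k)⁻¹ * (((⟨y, hyN⟩ : H) : H ⧸ N.subgroupOf H))⁻¹ = 1 := h3
    rw [mul_inv_eq_one, mul_inv_eq_iff_eq_mul] at h4
    exact h4)
  obtain ⟨m, hm, h3⟩ := h2.exists_pow_eq_one
  have h4 : (((⟨x, hxN⟩ * ⟨y, hyN⟩ * (⟨x, hxN⟩)⁻¹ * (⟨y, hyN⟩)⁻¹ : H) ^ m : H) : H ⧸ N.subgroupOf H) = 1 := h3
  exact ⟨m, by omega, Subgroup.mem_subgroupOf.1 ((QuotientGroup.eq_one_iff _).1 h4)⟩

theorem sec_AB_of {S : Type} [Group S] (hs : ∀ s : Finset S, Group.IsSolvable (Subgroup.closure (s : Set S)))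
    (hr : SecRoot S) (H Q : Type) [Group H] [Group Q] (i : H →* S) (p : H →* Q)
    (hi : Function.Injective i) (hp : Function.Surjective p) : AB Q := by
  classical
  refine ⟨fun s hst => ?_, sec_RT hr i p hi hp⟩
  choose g hg using hp
  set H₁ := Subgroup.closure ((s.image g : Finset H) : Set H) with hH₁
  set Q₁ := Subgroup.closure (s : Set Q) with hQ₁
  have hpi : p '' ((s.image g : Finset H) : Set H) = s := by
    ext z
    constructor
    · rintro ⟨u, hu, rfl⟩
      obtain ⟨w, hw, rfl⟩ := Finset.mem_image.1 (Finset.mem_coe.1 hu)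
      rw [hg]
      exact hw
    · intro hz
      exact ⟨g z, Finset.mem_coe.2 (Finset.mem_image_of_mem g hz), hg z⟩
  have hmap : H₁.map p = Q₁ := by rw [hH₁, MonoidHom.map_closure, hpi]
  have hsolH : Group.IsSolvable H₁ := by
    have h1 := hs ((s.image g).image i)
    have h2 : H₁.map i ≤ Subgroup.closure ((((s.image g).image i : Finset S)) : Set S) := by
      rw [hH₁, MonoidHom.map_closure, ← Finset.coe_image]
    let q : H₁ →* Subgroup.closure ((((s.image g).image i : Finset S)) : Set S) :=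
      { toFun := fun x => ⟨i x.1, h2 ⟨x.1, x.2, rfl⟩⟩
        map_one' := Subtype.ext (map_one i)
        map_mul' := fun x y => Subtype.ext (map_mul i x.1 y.1) }
    have hq : Function.Injective q := by
      intro x y hxy
      exact Subtype.ext (hi (congrArg Subtype.val hxy))
    exact Group.isSolvable_of_isSolvable_injective hq
  let p₁ : H₁ →* Q₁ :=
    { toFun := fun x => ⟨p x.1, by rw [← hmap]; exact ⟨x.1, x.2, rfl⟩⟩
      map_one' := Subtype.ext (map_one p)
      map_mul' := fun x y => Subtype.ext (map_mul p x.1 y.1) }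
  have hp₁ : Function.Surjective p₁ := by
    rintro ⟨z, hz⟩
    rw [← hmap] at hz
    obtain ⟨u, hu, rfl⟩ := hz
    exact ⟨⟨u, hu⟩, rfl⟩
  have hsolQ : Group.IsSolvable Q₁ := Group.isSolvable_of_surjective hp₁
  obtain ⟨n, hn⟩ := hsolQ.solvable
  have h3 : AB Q₁ := AB.solv n Q₁ hn (fun R _ f hf =>
    sec_RT hr (i.comp H₁.subtype) (f.comp p₁) (hi.comp H₁.subtype_injective) (hf.comp hp₁))
  let t : Finset Q₁ := s.attach.image (fun x => ⟨x.1, Subgroup.subset_closure x.2⟩)
  have h4 := h3.lf t (by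
    intro x hx
    obtain ⟨y, hy, rfl⟩ := Finset.mem_image.1 hx
    exact Submonoid.isOfFinOrder_coe.1 (hst y.1 y.2))
  have h5 : (Subgroup.closure (t : Set Q₁)).map Q₁.subtype = Q₁ := by
    have h6 : Q₁.subtype '' (t : Set Q₁) = s := by
      ext z
      constructor
      · rintro ⟨u, hu, rfl⟩
        obtain ⟨w, hw, rfl⟩ := Finset.mem_image.1 (Finset.mem_coe.1 hu)
        exact w.2
      · intro hz
        exact ⟨⟨z, Subgroup.subset_closure hz⟩, Finset.mem_coe.2 (Finset.mem_image.2 ⟨⟨z, hz⟩, Finset.mem_attach _ _, rfl⟩), rfl⟩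
    rw [MonoidHom.map_closure, h6]
  refine Finite.of_surjective (fun u : Subgroup.closure (t : Set Q₁) => u.1) ?_
  rintro ⟨z, hz⟩
  have h6 := hz
  rw [← h5] at h6
  obtain ⟨u, hu, hu1⟩ := h6
  exact ⟨⟨u, hu⟩, Subtype.ext hu1⟩

theorem sec_nil {S : Type} [Group S] (hS : ∀ (H Q : Type) [Group H] [Group Q] (i : H →* S) (p : H →* Q),
    Function.Injective i → Function.Surjective p → AB Q) (N : Type) [Group N] [Group.IsNilpotent N] :
    ∀ (H Q : Type) [Group H] [Group Q] (i : H →* N × S) (p : H →* Q),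
    Function.Injective i → Function.Surjective p → AB Q := by
  refine Group.nilpotent_center_quotient_ind (P := fun N _ _ => ∀ (H Q : Type) [Group H] [Group Q] (i : H →* N × S)
    (p : H →* Q), Function.Injective i → Function.Surjective p → AB Q) N ?_ ?_
  · intro N _ _ H Q _ _ i p hi hp
    refine hS H Q ((MonoidHom.snd N S).comp i) p ?_ hp
    intro a b hab
    exact hi (Prod.ext (Subsingleton.elim _ _) hab)
  · intro N _ _ ih H Q _ _ i p hi hp
    have hA : (((Subgroup.center N).prod (⊥ : Subgroup S)).comap i).Normal := Subgroup.Normal.comap inferInstance i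
    have hR : ((((Subgroup.center N).prod (⊥ : Subgroup S)).comap i).map p).Normal := hA.map p hp
    set A := ((Subgroup.center N).prod (⊥ : Subgroup S)).comap i with hAdef
    set R := A.map p with hRdef
    have hmA : ∀ a : H, a ∈ A ↔ (i a).1 ∈ Subgroup.center N ∧ (i a).2 = 1 := fun a => Iff.rfl
    let g : H →* (N ⧸ Subgroup.center N) × S :=
      ((QuotientGroup.mk' (Subgroup.center N)).comp ((MonoidHom.fst N S).comp i)).prod ((MonoidHom.snd N S).comp i)
    have hg : ∀ a : H, g a = 1 ↔ a ∈ A := by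
      intro a
      rw [hmA]
      constructor
      · intro h
        have h1 : (((i a).1 : N) : N ⧸ Subgroup.center N) = 1 := congrArg Prod.fst h
        exact ⟨(QuotientGroup.eq_one_iff _).1 h1, congrArg Prod.snd h⟩
      · intro h
        exact Prod.ext ((QuotientGroup.eq_one_iff _).2 h.1) h.2
    let i' : H ⧸ A →* (N ⧸ Subgroup.center N) × S := QuotientGroup.lift A g (fun a ha => (hg a).2 ha)
    have hi' : Function.Injective i' := by
      rw [injective_iff_map_eq_one]
      intro z hz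
      obtain ⟨u, rfl⟩ := QuotientGroup.mk_surjective z
      exact (QuotientGroup.eq_one_iff u).2 ((hg u).1 hz)
    let p' : H ⧸ A →* Q ⧸ R := QuotientGroup.map A R p (Subgroup.le_comap_map p A)
    have hp' : Function.Surjective p' := by
      intro z
      obtain ⟨u, rfl⟩ := QuotientGroup.mk_surjective z
      obtain ⟨w, rfl⟩ := hp u
      exact ⟨(w : H ⧸ A), rfl⟩
    have h1 : AB (Q ⧸ R) := ih (H ⧸ A) (Q ⧸ R) i' p' hi' hp'
    refine h1.cen (QuotientGroup.mk' R) ?_
    intro u v hu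
    obtain ⟨a, ha, rfl⟩ := (QuotientGroup.eq_one_iff u).1 hu
    obtain ⟨b, rfl⟩ := hp v
    have ha1 := (hmA a).1 ha
    have h2 : a * b = b * a := by
      apply hi
      rw [map_mul, map_mul]
      refine Prod.ext ?_ ?_
      · exact ((Subgroup.mem_center_iff.1 ha1.1) (i b).1).symm
      · show (i a).2 * (i b).2 = (i b).2 * (i a).2
        rw [ha1.2, one_mul, mul_one]
    rw [← map_mul, ← map_mul, h2]

/-- the product with the subgroup generated by the first coordinates -/
def incl {N S : Type} [Group N] [Group S] (K : Subgroup N) : K × S →* N × S := K.subtype.prodMap (MonoidHom.id S)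

theorem incl_inj {N S : Type} [Group N] [Group S] (K : Subgroup N) : Function.Injective (incl (S := S) K) := by
  intro a b hab
  have h1 := congrArg Prod.fst hab
  have h2 := congrArg Prod.snd hab
  exact Prod.ext (Subtype.ext h1) h2

theorem WQ_nil {N S : Type} [Group N] [Group S] (hN : WN N) (hS : WQ S) : WQ (N × S) := by
  classical
  refine ⟨fun x k hk hx => ?_, fun s => ?_, fun M x y hx hy k hk hxy => ?_⟩
  · refine Prod.ext (hN.1 x.1 k hk ?_) (hS.1 x.2 k hk ?_)
    · exact congrArg Prod.fst hx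
    · exact congrArg Prod.snd hx
  · have h1 : Group.IsNilpotent (Subgroup.closure ((s.image Prod.fst : Finset N) : Set N)) := hN.2 _ ⟨_, rfl⟩
    have h2 := hS.2.1 (s.image Prod.snd)
    have h3 : ∀ x ∈ Subgroup.closure (s : Set (N × S)), x.1 ∈ Subgroup.closure ((s.image Prod.fst : Finset N) : Set N) ∧
        x.2 ∈ Subgroup.closure ((s.image Prod.snd : Finset S) : Set S) := by
      have h4 : Subgroup.closure (s : Set (N × S)) ≤ (Subgroup.closure ((s.image Prod.fst : Finset N) : Set N)).prod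
          (Subgroup.closure ((s.image Prod.snd : Finset S) : Set S)) := by
        rw [Subgroup.closure_le]
        intro x hx
        exact ⟨Subgroup.subset_closure (Finset.mem_coe.2 (Finset.mem_image_of_mem _ hx)),
          Subgroup.subset_closure (Finset.mem_coe.2 (Finset.mem_image_of_mem _ hx))⟩
      exact fun x hx => h4 hx
    let q : Subgroup.closure (s : Set (N × S)) →* Subgroup.closure ((s.image Prod.fst : Finset N) : Set N) ×
        Subgroup.closure ((s.image Prod.snd : Finset S) : Set S) :=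
      { toFun := fun x => (⟨x.1.1, (h3 x.1 x.2).1⟩, ⟨x.1.2, (h3 x.1 x.2).2⟩)
        map_one' := rfl
        map_mul' := fun x y => rfl }
    have hq : Function.Injective q := by
      intro a b hab
      have h5 := congrArg (fun z => (z.1.1 : N)) hab
      have h6 := congrArg (fun z => (z.2.1 : S)) hab
      exact Subtype.ext (Prod.ext h5 h6)
    exact Group.isSolvable_of_isSolvable_injective hq
  · have h1 : Group.IsNilpotent (Subgroup.closure ((({x.1, y.1} : Finset N)) : Set N)) := hN.2 _ ⟨_, rfl⟩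
    set K := Subgroup.closure ((({x.1, y.1} : Finset N)) : Set N) with hK
    have hxK : x.1 ∈ K := Subgroup.subset_closure (by simp)
    have hyK : y.1 ∈ K := Subgroup.subset_closure (by simp)
    have h2 : SecRoot (K × S) := secRoot_of (fun H Q _ _ i p hi hp =>
      (sec_nil (sec_AB_of hS.2.1 hS.2.2) K H Q i p hi hp).rt)
    let x' : K × S := (⟨x.1, hxK⟩, x.2)
    let y' : K × S := (⟨y.1, hyK⟩, y.2)
    obtain ⟨m, hm, h3⟩ := h2 (M.comap (incl K)) x' y'
      (fun n => by rw [Subgroup.mem_comap, Subgroup.mem_comap, map_mul, map_mul, map_inv]; exact hx _)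
      (fun n => by rw [Subgroup.mem_comap, Subgroup.mem_comap, map_mul, map_mul, map_inv]; exact hy _) k hk (by
        rw [Subgroup.mem_comap, map_mul, map_mul, map_mul, map_inv, map_inv, map_pow]
        exact hxy)
    rw [Subgroup.mem_comap, map_pow, map_mul, map_mul, map_mul, map_inv, map_inv] at h3
    exact ⟨m, hm, h3⟩

end Pool.Agent.H50.GN
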